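import Pool.Agent.TH505.OW.Pats

/-!
Codes of the states of a piece. A letter is a number below eleven: the letters `0, ..., 6` stand for
the edges of the even subgraph with the values `-3, ..., 3`, the letters `7, 8, 9, 10` for the other
edges with the values `-3, -2, 2, 3`. A state with `k` ends is a list of `k` letters, packed in
base 16. The functions are written for fast evaluation by the kernel.
-/

set_option autoImplicit false

namespace Pool.Agent.TH505.HF

open Pool.Agent.TH505.OW (PM fc pa pb)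

/-- The `i`-th base-16 digit. -/
def dg (n i : ℕ) : ℕ := Nat.mod (Nat.shiftRight n (Nat.mul 4 i)) 16

/-- Table of the weights, 16 bits each. -/
def WT : ℕ := 0x100010001000100010000060005000100000026002500240023002200210020

/-- The weight of a letter: the value plus three, plus 32 if the edge is in the even subgraph; 256
if the number is not a letter. -/
def wl (c : ℕ) : ℕ := Nat.mod (Nat.shiftRight WT (Nat.mul 16 c)) 65536

/-- Table of the negatives, 4 bits each. -/
def SWT : ℕ := 0xfedcb789a0123456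

/-- The letter with the opposite value. -/
def sw (c : ℕ) : ℕ := Nat.mod (Nat.shiftRight SWT (Nat.mul 4 c)) 16

/-- Table of the letters by weight modulo 64, 4 bits each. -/
def DTT : ℕ := 0xfffffffffffffffffffffffff6543210fffffffffffffffffffffffffa9fff87

/-- Evaluate the argument first. -/
def fr (n : ℕ) (f : ℕ → ℕ) : ℕ := Nat.rec (f 0) (fun m _ => f (Nat.succ m)) n

/-- Evaluate the argument first. -/
def frL (n : ℕ) (f : ℕ → List ℕ) : List ℕ := Nat.rec (f 0) (fun m _ => f (Nat.succ m)) n

/-- Contributions of the digits 0 and 1, of the digit 2 and of the higher digits. -/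
def p3 (f g h : ℕ → ℕ) (r : ℕ) : ℕ :=
  Nat.add (Nat.add (fr (Nat.mod r 256) f) (fr (Nat.mod (Nat.div r 256) 16) g))
    (fr (Nat.div r 4096) h)

/-- The sum of the weights of the lowest `n` letters. -/
def ws (n t : ℕ) : ℕ := Nat.rec 0 (fun i ih => Nat.add ih (wl (dg t i))) n

/-- The sum of the weights of the letters. -/
def wk (k r : ℕ) : ℕ := p3 (ws 2) wl (ws (Nat.sub k 3)) r

/-- Is `r` the code of a state with `k` ends? -/
def vl (k r : ℕ) : Bool := Nat.beq (Nat.land (wk k r) 65343) (Nat.mul 3 k)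

/-- The digits of `t` moved to the positions given by the permutation number `τ`. -/
def ap (k τ j n t : ℕ) : ℕ :=
  Nat.rec 0 (fun i ih => Nat.add ih
    (Nat.shiftLeft (dg t i) (Nat.mul 4 (PM k τ (Nat.add j i))))) n

/-- The state with the letter number `i` of `r` at the end number `PM k τ i`. -/
def ad (k τ r : ℕ) : ℕ := p3 (ap k τ 0 2) (ap k τ 2 1) (ap k τ 3 (Nat.sub k 3)) r

/-- The opposite state. -/
def ng (k r : ℕ) : ℕ :=
  Nat.rec 0 (fun i ih => Nat.add ih (Nat.shiftLeft (sw (dg r i)) (Nat.mul 4 i))) k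

/-- The entry number `n` of a list. -/
def nt (l : List ℕ) (n : ℕ) : ℕ :=
  List.rec (fun _ => 0) (fun h _ ih n => Nat.rec h (fun m _ => ih m) n) l n

/-- The mask of the sets of a family that contain the state `r`; there are `N` sets, `M = 2 ^ N`, and
`rw` gives the rows of the table. -/
def gt (k N M : ℕ) (rw : ℕ → ℕ) (r : ℕ) : ℕ :=
  cond (vl k r) (fr (Nat.div r 4096) (fun t =>
    Nat.mod (Nat.shiftRight (rw t) (Nat.mul N (Nat.mod r 256))) M)) 0

/-- The pairs of letters. -/
def P2 : List ℕ := [0, 1, 2, 3, 4, 5, 6, 7, 8, 9, 10, 16, 17, 18, 19, 20, 21, 22, 23, 24, 25, 26, 32, 33, 34, 35, 36, 37, 38, 39, 40, 41, 42, 48, 49, 50, 51, 52, 53, 54, 55, 56, 57, 58, 64, 65, 66, 67, 68, 69, 70, 71, 72, 73, 74, 80, 81, 82, 83, 84, 85, 86, 87, 88, 89, 90, 96, 97, 98, 99, 100, 101, 102, 103, 104, 105, 106, 112, 113, 114, 115, 116, 117, 118, 119, 120, 121, 122, 128, 129, 130, 131, 132, 133, 134, 135, 136, 137, 138, 144, 145, 146, 147, 148, 149, 150, 151, 152, 153, 154, 160, 161, 162, 163, 164, 165,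 166, 167, 168, 169, 170]

/-- The top digits that are needed, up to sign. -/
def HL (k : ℕ) : List ℕ := Nat.rec [] (fun k _ => Nat.rec [] (fun k _ => Nat.rec [] (fun k _ =>
  Nat.rec [0] (fun k _ => Nat.rec [0, 1, 2, 7, 8, 3] (fun _ _ => [0, 1, 2, 3, 4, 5, 6, 7, 8, 9, 10, 16, 17, 18, 19, 20, 21, 22, 23, 24, 25, 26, 32, 33, 34, 35, 36, 37, 38, 39, 40, 41, 42, 112, 113, 114, 115, 116, 117, 118, 119, 120, 121, 122, 128, 129, 130, 131, 132, 133, 134, 135, 136, 137, 138, 48, 49, 50, 55, 56, 51]) k) k) k) k) k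

/-- The digit 0 of the state with the top digits `h` and the digits 1 and 2 given by `m`. -/
def lt (k h m : ℕ) : ℕ :=
  Nat.mod (Nat.shiftRight DTT (Nat.mul 4 (Nat.mod (Nat.sub (Nat.add 1024 (Nat.mul 3 k))
    (Nat.add (fr h (ws (Nat.sub k 3))) (fr m (ws 2)))) 64))) 16

/-- The states with `k` ends and the top digits `h`. -/
def vr (k h : ℕ) : List ℕ :=
  List.rec [] (fun m _ ih => cond (Nat.ble (lt k h m) 10)
    (frL (Nat.add (lt k h m) (Nat.add (Nat.mul 4096 h) (Nat.mul 16 m))) (fun x => x :: ih)) ih) P2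

/-- The elements of `l` in the set number `g`. -/
def fl (get : ℕ → ℕ) (g : ℕ) (l : List ℕ) : List ℕ :=
  List.rec [] (fun x _ ih =>
    cond (Nat.beq (Nat.mod (Nat.shiftRight (get x) g) 2) 1) (x :: ih) ih) l

/-- Intersection of the masks `G x`. -/
def an (G : ℕ → ℕ) (FU : ℕ) (l : List ℕ) : ℕ := List.rec FU (fun x _ ih => Nat.land ih (G x)) l

/-- Intersection over all states in the set number `g` with the top digits in `L`. -/
def aL (G get : ℕ → ℕ) (FU k g : ℕ) (L : List ℕ) : ℕ :=
  List.rec FU (fun h _ ih => Nat.land ih (an G FU (fl get g (vr k h)))) L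

/-- Union over the targets `128 * g + τ`: set number `g`, permutation number `τ`. -/
def oT (R get : ℕ → ℕ) (FU k : ℕ) (L T : List ℕ) : ℕ :=
  List.rec 0 (fun t _ ih => Nat.lor ih (fr (Nat.mod t 128) (fun τ => fr (Nat.div t 128) (fun g =>
    aL (fun x => fr (ad k τ x) R) get FU k g L)))) T

/-- The masks for all permutations in `P`. -/
def cA (a NA : ℕ) (get : ℕ → ℕ) (P : List ℕ) (r : ℕ) : ℕ :=
  List.rec 0 (fun π _ ih => Nat.lor (Nat.shiftLeft ih NA) (fr (ad a π r) get)) P

/-- Spread the lowest `n` bits. -/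
def sp (S n m : ℕ) : ℕ := Nat.rec (fun _ => 0)
  (fun _ ih m => Nat.add (Nat.mod m 2) (Nat.shiftLeft (ih (Nat.div m 2)) S)) n m

/-- Entry of a list of lists. -/
def nL (l : List (List ℕ)) (n : ℕ) : List ℕ :=
  List.rec (fun _ => []) (fun h _ ih n => Nat.rec h (fun m _ => ih m) n) l n

/-- The values of a function. -/
def mp (f : ℕ → ℕ) (l : List ℕ) : List ℕ := List.rec [] (fun x _ ih => f x :: ih) l

/-- Scalar product of two lists. -/
def zf (l m : List ℕ) : ℕ :=
  List.rec (fun _ => 0) (fun x _ ih m =>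
    List.rec 0 (fun y m' _ => Nat.lor (ih m') (Nat.mul x y)) m) l m

/-- The masks of the first piece for the letters `X` at the free ends. -/
def rA (A : ℕ → ℕ) (s : ℕ) (I : List (List ℕ)) (X κ : ℕ) : List ℕ :=
  mp (fun i => fr (Nat.add X (Nat.mul i (Nat.pow 16 s))) A) (nL I κ)

/-- The masks of the second piece for the letters `Y` at the free ends. -/
def rB (B : ℕ → ℕ) (c : ℕ) (I : List (List ℕ)) (Y κ : ℕ) : List ℕ :=
  mp (fun i => fr (Nat.add (ng c i) (Nat.mul Y (Nat.pow 16 c))) B) (nL I κ)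

/-- The masks of the pairs of a set of the first piece and a set of the second piece whose gluing
contains the state `r`; `s` is the number of the free ends of the first piece. -/
def gl (s : ℕ) (RA RB : ℕ → ℕ → List ℕ) (r : ℕ) : ℕ :=
  fr (Nat.mod r (Nat.pow 16 s)) (fun X => fr (Nat.div r (Nat.pow 16 s)) (fun Y =>
    fr (Nat.mod (ws s X) 64) (fun κ => zf (RA X κ) (RB Y κ))))

/-- The check for one permutation of the ends of the second piece. -/
def ck (R get : ℕ → ℕ) (FU ND k : ℕ) (T : List ℕ) : Bool :=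
  Nat.beq (Nat.land (oT R get FU k (HL k) T) ND) ND

end Pool.Agent.TH505.HF
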