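import Pool.Agent.TH505.HF.Ins

/-! Gluing of 3 ends and 3 ends along 1 of them. -/

set_option autoImplicit false
set_option maxRecDepth 100000

namespace Pool.Agent.TH505.HF

open Pool.Agent.TH505.OW (PM fc pa pb)

/-- The permutations of the ends of the first piece. -/
def P331 : List ℕ := [0, 1, 3]

/-- The letters at the glued ends, by the weight of the letters at the free ends. -/
def I331 : List (List ℕ) := [
  [],
  [],
  [],
  [10],
  [9],
  [],
  [],
  [],
  [8],
  [7],
  [],
  [],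
  [],
  [],
  [],
  [],
  [],
  [],
  [],
  [],
  [],
  [],
  [],
  [],
  [],
  [],
  [],
  [],
  [],
  [],
  [],
  [],
  [],
  [],
  [],
  [6],
  [5],
  [4],
  [3],
  [2],
  [1],
  [0],
  [],
  [],
  [],
  [],
  [],
  [],
  [],
  [],
  [],
  [],
  [],
  [],
  [],
  [],
  [],
  [],
  [],
  [],
  [],
  [],
  [],
  []]

/-- Masks of the first piece. -/
def A331 (r : ℕ) : ℕ := cA 3 1 g3 P331 r

/-- Masks of the second piece. -/
def S331 (r : ℕ) : ℕ := sp 3 1 (g3 r)

/-- Lists of masks of the first piece. -/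
def X331 (X κ : ℕ) : List ℕ := rA A331 2 I331 X κ

/-- Lists of masks of the second piece. -/
def Y331 (ρ Y κ : ℕ) : List ℕ := rB (fun r => fr (ad 3 ρ r) S331) 1 I331 Y κ

/-- Masks of the union. -/
def R331 (ρ r : ℕ) : ℕ := gl 2 X331 (Y331 ρ) r

/-- The sets of the union that are used. -/
def T331 : List ℕ := [0]

/-- The pairs of sets that are considered. -/
def N331 : ℕ := 0x7

theorem c331 : alb [0, 2, 4]
    (fun ρ => ck (R331 ρ) g4 N331 N331 4 T331) = true := by decide +kernel

theorem tab331 : ∀ ρ ∈ [0, 2, 4], ∀ g2 ∈ [0],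
    TabN 3 3 1 4 1 7 g3 g3 g4 ρ g2 :=
  tabl_of 3 3 1 4 1 1 7 3 N331 N331 g3 g3 g4 P331 I331 [0, 2, 4] [0] T331
    R331 (by decide +kernel) (by decide +kernel) fam3 fam4 (fun _ => rfl) (by decide +kernel)
    (by decide +kernel) c331

end Pool.Agent.TH505.HF
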