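import Pool.Agent.TH505.HF.Ins

/-! Gluing of 4 ends and 3 ends along 1 of them. -/

set_option autoImplicit false
set_option maxRecDepth 100000

namespace Pool.Agent.TH505.HF

open Pool.Agent.TH505.OW (PM fc pa pb)

/-- The permutations of the ends of the first piece. -/
def P431 : List ℕ := [0, 1, 3, 9]

/-- The letters at the glued ends, by the weight of the letters at the free ends. -/
def I431 : List (List ℕ) := [
  [],
  [],
  [],
  [],
  [],
  [],
  [10],
  [9],
  [],
  [],
  [],
  [8],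
  [7],
  [],
  [],
  [],
  [],
  [],
  [],
  [],
  [],
  [],
  [],
  [],
  [],
  [],
  [],
  [],
  [],
  [],
  [],
  [],
  [],
  [],
  [],
  [],
  [],
  [],
  [6],
  [5],
  [4],
  [3],
  [2],
  [1],
  [0],
  [],
  [],
  [],
  [],
  [],
  [],
  [],
  [],
  [],
  [],
  [],
  [],
  [],
  [],
  [],
  [],
  [],
  [],
  []]

/-- Masks of the first piece. -/
def A431 (r : ℕ) : ℕ := cA 4 7 g4 P431 r

/-- Masks of the second piece. -/
def S431 (r : ℕ) : ℕ := sp 28 1 (g3 r)

/-- Lists of masks of the first piece. -/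
def X431 (X κ : ℕ) : List ℕ := rA A431 3 I431 X κ

/-- Lists of masks of the second piece. -/
def Y431 (ρ Y κ : ℕ) : List ℕ := rB (fun r => fr (ad 3 ρ r) S431) 1 I431 Y κ

/-- Masks of the union. -/
def R431 (ρ r : ℕ) : ℕ := gl 3 X431 (Y431 ρ) r

/-- The sets of the union that are used. -/
def T431 : List ℕ := [0, 90, 218, 219, 222, 512, 518, 560, 734, 1664, 1712, 1808, 2010, 2014, 2138, 4160]

/-- The pairs of sets that are considered. -/
def N431 : ℕ := 0xfffffff

theorem c431 : alb [0, 2, 4]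
    (fun ρ => ck (R431 ρ) g5 N431 N431 5 T431) = true := by decide +kernel

theorem tab431 : ∀ ρ ∈ [0, 2, 4], ∀ g2 ∈ [0],
    TabN 4 3 1 5 7 99 g4 g3 g5 ρ g2 :=
  tabl_of 4 3 1 5 7 1 99 28 N431 N431 g4 g3 g5 P431 I431 [0, 2, 4] [0] T431
    R431 (by decide +kernel) (by decide +kernel) fam4 fam5 (fun _ => rfl) (by decide +kernel)
    (by decide +kernel) c431

end Pool.Agent.TH505.HF
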