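import Pool.Agent.TH505.HF.Ins

/-! Gluing of 4 ends and 3 ends along 2 of them. -/

set_option autoImplicit false
set_option maxRecDepth 100000

namespace Pool.Agent.TH505.HF

open Pool.Agent.TH505.OW (PM fc pa pb)

/-- The permutations of the ends of the first piece. -/
def P432 : List ℕ := [0, 2, 4, 8, 10, 16]

/-- The letters at the glued ends, by the weight of the letters at the free ends. -/
def I432 : List (List ℕ) := [
  [102, 170],
  [86, 101, 154, 169],
  [70, 85, 100, 153],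
  [54, 69, 84, 99],
  [38, 53, 68, 83, 98],
  [22, 37, 52, 67, 82, 97, 138, 168],
  [6, 21, 36, 51, 66, 81, 96, 122, 137, 152, 167],
  [5, 20, 35, 50, 65, 80, 121, 151],
  [4, 19, 34, 49, 64],
  [3, 18, 33, 48],
  [2, 17, 32, 136],
  [1, 16, 120, 135],
  [0, 119],
  [],
  [],
  [],
  [],
  [],
  [],
  [],
  [],
  [],
  [],
  [],
  [],
  [],
  [],
  [],
  [],
  [],
  [],
  [],
  [106, 166],
  [90, 105, 150, 165],
  [74, 89, 149, 164],
  [58, 73, 148, 163],
  [42, 57, 147, 162],
  [26, 41, 104, 134, 146, 161],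
  [10, 25, 88, 103, 118, 133, 145, 160],
  [9, 72, 87, 117, 132, 144],
  [56, 71, 116, 131],
  [40, 55, 115, 130],
  [24, 39, 114, 129],
  [8, 23, 113, 128],
  [7, 112],
  [],
  [],
  [],
  [],
  [],
  [],
  [],
  [],
  [],
  [],
  [],
  [],
  [],
  [],
  [],
  [],
  [],
  [],
  []]

/-- Masks of the first piece. -/
def A432 (r : ℕ) : ℕ := cA 4 7 g4 P432 r

/-- Masks of the second piece. -/
def S432 (r : ℕ) : ℕ := sp 42 1 (g3 r)

/-- Lists of masks of the first piece. -/
def X432 (X κ : ℕ) : List ℕ := rA A432 2 I432 X κ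

/-- Lists of masks of the second piece. -/
def Y432 (ρ Y κ : ℕ) : List ℕ := rB (fun r => fr (ad 3 ρ r) S432) 2 I432 Y κ

/-- Masks of the union. -/
def R432 (ρ r : ℕ) : ℕ := gl 2 X432 (Y432 ρ) r

/-- The sets of the union that are used. -/
def T432 : List ℕ := [0]

/-- The pairs of sets that are considered. -/
def N432 : ℕ := 0x3ffffffffff

theorem c432 : alb [0, 1, 2, 3, 4, 5]
    (fun ρ => ck (R432 ρ) g3 N432 N432 3 T432) = true := by decide +kernel

theorem tab432 : ∀ ρ ∈ [0, 1, 2, 3, 4, 5], ∀ g2 ∈ [0],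
    TabN 4 3 2 3 7 1 g4 g3 g3 ρ g2 :=
  tabl_of 4 3 2 3 7 1 1 42 N432 N432 g4 g3 g3 P432 I432 [0, 1, 2, 3, 4, 5] [0] T432
    R432 (by decide +kernel) (by decide +kernel) fam4 fam3 (fun _ => rfl) (by decide +kernel)
    (by decide +kernel) c432

end Pool.Agent.TH505.HF
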