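import Pool.Agent.TH505.HF.D542

/-! Gluing of 5 ends and 4 ends along 2 of them. -/

set_option autoImplicit false
set_option maxRecDepth 100000

namespace Pool.Agent.TH505.HF

open Pool.Agent.TH505.OW (PM fc pa pb)

/-- The sets of the union that are used. -/
def T542a1 : List ℕ := [0, 48, 222, 512, 640, 768, 1024, 1152, 1536, 1664, 1681, 1704, 1729, 1792, 1822, 1840, 1920,
 1950, 1968, 2048, 2176, 2304, 2432, 2462, 2560, 2688, 4224, 4369, 4417, 4497, 4520, 4545, 4608,
 4638, 4702, 4753, 4776, 4801, 4864, 4992, 5120, 5296, 5504, 5680, 6656, 7424, 7472, 7552, 7617,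
 7808, 7936, 8001, 8064, 8320, 8448, 8704, 8832, 9088, 9344, 9361, 9472, 9600, 9728, 9984,
 10001, 10112, 10385, 10752, 10880, 11008, 11264, 11392, 11409, 11520, 11648, 11665, 11776,
 11904, 11921, 12032, 12049, 12160, 12433, 12544]

/-- The pairs of sets that are considered. -/
def N542a1 : ℕ := 0xfffffffffffffffffffffffffffffffffffffffffffffffffffffffffffffffffffffffffffffffffffffffffffffffffffffffffffffffffffffffffffffffffffffffffffffffffffffffffffffffffffffffffffffffffffffffffffffffffffffffffffffffffffffffffffffffffffffffffffffffffffffffffffffffffffffffffffffffffffffffffffffffffffffffffffffffffffffffffffffffffffffffffffffffffffffffffffffffffffffffffffffffffffffffffffffffffffffffffffffffffffffffffffffffffffffffffffffffffffffffffffffffffffffffffffffffffffffffffffffffffffffffffffffff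

theorem c542a1 : alb [0]
    (fun ρ => ck (R542u 3427 4 ρ) g5 N542a1 N542a1 5 T542a1) = true := by decide +kernel

theorem tab542a1 : ∀ ρ ∈ [0], ∀ g2 ∈ List.range 4,
    TabP P542u 5 4 2 5 99 99 g5 (B542 3427 4) g5 ρ g2 :=
  tabp_of P542u 5 4 2 5 99 4 99 495 N542a1 N542a1 g5 (B542 3427 4) g5 I542 [0]
    (List.range 4) T542a1 (R542u 3427 4) (by decide +kernel) fam5 fam5 (fun _ => rfl)
    (by decide +kernel) (by decide +kernel) c542a1

/-- The sets of the union that are used. -/
def T542a2 : List ℕ := [1, 2, 5, 13, 16, 18, 49, 90, 129, 133, 158, 177, 183, 218, 222, 257, 258, 260, 261, 268, 269,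
 274, 275, 346, 350, 385, 388, 389, 397, 402, 403, 513, 525, 530, 561, 576, 602, 730, 734, 897,
 951, 1281, 1284, 1285, 1298, 1299, 1409, 1412, 1413, 1426, 1665, 1677, 1808, 2010, 2138, 2142,
 2945, 2960, 3073, 3201, 3329, 3457, 3713, 3716, 3730, 3841, 3969, 3973, 4112, 5761, 5889, 6401,
 6529, 6785, 7041, 7169, 7681]

/-- The pairs of sets that are considered. -/
def N542a2 : ℕ := 0x1fffffffffffffffffffffffffffffffffffffffffffffffffffffffffffffffffffffffffffffffffffffffffffffffffffffffffffffffffffffffffffffffffffffffffffffffffffffffffffffffffffffffffffffffffffffffffffffffffffffffffffffffffffffffffffffffffffffffffffffffffffffffffffffffffffffffffffffffffffffffffffffffffffffffffffffffffffffffffffffffffffffffffffffffffffffffffffffffffffffffffffffffffff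

theorem c542a2 : alb [0]
    (fun ρ => ck (R542u 136 3 ρ) g5 N542a2 N542a2 5 T542a2) = true := by decide +kernel

theorem tab542a2 : ∀ ρ ∈ [0], ∀ g2 ∈ List.range 3,
    TabP P542u 5 4 2 5 99 99 g5 (B542 136 3) g5 ρ g2 :=
  tabp_of P542u 5 4 2 5 99 3 99 495 N542a2 N542a2 g5 (B542 136 3) g5 I542 [0]
    (List.range 3) T542a2 (R542u 136 3) (by decide +kernel) fam5 fam5 (fun _ => rfl)
    (by decide +kernel) (by decide +kernel) c542a2

end Pool.Agent.TH505.HF
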