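import Pool.Agent.TH505.HF.D542

/-! Gluing of 5 ends and 4 ends along 2 of them. -/

set_option autoImplicit false
set_option maxRecDepth 100000

namespace Pool.Agent.TH505.HF

open Pool.Agent.TH505.OW (PM fc pa pb)

/-- The sets of the union that are used. -/
def T542b1 : List ℕ := [0, 48, 90, 218, 219, 588, 730, 1680, 1704, 1728, 1792, 1808, 1822, 1840, 1920, 1950, 2010,
 2078, 2138, 2176, 2304, 2462, 2480, 2650, 2688, 2832, 4096, 4112, 4368, 4416, 4496, 4544, 4698,
 4752, 4800, 4864, 4954, 5022, 5082, 5120, 5150, 5210, 5248, 5264, 5392, 5520, 5648, 6672, 7424,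
 7440, 7568, 7898, 7936, 7952, 8000, 8064, 8080, 8128, 8320, 8592, 8720, 8832, 8976, 9104, 9360,
 9488, 9600, 9744, 9984, 10000, 10112, 10128, 10240, 10256, 10384, 10496, 10512, 10640, 10768,
 10896, 11152, 11408, 11520, 11648, 11664, 11776, 11904, 11920, 12048, 12432, 12560]

/-- The pairs of sets that are considered. -/
def N542b1 : ℕ := 0xfffffffffffffffffffffffffffffffffffffffffffffffffffffffffffffffffffffffffffffffffffffffffffffffffffffffffffffffffffffffffffffffffffffffffffffffffffffffffffffffffffffffffffffffffffffffffffffffffffffffffffffffffffffffffffffffffffffffffffffffffffffffffffffffffffffffffffffffffffffffffffffffffffffffffffffffffffffffffffffffffffffffffffffffffffffffffffffffffffffffffffffffffffffffffffffffffffffffffffffffffffffffffffffffffffffffffffffffffffffffffffffffffffffffffffffffffffffffffffffffffffffffffffffff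

theorem c542b1 : alb [0]
    (fun ρ => ck (R542v 3427 4 ρ) g5 N542b1 N542b1 5 T542b1) = true := by decide +kernel

theorem tab542b1 : ∀ ρ ∈ [0], ∀ g2 ∈ List.range 4,
    TabP P542v 5 4 2 5 99 99 g5 (B542 3427 4) g5 ρ g2 :=
  tabp_of P542v 5 4 2 5 99 4 99 495 N542b1 N542b1 g5 (B542 3427 4) g5 I542 [0]
    (List.range 4) T542b1 (R542v 3427 4) (by decide +kernel) fam5 fam5 (fun _ => rfl)
    (by decide +kernel) (by decide +kernel) c542b1

/-- The sets of the union that are used. -/
def T542b2 : List ℕ := [0, 22, 26, 72, 76, 93, 97, 114, 128, 150, 158, 159, 177, 204, 221, 242, 246, 256, 278, 282,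
 332, 349, 353, 356, 370, 406, 456, 480, 481, 484, 498, 512, 561, 605, 630, 754, 790, 882, 918,
 972, 996, 1010, 1302, 1377, 1380, 1394, 1430, 1505, 1508, 1522, 1664, 1736, 1761, 1814, 1868,
 1906, 2034, 2162, 2166, 2198, 2290, 2326, 2418, 2944, 2966, 3094, 3172, 3222, 3296, 3428, 3556,
 3681, 3734, 3862, 3990, 4064, 4065, 4068, 4082, 4118, 5782, 5910, 6514, 6550, 9316, 9700]

/-- The pairs of sets that are considered. -/
def N542b2 : ℕ := 0x1fffffffffffffffffffffffffffffffffffffffffffffffffffffffffffffffffffffffffffffffffffffffffffffffffffffffffffffffffffffffffffffffffffffffffffffffffffffffffffffffffffffffffffffffffffffffffffffffffffffffffffffffffffffffffffffffffffffffffffffffffffffffffffffffffffffffffffffffffffffffffffffffffffffffffffffffffffffffffffffffffffffffffffffffffffffffffffffffffffffffffffffffffff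

theorem c542b2 : alb [0]
    (fun ρ => ck (R542v 136 3 ρ) g5 N542b2 N542b2 5 T542b2) = true := by decide +kernel

theorem tab542b2 : ∀ ρ ∈ [0], ∀ g2 ∈ List.range 3,
    TabP P542v 5 4 2 5 99 99 g5 (B542 136 3) g5 ρ g2 :=
  tabp_of P542v 5 4 2 5 99 3 99 495 N542b2 N542b2 g5 (B542 136 3) g5 I542 [0]
    (List.range 3) T542b2 (R542v 136 3) (by decide +kernel) fam5 fam5 (fun _ => rfl)
    (by decide +kernel) (by decide +kernel) c542b2

end Pool.Agent.TH505.HF
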