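import Pool.Agent.TH505.HF.D542

/-! Gluing of 5 ends and 4 ends along 2 of them. -/

set_option autoImplicit false
set_option maxRecDepth 100000

namespace Pool.Agent.TH505.HF

open Pool.Agent.TH505.OW (PM fc pa pb)

/-- The sets of the union that are used. -/
def T542c1 : List ℕ := [0, 2, 12, 22, 49, 90, 106, 130, 140, 159, 177, 218, 222, 256, 258, 268, 269, 350, 384, 386,
 397, 455, 512, 514, 524, 561, 588, 618, 624, 640, 730, 734, 768, 896, 1024, 1152, 1183, 1292,
 1293, 1408, 1536, 1567, 1585, 1664, 1666, 1686, 1758, 1776, 1814, 2010, 2048, 2142, 2176, 2560,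
 2944, 3200, 3328, 4118, 4423, 4551, 4608, 4702, 4864, 4954, 5082, 6678, 7446, 7552, 7898, 8064,
 8135, 8320, 8704, 9088, 9110, 9216, 9344, 9366, 9472, 9728, 9878, 10262, 10752, 11008, 11264,
 11286, 11392, 11542, 11776, 11798, 11904, 12182, 12288, 12416]

/-- The pairs of sets that are considered. -/
def N542c1 : ℕ := 0x3ffffffffffffffffffffffffffffffffffffffffffffffffffffffffffffffffffffffffffffffffffffffffffffffffffffffffffffffffffffffffffffffffffffffffffffffffffffffffffffffffffffffffffffffffffffffffffffffffffffffffffffffffffffffffffffffffffffffffffffffffffffffffffffffffffffffffffffffffffffffffffffffffffffffffffffffffffffffffffffffffffffffffffffffffffffffffffffffffffffffffffffffffffffffffffffffffffffffffffffffffffffffffffffffffffffffffffffffffffffffffffffffffffffffffffffffffffffffffffffffffffffffffffffffffffffffffffffffffffffffffffffffffffffffffffffffffffffffffffffffffffffffffffffffffffffffffffffffffffffffffffffffffffffffffffffffffffffffffffffffffffffffffffffffffffffffffffffffffffffffffffffffffffffffffffffffffffffffffffffffffffffffffffffffffffffff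

theorem c542c1 : alb [2]
    (fun ρ => ck (R542u 219345 6 ρ) g5 N542c1 N542c1 5 T542c1) = true := by decide +kernel

theorem tab542c1 : ∀ ρ ∈ [2], ∀ g2 ∈ List.range 6,
    TabP P542u 5 4 2 5 99 99 g5 (B542 219345 6) g5 ρ g2 :=
  tabp_of P542u 5 4 2 5 99 6 99 495 N542c1 N542c1 g5 (B542 219345 6) g5 I542 [2]
    (List.range 6) T542c1 (R542u 219345 6) (by decide +kernel) fam5 fam5 (fun _ => rfl)
    (by decide +kernel) (by decide +kernel) c542c1

/-- The sets of the union that are used. -/
def T542c2 : List ℕ := [1, 4, 10, 36, 42, 55, 71, 76, 96, 100, 129, 134, 183, 222, 242, 257, 260, 311, 385, 388, 390,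
 439, 457, 480, 513, 537, 734, 754, 839, 897, 996, 1010, 1298, 1335, 1353, 1356, 1409, 1420,
 1433, 1481, 1484, 1665, 1793, 1808, 1921, 1975, 2034, 2142, 2162, 2305, 2433, 2689, 3088, 3096,
 3148, 3271, 3296, 3329, 3353, 3511, 3556, 3585, 3681, 3716, 3730, 3761, 4064, 4112, 4225, 4807,
 4993, 5121, 5687, 6913, 7041, 7169, 7297, 7705, 8007, 8449, 8833, 9292, 9601, 9676, 9985,
 10241, 10881, 11521, 11649, 12033, 12161, 12432, 12545]

/-- The pairs of sets that are considered. -/
def N542c2 : ℕ := 0x7fffffffffffffffffffffffffffffffffffffffffffffffffffffffffffffffffffffffffffffffffffffffffffffffffffffffffffffffffffffffffff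

theorem c542c2 : alb [2]
    (fun ρ => ck (R542u 0 1 ρ) g5 N542c2 N542c2 5 T542c2) = true := by decide +kernel

theorem tab542c2 : ∀ ρ ∈ [2], ∀ g2 ∈ List.range 1,
    TabP P542u 5 4 2 5 99 99 g5 (B542 0 1) g5 ρ g2 :=
  tabp_of P542u 5 4 2 5 99 1 99 495 N542c2 N542c2 g5 (B542 0 1) g5 I542 [2]
    (List.range 1) T542c2 (R542u 0 1) (by decide +kernel) fam5 fam5 (fun _ => rfl)
    (by decide +kernel) (by decide +kernel) c542c2

end Pool.Agent.TH505.HF
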