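import Pool.Agent.TH505.HF.D542

/-! Gluing of 5 ends and 4 ends along 2 of them. -/

set_option autoImplicit false
set_option maxRecDepth 100000

namespace Pool.Agent.TH505.HF

open Pool.Agent.TH505.OW (PM fc pa pb)

/-- The sets of the union that are used. -/
def T542d1 : List ℕ := [1, 16, 72, 89, 90, 93, 130, 144, 160, 182, 218, 221, 257, 272, 332, 345, 346, 400, 456, 460,
 474, 536, 584, 588, 594, 601, 656, 694, 730, 769, 784, 844, 858, 912, 972, 986, 1025, 1176,
 1206, 1356, 1498, 1537, 1590, 1665, 1680, 1736, 1753, 1754, 1808, 1864, 1882, 1936, 2010, 2138,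
 2192, 2252, 2266, 2320, 2380, 2394, 2576, 2650, 2832, 2960, 4112, 4186, 4609, 4662, 4698, 5082,
 5210, 5264, 5648, 6657, 6672, 7440, 7553, 7568, 7862, 7937, 8592, 8720, 8848, 9089, 9104, 9292,
 9345, 9360, 9488, 9676, 9872, 10000, 10128, 10256, 10896, 11062, 11265, 11280, 11393, 11536,
 11792, 12176, 12304, 12417]

/-- The pairs of sets that are considered. -/
def N542d1 : ℕ := 0x3ffffffffffffffffffffffffffffffffffffffffffffffffffffffffffffffffffffffffffffffffffffffffffffffffffffffffffffffffffffffffffffffffffffffffffffffffffffffffffffffffffffffffffffffffffffffffffffffffffffffffffffffffffffffffffffffffffffffffffffffffffffffffffffffffffffffffffffffffffffffffffffffffffffffffffffffffffffffffffffffffffffffffffffffffffffffffffffffffffffffffffffffffffffffffffffffffffffffffffffffffffffffffffffffffffffffffffffffffffffffffffffffffffffffffffffffffffffffffffffffffffffffffffffffffffffffffffffffffffffffffffffffffffffffffffffffffffffffffffffffffffffffffffffffffffffffffffffffffffffffffffffffffffffffffffffffffffffffffffffffffffffffffffffffffffffffffffffffffffffffffffffffffffffffffffffffffffffffffffffffffffffffffffffffffffffff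

theorem c542d1 : alb [2]
    (fun ρ => ck (R542v 219345 6 ρ) g5 N542d1 N542d1 5 T542d1) = true := by decide +kernel

theorem tab542d1 : ∀ ρ ∈ [2], ∀ g2 ∈ List.range 6,
    TabP P542v 5 4 2 5 99 99 g5 (B542 219345 6) g5 ρ g2 :=
  tabp_of P542v 5 4 2 5 99 6 99 495 N542d1 N542d1 g5 (B542 219345 6) g5 I542 [2]
    (List.range 6) T542d1 (R542v 219345 6) (by decide +kernel) fam5 fam5 (fun _ => rfl)
    (by decide +kernel) (by decide +kernel) c542d1

/-- The sets of the union that are used. -/
def T542d2 : List ℕ := [1, 8, 10, 22, 44, 62, 64, 70, 77, 91, 110, 129, 158, 219, 242, 257, 333, 384, 461, 475, 536,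
 556, 574, 731, 897, 973, 1243, 1280, 1302, 1356, 1425, 1438, 1499, 1627, 1665, 1744, 1774,
 1793, 1814, 1883, 1906, 1950, 2011, 2139, 2246, 2326, 2523, 2817, 2945, 3072, 3088, 3201, 3206,
 3217, 3405, 3638, 3712, 3729, 3734, 3840, 3968, 3990, 4045, 4097, 4118, 4246, 4353, 4481, 4737,
 5022, 5249, 5377, 5398, 5505, 5633, 5760, 5888, 5905, 6017, 6131, 6145, 6208, 6273, 6294, 6295,
 6342, 6343, 6401, 6491, 6514, 6529, 6550, 6785, 7425, 7681, 8193, 8306, 8307, 8577, 8833, 8961,
 8982, 9857, 10113, 10241, 10369, 10390, 10497, 10518, 10625, 10881, 11137, 11414, 11670, 11926,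
 12054, 12438]

/-- The pairs of sets that are considered. -/
def N542d2 : ℕ := 0x7fffffffffffffffffffffffffffffffffffffffffffffffffffffffffffffffffffffffffffffffffffffffffffffffffffffffffffffffffffffffffff

theorem c542d2 : alb [2]
    (fun ρ => ck (R542v 0 1 ρ) g5 N542d2 N542d2 5 T542d2) = true := by decide +kernel

theorem tab542d2 : ∀ ρ ∈ [2], ∀ g2 ∈ List.range 1,
    TabP P542v 5 4 2 5 99 99 g5 (B542 0 1) g5 ρ g2 :=
  tabp_of P542v 5 4 2 5 99 1 99 495 N542d2 N542d2 g5 (B542 0 1) g5 I542 [2]
    (List.range 1) T542d2 (R542v 0 1) (by decide +kernel) fam5 fam5 (fun _ => rfl)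
    (by decide +kernel) (by decide +kernel) c542d2

end Pool.Agent.TH505.HF
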