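import Pool.Agent.TH505.HF.D542

/-! Gluing of 5 ends and 4 ends along 2 of them. -/

set_option autoImplicit false
set_option maxRecDepth 100000

namespace Pool.Agent.TH505.HF

open Pool.Agent.TH505.OW (PM fc pa pb)

/-- The sets of the union that are used. -/
def T542f1 : List ℕ := [0, 8, 10, 16, 38, 64, 68, 70, 86, 101, 115, 128, 159, 218, 243, 256, 357, 385, 485, 499, 536,
 550, 580, 755, 896, 997, 1267, 1281, 1296, 1380, 1431, 1439, 1523, 1651, 1664, 1750, 1768,
 1792, 1808, 1882, 1907, 1951, 2035, 2163, 2240, 2320, 2547, 2816, 2944, 3073, 3094, 3200, 3207,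
 3223, 3429, 3639, 3713, 3728, 3735, 3841, 3969, 3984, 4069, 4096, 4112, 4240, 4352, 4480, 4736,
 5023, 5248, 5376, 5392, 5504, 5632, 5761, 5889, 5911, 6016, 6107, 6144, 6214, 6272, 6288, 6289,
 6336, 6337, 6400, 6490, 6515, 6528, 6544, 6784, 7424, 7680, 8192, 8282, 8283, 8576, 8832, 8960,
 8976, 9856, 10112, 10240, 10368, 10384, 10496, 10512, 10624, 10880, 11136, 11408, 11664, 11920,
 12048, 12432]

/-- The pairs of sets that are considered. -/
def N542f1 : ℕ := 0x7fffffffffffffffffffffffffffffffffffffffffffffffffffffffffffffffffffffffffffffffffffffffffffffffffffffffffffffffffffffffffff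

theorem c542f1 : alb [12]
    (fun ρ => ck (R542v 0 1 ρ) g5 N542f1 N542f1 5 T542f1) = true := by decide +kernel

theorem tab542f1 : ∀ ρ ∈ [12], ∀ g2 ∈ List.range 1,
    TabP P542v 5 4 2 5 99 99 g5 (B542 0 1) g5 ρ g2 :=
  tabp_of P542v 5 4 2 5 99 1 99 495 N542f1 N542f1 g5 (B542 0 1) g5 I542 [12]
    (List.range 1) T542f1 (R542v 0 1) (by decide +kernel) fam5 fam5 (fun _ => rfl)
    (by decide +kernel) (by decide +kernel) c542f1

/-- The sets of the union that are used. -/
def T542f2 : List ℕ := [0, 48, 512, 588, 640, 670, 688, 730, 768, 816, 1024, 1152, 1182, 1536, 1664, 1808, 1920, 2010,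
 2138, 2304, 2560, 2688, 4112, 4126, 4224, 4608, 4800, 4992, 5120, 5296, 5680, 6720, 7808, 8448,
 8704, 9216, 9344, 9472, 9984, 10240, 10752, 10880, 11264, 11392, 11520, 11648, 12032, 12160,
 12288, 12416]

/-- The pairs of sets that are considered. -/
def N542f2 : ℕ := 0x3fffffffffffffffffffffffffffffffffffffffffffffffffffffffffffffffffffffffffffffffffffffffffffffffffffffffffffffffffffffffffffffffffffffffffffffffffffffffffffffffffffffffffffffffffffffffffffffffffffffffffffffffffffffffffffffffffffffffffffffffffffffff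

theorem c542f2 : alb [22]
    (fun ρ => ck (R542u 52 2 ρ) g5 N542f2 N542f2 5 T542f2) = true := by decide +kernel

theorem tab542f2 : ∀ ρ ∈ [22], ∀ g2 ∈ List.range 2,
    TabP P542u 5 4 2 5 99 99 g5 (B542 52 2) g5 ρ g2 :=
  tabp_of P542u 5 4 2 5 99 2 99 495 N542f2 N542f2 g5 (B542 52 2) g5 I542 [22]
    (List.range 2) T542f2 (R542u 52 2) (by decide +kernel) fam5 fam5 (fun _ => rfl)
    (by decide +kernel) (by decide +kernel) c542f2

end Pool.Agent.TH505.HF
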