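import Pool.Agent.TH505.HF.D542

/-! Gluing of 5 ends and 4 ends along 2 of them. -/

set_option autoImplicit false
set_option maxRecDepth 100000

namespace Pool.Agent.TH505.HF

open Pool.Agent.TH505.OW (PM fc pa pb)

/-- The sets of the union that are used. -/
def T542g1 : List ℕ := [0, 3, 4, 12, 19, 22, 48, 114, 128, 131, 159, 176, 182, 222, 242, 256, 258, 259, 260, 261, 268,
 269, 274, 275, 370, 384, 386, 387, 396, 397, 403, 512, 524, 531, 560, 606, 626, 734, 754, 896,
 950, 1280, 1282, 1283, 1292, 1293, 1408, 1410, 1411, 1420, 1664, 1683, 1814, 2034, 2142, 2162,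
 2944, 2966, 3072, 3200, 3328, 3456, 3712, 3714, 3724, 3840, 3968, 3971, 4118, 5760, 5888, 6400,
 6528, 6784, 7040, 7168, 7680]

/-- The pairs of sets that are considered. -/
def N542g1 : ℕ := 0x3fffffffffffffffffffffffffffffffffffffffffffffffffffffffffffffffffffffffffffffffffffffffffffffffffffffffffffffffffffffffffffffffffffffffffffffffffffffffffffffffffffffffffffffffffffffffffffffffffffffffffffffffffffffffffffffffffffffffffffffffffffffff

theorem c542g1 : alb [22]
    (fun ρ => ck (R542u 17 2 ρ) g5 N542g1 N542g1 5 T542g1) = true := by decide +kernel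

theorem tab542g1 : ∀ ρ ∈ [22], ∀ g2 ∈ List.range 2,
    TabP P542u 5 4 2 5 99 99 g5 (B542 17 2) g5 ρ g2 :=
  tabp_of P542u 5 4 2 5 99 2 99 495 N542g1 N542g1 g5 (B542 17 2) g5 I542 [22]
    (List.range 2) T542g1 (R542u 17 2) (by decide +kernel) fam5 fam5 (fun _ => rfl)
    (by decide +kernel) (by decide +kernel) c542g1

/-- The sets of the union that are used. -/
def T542g2 : List ℕ := [0, 30, 48, 218, 588, 640, 670, 730, 798, 1182, 1792, 1808, 2010, 2138, 2590, 2832, 4096, 4112,
 4126, 4224, 4894, 5022, 5082, 5248, 5392, 5504, 5632, 5680, 6672, 7808, 8448, 8704, 8976, 9216,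
 9472, 9872, 10112, 10128, 10240, 10256, 10496, 10512, 10624, 10880, 11136, 11280, 11536, 11792,
 12032, 12160, 12176, 12288, 12416]

/-- The pairs of sets that are considered. -/
def N542g2 : ℕ := 0x3fffffffffffffffffffffffffffffffffffffffffffffffffffffffffffffffffffffffffffffffffffffffffffffffffffffffffffffffffffffffffffffffffffffffffffffffffffffffffffffffffffffffffffffffffffffffffffffffffffffffffffffffffffffffffffffffffffffffffffffffffffffff

theorem c542g2 : alb [22]
    (fun ρ => ck (R542v 52 2 ρ) g5 N542g2 N542g2 5 T542g2) = true := by decide +kernel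

theorem tab542g2 : ∀ ρ ∈ [22], ∀ g2 ∈ List.range 2,
    TabP P542v 5 4 2 5 99 99 g5 (B542 52 2) g5 ρ g2 :=
  tabp_of P542v 5 4 2 5 99 2 99 495 N542g2 N542g2 g5 (B542 52 2) g5 I542 [22]
    (List.range 2) T542g2 (R542v 52 2) (by decide +kernel) fam5 fam5 (fun _ => rfl)
    (by decide +kernel) (by decide +kernel) c542g2

end Pool.Agent.TH505.HF
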