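import Pool.Agent.TH505.HF.D542

/-! Gluing of 5 ends and 4 ends along 2 of them. -/

set_option autoImplicit false
set_option maxRecDepth 100000

namespace Pool.Agent.TH505.HF

open Pool.Agent.TH505.OW (PM fc pa pb)

/-- The sets of the union that are used. -/
def T542h1 : List ℕ := [2, 4, 6, 16, 25, 72, 90, 96, 100, 134, 144, 153, 158, 159, 218, 221, 224, 258, 262, 272, 328,
 329, 332, 346, 356, 400, 456, 457, 460, 474, 480, 537, 605, 608, 730, 784, 858, 912, 972, 986,
 996, 1296, 1353, 1356, 1370, 1424, 1481, 1484, 1498, 1670, 1736, 1760, 1808, 1882, 1892, 2010,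
 2138, 2192, 2266, 2320, 2394, 2950, 2960, 3088, 3148, 3216, 3272, 3404, 3532, 3657, 3728, 3856,
 3984, 4040, 4044, 4058, 4112, 5776, 5904, 6344, 6490, 6544, 9292, 9676]

/-- The pairs of sets that are considered. -/
def N542h1 : ℕ := 0x3fffffffffffffffffffffffffffffffffffffffffffffffffffffffffffffffffffffffffffffffffffffffffffffffffffffffffffffffffffffffffffffffffffffffffffffffffffffffffffffffffffffffffffffffffffffffffffffffffffffffffffffffffffffffffffffffffffffffffffffffffffffff

theorem c542h1 : alb [22]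
    (fun ρ => ck (R542v 17 2 ρ) g5 N542h1 N542h1 5 T542h1) = true := by decide +kernel

theorem tab542h1 : ∀ ρ ∈ [22], ∀ g2 ∈ List.range 2,
    TabP P542v 5 4 2 5 99 99 g5 (B542 17 2) g5 ρ g2 :=
  tabp_of P542v 5 4 2 5 99 2 99 495 N542h1 N542h1 g5 (B542 17 2) g5 I542 [22]
    (List.range 2) T542h1 (R542v 17 2) (by decide +kernel) fam5 fam5 (fun _ => rfl)
    (by decide +kernel) (by decide +kernel) c542h1

end Pool.Agent.TH505.HF
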