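import Pool.Agent.TH505.HF.D553

/-! Gluing of 5 ends and 5 ends along 3 of them. -/

set_option autoImplicit false
set_option maxRecDepth 100000

namespace Pool.Agent.TH505.HF

open Pool.Agent.TH505.OW (PM fc pa pb)

theorem c553_0 : alb [0, 2, 4, 6, 8]
    (fun ρ => ck (R553 ρ) g4 N553 N553 4 T553) = true := by decide +kernel

theorem tab553_0 : ∀ ρ ∈ [0, 2, 4, 6, 8], ∀ g2 ∈ List.range 30,
    TabN 5 5 3 4 30 7 gc gc g4 ρ g2 :=
  tabl_of 5 5 3 4 30 30 7 300 N553 N553 gc gc g4 P553 I553 [0, 2, 4, 6, 8]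
    (List.range 30) T553 R553 (by decide +kernel) (by decide +kernel) famc fam4 (fun _ => rfl)
    (by decide +kernel) (by decide +kernel) c553_0

theorem c553_1 : alb [10, 12, 14, 16, 18]
    (fun ρ => ck (R553 ρ) g4 N553 N553 4 T553) = true := by decide +kernel

theorem tab553_1 : ∀ ρ ∈ [10, 12, 14, 16, 18], ∀ g2 ∈ List.range 30,
    TabN 5 5 3 4 30 7 gc gc g4 ρ g2 :=
  tabl_of 5 5 3 4 30 30 7 300 N553 N553 gc gc g4 P553 I553 [10, 12, 14, 16, 18]
    (List.range 30) T553 R553 (by decide +kernel) (by decide +kernel) famc fam4 (fun _ => rfl)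
    (by decide +kernel) (by decide +kernel) c553_1

theorem c553_2 : alb [20, 22, 24, 26, 28]
    (fun ρ => ck (R553 ρ) g4 N553 N553 4 T553) = true := by decide +kernel

theorem tab553_2 : ∀ ρ ∈ [20, 22, 24, 26, 28], ∀ g2 ∈ List.range 30,
    TabN 5 5 3 4 30 7 gc gc g4 ρ g2 :=
  tabl_of 5 5 3 4 30 30 7 300 N553 N553 gc gc g4 P553 I553 [20, 22, 24, 26, 28]
    (List.range 30) T553 R553 (by decide +kernel) (by decide +kernel) famc fam4 (fun _ => rfl)
    (by decide +kernel) (by decide +kernel) c553_2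

end Pool.Agent.TH505.HF
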