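import Pool.Agent.TH505.HF.D553

/-! Gluing of 5 ends and 5 ends along 3 of them. -/

set_option autoImplicit false
set_option maxRecDepth 100000

namespace Pool.Agent.TH505.HF

open Pool.Agent.TH505.OW (PM fc pa pb)

theorem c553_3 : alb [30, 32, 34, 36, 38]
    (fun ρ => ck (R553 ρ) g4 N553 N553 4 T553) = true := by decide +kernel

theorem tab553_3 : ∀ ρ ∈ [30, 32, 34, 36, 38], ∀ g2 ∈ List.range 30,
    TabN 5 5 3 4 30 7 gc gc g4 ρ g2 :=
  tabl_of 5 5 3 4 30 30 7 300 N553 N553 gc gc g4 P553 I553 [30, 32, 34, 36, 38]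
    (List.range 30) T553 R553 (by decide +kernel) (by decide +kernel) famc fam4 (fun _ => rfl)
    (by decide +kernel) (by decide +kernel) c553_3

theorem c553_4 : alb [40, 42, 44, 46, 48]
    (fun ρ => ck (R553 ρ) g4 N553 N553 4 T553) = true := by decide +kernel

theorem tab553_4 : ∀ ρ ∈ [40, 42, 44, 46, 48], ∀ g2 ∈ List.range 30,
    TabN 5 5 3 4 30 7 gc gc g4 ρ g2 :=
  tabl_of 5 5 3 4 30 30 7 300 N553 N553 gc gc g4 P553 I553 [40, 42, 44, 46, 48]
    (List.range 30) T553 R553 (by decide +kernel) (by decide +kernel) famc fam4 (fun _ => rfl)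
    (by decide +kernel) (by decide +kernel) c553_4

theorem c553_5 : alb [50, 52, 54, 56, 58]
    (fun ρ => ck (R553 ρ) g4 N553 N553 4 T553) = true := by decide +kernel

theorem tab553_5 : ∀ ρ ∈ [50, 52, 54, 56, 58], ∀ g2 ∈ List.range 30,
    TabN 5 5 3 4 30 7 gc gc g4 ρ g2 :=
  tabl_of 5 5 3 4 30 30 7 300 N553 N553 gc gc g4 P553 I553 [50, 52, 54, 56, 58]
    (List.range 30) T553 R553 (by decide +kernel) (by decide +kernel) famc fam4 (fun _ => rfl)
    (by decide +kernel) (by decide +kernel) c553_5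

end Pool.Agent.TH505.HF
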