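import Pool.Agent.TH505.HF.D553

/-! Gluing of 5 ends and 5 ends along 3 of them. -/

set_option autoImplicit false
set_option maxRecDepth 100000

namespace Pool.Agent.TH505.HF

open Pool.Agent.TH505.OW (PM fc pa pb)

theorem c553_6 : alb [60, 62, 64, 66, 68]
    (fun ρ => ck (R553 ρ) g4 N553 N553 4 T553) = true := by decide +kernel

theorem tab553_6 : ∀ ρ ∈ [60, 62, 64, 66, 68], ∀ g2 ∈ List.range 30,
    TabN 5 5 3 4 30 7 gc gc g4 ρ g2 :=
  tabl_of 5 5 3 4 30 30 7 300 N553 N553 gc gc g4 P553 I553 [60, 62, 64, 66, 68]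
    (List.range 30) T553 R553 (by decide +kernel) (by decide +kernel) famc fam4 (fun _ => rfl)
    (by decide +kernel) (by decide +kernel) c553_6

theorem c553_7 : alb [70, 72, 74, 76, 78]
    (fun ρ => ck (R553 ρ) g4 N553 N553 4 T553) = true := by decide +kernel

theorem tab553_7 : ∀ ρ ∈ [70, 72, 74, 76, 78], ∀ g2 ∈ List.range 30,
    TabN 5 5 3 4 30 7 gc gc g4 ρ g2 :=
  tabl_of 5 5 3 4 30 30 7 300 N553 N553 gc gc g4 P553 I553 [70, 72, 74, 76, 78]
    (List.range 30) T553 R553 (by decide +kernel) (by decide +kernel) famc fam4 (fun _ => rfl)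
    (by decide +kernel) (by decide +kernel) c553_7

theorem c553_8 : alb [80, 82, 84, 86, 88]
    (fun ρ => ck (R553 ρ) g4 N553 N553 4 T553) = true := by decide +kernel

theorem tab553_8 : ∀ ρ ∈ [80, 82, 84, 86, 88], ∀ g2 ∈ List.range 30,
    TabN 5 5 3 4 30 7 gc gc g4 ρ g2 :=
  tabl_of 5 5 3 4 30 30 7 300 N553 N553 gc gc g4 P553 I553 [80, 82, 84, 86, 88]
    (List.range 30) T553 R553 (by decide +kernel) (by decide +kernel) famc fam4 (fun _ => rfl)
    (by decide +kernel) (by decide +kernel) c553_8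

end Pool.Agent.TH505.HF
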