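import Pool.Agent.TH505.HF.D553

/-! Gluing of 5 ends and 5 ends along 3 of them. -/

set_option autoImplicit false
set_option maxRecDepth 100000

namespace Pool.Agent.TH505.HF

open Pool.Agent.TH505.OW (PM fc pa pb)

theorem c553_9 : alb [90, 92, 94, 96, 98]
    (fun ρ => ck (R553 ρ) g4 N553 N553 4 T553) = true := by decide +kernel

theorem tab553_9 : ∀ ρ ∈ [90, 92, 94, 96, 98], ∀ g2 ∈ List.range 30,
    TabN 5 5 3 4 30 7 gc gc g4 ρ g2 :=
  tabl_of 5 5 3 4 30 30 7 300 N553 N553 gc gc g4 P553 I553 [90, 92, 94, 96, 98]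
    (List.range 30) T553 R553 (by decide +kernel) (by decide +kernel) famc fam4 (fun _ => rfl)
    (by decide +kernel) (by decide +kernel) c553_9

theorem c553_10 : alb [100, 102, 104, 106, 108]
    (fun ρ => ck (R553 ρ) g4 N553 N553 4 T553) = true := by decide +kernel

theorem tab553_10 : ∀ ρ ∈ [100, 102, 104, 106, 108], ∀ g2 ∈ List.range 30,
    TabN 5 5 3 4 30 7 gc gc g4 ρ g2 :=
  tabl_of 5 5 3 4 30 30 7 300 N553 N553 gc gc g4 P553 I553 [100, 102, 104, 106, 108]
    (List.range 30) T553 R553 (by decide +kernel) (by decide +kernel) famc fam4 (fun _ => rfl)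
    (by decide +kernel) (by decide +kernel) c553_10

theorem c553_11 : alb [110, 112, 114, 116, 118]
    (fun ρ => ck (R553 ρ) g4 N553 N553 4 T553) = true := by decide +kernel

theorem tab553_11 : ∀ ρ ∈ [110, 112, 114, 116, 118], ∀ g2 ∈ List.range 30,
    TabN 5 5 3 4 30 7 gc gc g4 ρ g2 :=
  tabl_of 5 5 3 4 30 30 7 300 N553 N553 gc gc g4 P553 I553 [110, 112, 114, 116, 118]
    (List.range 30) T553 R553 (by decide +kernel) (by decide +kernel) famc fam4 (fun _ => rfl)
    (by decide +kernel) (by decide +kernel) c553_11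

end Pool.Agent.TH505.HF
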