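import Pool.Agent.TH505.HF.Tof
import Pool.Agent.TH505.HF.Tab

/-! The families of sets of states. -/

set_option autoImplicit false
set_option maxRecDepth 100000

namespace Pool.Agent.TH505.HF

/-- Rows for three ends. -/
def w3 (t : ℕ) : ℕ := nt T3 t

/-- Rows for four ends. -/
def w4 (t : ℕ) : ℕ := nt T4 t

/-- Rows for five ends. -/
def w5 (t : ℕ) : ℕ := nt T5 t

/-- Rows for five ends, second family. -/
def wc (t : ℕ) : ℕ := nt TC t

/-- The family for three ends. -/
def g3 (r : ℕ) : ℕ := gt 3 1 2 w3 r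

/-- The family for four ends. -/
def g4 (r : ℕ) : ℕ := gt 4 7 128 w4 r

/-- The family for five ends. -/
def g5 (r : ℕ) : ℕ := gt 5 99 633825300114114700748351602688 w5 r

/-- The second family for five ends. -/
def gc (r : ℕ) : ℕ := gt 5 30 1073741824 wc r

theorem fam3 : Fam 3 1 g3 := fam_of 3 1 (by norm_num) (by norm_num) T3 g3
  (fun r => by rw [show (2 : ℕ) ^ 1 = 2 by norm_num]; rfl) (Or.inl (by decide +kernel))
  (by decide +kernel)

theorem fam4 : Fam 4 7 g4 := fam_of 4 7 (by norm_num) (by norm_num) T4 g4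
  (fun r => by rw [show (2 : ℕ) ^ 7 = 128 by norm_num]; rfl) (Or.inl (by decide +kernel))
  (by decide +kernel)

theorem fam5 : Fam 5 99 g5 := fam_of 5 99 (by norm_num) (by norm_num) T5 g5
  (fun r => by rw [show (2 : ℕ) ^ 99 = 633825300114114700748351602688 by norm_num]; rfl)
  (Or.inl (by decide +kernel)) (by decide +kernel)

theorem famc : Fam 5 30 gc := fam_of 5 30 (by norm_num) (by norm_num) TC gc
  (fun r => by rw [show (2 : ℕ) ^ 30 = 1073741824 by norm_num]; rfl)
  (Or.inl (by decide +kernel)) (by decide +kernel)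

end Pool.Agent.TH505.HF
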