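import Pool.Agent.TH505.HF.Tof2
import Pool.Agent.TH505.HF.Ins

/-! Gluing of 5 ends and 4 ends along 2 of them: data. -/

set_option autoImplicit false
set_option maxRecDepth 100000

namespace Pool.Agent.TH505.HF

open Pool.Agent.TH505.OW (PM fc pa pb)

/-- The first half of the permutations of the ends of the first piece. -/
def P542u : List ℕ := [0, 2, 4, 8, 10]

/-- The second half of the permutations of the ends of the first piece. -/
def P542v : List ℕ := [16, 32, 34, 40, 64]

/-- The letters at the glued ends, by the weight of the letters at the free ends. -/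
def I542 : List (List ℕ) := [
  [],
  [],
  [],
  [102, 170],
  [86, 101, 154, 169],
  [70, 85, 100, 153],
  [54, 69, 84, 99],
  [38, 53, 68, 83, 98],
  [22, 37, 52, 67, 82, 97, 138, 168],
  [6, 21, 36, 51, 66, 81, 96, 122, 137, 152, 167],
  [5, 20, 35, 50, 65, 80, 121, 151],
  [4, 19, 34, 49, 64],
  [3, 18, 33, 48],
  [2, 17, 32, 136],
  [1, 16, 120, 135],
  [0, 119],
  [],
  [],
  [],
  [],
  [],
  [],
  [],
  [],
  [],
  [],
  [],
  [],
  [],
  [],
  [],
  [],
  [],
  [],
  [],
  [106, 166],
  [90, 105, 150, 165],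
  [74, 89, 149, 164],
  [58, 73, 148, 163],
  [42, 57, 147, 162],
  [26, 41, 104, 134, 146, 161],
  [10, 25, 88, 103, 118, 133, 145, 160],
  [9, 72, 87, 117, 132, 144],
  [56, 71, 116, 131],
  [40, 55, 115, 130],
  [24, 39, 114, 129],
  [8, 23, 113, 128],
  [7, 112],
  [],
  [],
  [],
  [],
  [],
  [],
  [],
  [],
  [],
  [],
  [],
  [],
  [],
  [],
  [],
  []]

/-- Masks of the first piece. -/
def A542u (r : ℕ) : ℕ := cA 5 99 g5 P542u r

/-- Masks of the first piece. -/
def A542v (r : ℕ) : ℕ := cA 5 99 g5 P542v r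

/-- Lists of masks of the first piece. -/
def X542u (X κ : ℕ) : List ℕ := rA A542u 3 I542 X κ

/-- Lists of masks of the first piece. -/
def X542v (X κ : ℕ) : List ℕ := rA A542v 3 I542 X κ

/-- The chosen sets of the second family. -/
def B542 (s n r : ℕ) : ℕ := fr (g4 r) (sb s n)

/-- Masks of the second piece. -/
def S542 (s n r : ℕ) : ℕ := sp 495 n (B542 s n r)

/-- Lists of masks of the second piece. -/
def Y542 (s n ρ Y κ : ℕ) : List ℕ := rB (fun r => fr (ad 4 ρ r) (S542 s n)) 2 I542 Y κ

/-- Masks of the union. -/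
def R542u (s n ρ r : ℕ) : ℕ := gl 3 X542u (Y542 s n ρ) r

/-- Masks of the union. -/
def R542v (s n ρ r : ℕ) : ℕ := gl 3 X542v (Y542 s n ρ) r

end Pool.Agent.TH505.HF
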