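import Pool.Agent.TH505.HF.C542a
import Pool.Agent.TH505.HF.C542b
import Pool.Agent.TH505.HF.C542c
import Pool.Agent.TH505.HF.C542d
import Pool.Agent.TH505.HF.C542e
import Pool.Agent.TH505.HF.C542f
import Pool.Agent.TH505.HF.C542g
import Pool.Agent.TH505.HF.C542h

/-! Gluing of 5 ends and 4 ends along 2 of them: all cases. -/

set_option autoImplicit false
set_option maxRecDepth 100000

namespace Pool.Agent.TH505.HF

open Pool.Agent.TH505.OW (PM fc pa pb)

/-- The cases that were checked. -/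
def DL542 : List (ℕ × ℕ) := [(0, 0), (0, 1), (0, 2), (0, 3), (0, 4), (0, 5), (0, 6), (2, 0), (2, 1), (2, 2), (2, 3), (2, 4), (2, 5), (2, 6), (12, 0), (12, 3), (12, 4), (12, 5), (12, 6), (22, 1), (22, 2), (22, 4), (22, 6)]

/-- How the other cases are reduced to them. -/
def E542 : List ℕ := [0, 8224, 16448, 24672, 32896, 41120, 49344, 514, 8738, 16962, 25186, 33410, 41634, 49858,
 66052, 603684, 611908, 90724, 98948, 107172, 115396, 393222, 1062438, 1070662, 417894, 426118,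
 434342, 442566, 393736, 341544, 349768, 418408, 426632, 434856, 443080, 459274, 467498, 475722,
 483946, 492170, 500394, 508618, 3084, 926252, 934476, 27756, 35980, 44204, 52428, 396302,
 925742, 933966, 420974, 429198, 437422, 445646, 1048592, 1056816, 1065040, 1073264, 104080,
 1089712, 120528, 68626, 1187890, 1196114, 93298, 101522, 109746, 117970, 461844, 1188404,
 1196628, 486516, 494740, 502964, 511188, 1441814, 13878, 22102, 1466486, 38550, 1482934, 54998]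

/-- The condition for one entry of the list. -/
def okE (e : ℕ) : Bool :=
  DL542.contains (e / 256 % 32, e / 8192 % 8) && Nat.ble (e % 32 + 1) 24 &&
  Nat.ble (e / 256 % 32 + 1) 24 && Nat.ble (e / 65536 + 1) 24 &&
  ((List.range 4).all fun i => Nat.beq (PM 4 (e / 65536) (PM 4 (e / 256 % 32) i))
    (PM 4 (e % 32) i)) &&
  Nat.beq (Nat.mod (Nat.shiftRight (aL (fun y => fr (ad 4 (e / 65536) y) g4) g4 127 4 (e / 8192 % 8)
    (HL 4)) (e / 32 % 8)) 2) 1

theorem okE_all : E542.all okE = true := by decide +kernel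

theorem cov542 : ((pb 4 2).all fun ρ => (List.range 7).all fun g => E542.any fun e =>
    Nat.beq (e % 32) ρ && Nat.beq (e / 32 % 8) g) = true := by decide +kernel

theorem pa542 : pa 5 2 = P542u ++ P542v := by decide +kernel

theorem done542 : ∀ p ∈ DL542, TabN 5 4 2 5 99 99 g5 g4 g5 p.1 p.2 := by
  intro p hp
  unfold DL542 at hp
  simp only [List.mem_cons, List.not_mem_nil, or_false] at hp
  rcases hp with rfl | rfl | rfl | rfl | rfl | rfl | rfl | rfl | rfl | rfl | rfl | rfl | rfl | rfl | rfl | rfl | rfl | rfl | rfl | rfl | rfl | rfl | rfl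
  · exact tabn_two P542u P542v 5 4 2 5 99 99 g5 g4 g5 0 0 pa542
      (tabp_sel P542u 5 4 2 5 99 99 136 3 g5 g4 g5 0 0 0 (by norm_num)
        (tab542a2 0 (by simp) 0 (by simp)))
      (tabp_sel P542v 5 4 2 5 99 99 136 3 g5 g4 g5 0 0 0 (by norm_num)
        (tab542b2 0 (by simp) 0 (by simp)))
  · exact tabn_two P542u P542v 5 4 2 5 99 99 g5 g4 g5 0 1 pa542
      (tabp_sel P542u 5 4 2 5 99 99 136 3 g5 g4 g5 0 1 1 (by norm_num)
        (tab542a2 0 (by simp) 1 (by simp)))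
      (tabp_sel P542v 5 4 2 5 99 99 136 3 g5 g4 g5 0 1 1 (by norm_num)
        (tab542b2 0 (by simp) 1 (by simp)))
  · exact tabn_two P542u P542v 5 4 2 5 99 99 g5 g4 g5 0 2 pa542
      (tabp_sel P542u 5 4 2 5 99 99 136 3 g5 g4 g5 0 2 2 (by norm_num)
        (tab542a2 0 (by simp) 2 (by simp)))
      (tabp_sel P542v 5 4 2 5 99 99 136 3 g5 g4 g5 0 2 2 (by norm_num)
        (tab542b2 0 (by simp) 2 (by simp)))
  · exact tabn_two P542u P542v 5 4 2 5 99 99 g5 g4 g5 0 3 pa542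
      (tabp_sel P542u 5 4 2 5 99 99 3427 4 g5 g4 g5 0 0 3 (by norm_num)
        (tab542a1 0 (by simp) 0 (by simp)))
      (tabp_sel P542v 5 4 2 5 99 99 3427 4 g5 g4 g5 0 0 3 (by norm_num)
        (tab542b1 0 (by simp) 0 (by simp)))
  · exact tabn_two P542u P542v 5 4 2 5 99 99 g5 g4 g5 0 4 pa542
      (tabp_sel P542u 5 4 2 5 99 99 3427 4 g5 g4 g5 0 1 4 (by norm_num)
        (tab542a1 0 (by simp) 1 (by simp)))
      (tabp_sel P542v 5 4 2 5 99 99 3427 4 g5 g4 g5 0 1 4 (by norm_num)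
        (tab542b1 0 (by simp) 1 (by simp)))
  · exact tabn_two P542u P542v 5 4 2 5 99 99 g5 g4 g5 0 5 pa542
      (tabp_sel P542u 5 4 2 5 99 99 3427 4 g5 g4 g5 0 2 5 (by norm_num)
        (tab542a1 0 (by simp) 2 (by simp)))
      (tabp_sel P542v 5 4 2 5 99 99 3427 4 g5 g4 g5 0 2 5 (by norm_num)
        (tab542b1 0 (by simp) 2 (by simp)))
  · exact tabn_two P542u P542v 5 4 2 5 99 99 g5 g4 g5 0 6 pa542
      (tabp_sel P542u 5 4 2 5 99 99 3427 4 g5 g4 g5 0 3 6 (by norm_num)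
        (tab542a1 0 (by simp) 3 (by simp)))
      (tabp_sel P542v 5 4 2 5 99 99 3427 4 g5 g4 g5 0 3 6 (by norm_num)
        (tab542b1 0 (by simp) 3 (by simp)))
  · exact tabn_two P542u P542v 5 4 2 5 99 99 g5 g4 g5 2 0 pa542
      (tabp_sel P542u 5 4 2 5 99 99 0 1 g5 g4 g5 2 0 0 (by norm_num)
        (tab542c2 2 (by simp) 0 (by simp)))
      (tabp_sel P542v 5 4 2 5 99 99 0 1 g5 g4 g5 2 0 0 (by norm_num)
        (tab542d2 2 (by simp) 0 (by simp)))
  · exact tabn_two P542u P542v 5 4 2 5 99 99 g5 g4 g5 2 1 pa542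
      (tabp_sel P542u 5 4 2 5 99 99 219345 6 g5 g4 g5 2 0 1 (by norm_num)
        (tab542c1 2 (by simp) 0 (by simp)))
      (tabp_sel P542v 5 4 2 5 99 99 219345 6 g5 g4 g5 2 0 1 (by norm_num)
        (tab542d1 2 (by simp) 0 (by simp)))
  · exact tabn_two P542u P542v 5 4 2 5 99 99 g5 g4 g5 2 2 pa542
      (tabp_sel P542u 5 4 2 5 99 99 219345 6 g5 g4 g5 2 1 2 (by norm_num)
        (tab542c1 2 (by simp) 1 (by simp)))
      (tabp_sel P542v 5 4 2 5 99 99 219345 6 g5 g4 g5 2 1 2 (by norm_num)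
        (tab542d1 2 (by simp) 1 (by simp)))
  · exact tabn_two P542u P542v 5 4 2 5 99 99 g5 g4 g5 2 3 pa542
      (tabp_sel P542u 5 4 2 5 99 99 219345 6 g5 g4 g5 2 2 3 (by norm_num)
        (tab542c1 2 (by simp) 2 (by simp)))
      (tabp_sel P542v 5 4 2 5 99 99 219345 6 g5 g4 g5 2 2 3 (by norm_num)
        (tab542d1 2 (by simp) 2 (by simp)))
  · exact tabn_two P542u P542v 5 4 2 5 99 99 g5 g4 g5 2 4 pa542
      (tabp_sel P542u 5 4 2 5 99 99 219345 6 g5 g4 g5 2 3 4 (by norm_num)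
        (tab542c1 2 (by simp) 3 (by simp)))
      (tabp_sel P542v 5 4 2 5 99 99 219345 6 g5 g4 g5 2 3 4 (by norm_num)
        (tab542d1 2 (by simp) 3 (by simp)))
  · exact tabn_two P542u P542v 5 4 2 5 99 99 g5 g4 g5 2 5 pa542
      (tabp_sel P542u 5 4 2 5 99 99 219345 6 g5 g4 g5 2 4 5 (by norm_num)
        (tab542c1 2 (by simp) 4 (by simp)))
      (tabp_sel P542v 5 4 2 5 99 99 219345 6 g5 g4 g5 2 4 5 (by norm_num)
        (tab542d1 2 (by simp) 4 (by simp)))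
  · exact tabn_two P542u P542v 5 4 2 5 99 99 g5 g4 g5 2 6 pa542
      (tabp_sel P542u 5 4 2 5 99 99 219345 6 g5 g4 g5 2 5 6 (by norm_num)
        (tab542c1 2 (by simp) 5 (by simp)))
      (tabp_sel P542v 5 4 2 5 99 99 219345 6 g5 g4 g5 2 5 6 (by norm_num)
        (tab542d1 2 (by simp) 5 (by simp)))
  · exact tabn_two P542u P542v 5 4 2 5 99 99 g5 g4 g5 12 0 pa542
      (tabp_sel P542u 5 4 2 5 99 99 0 1 g5 g4 g5 12 0 0 (by norm_num)
        (tab542e2 12 (by simp) 0 (by simp)))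
      (tabp_sel P542v 5 4 2 5 99 99 0 1 g5 g4 g5 12 0 0 (by norm_num)
        (tab542f1 12 (by simp) 0 (by simp)))
  · exact tabn_two P542u P542v 5 4 2 5 99 99 g5 g4 g5 12 3 pa542
      (tabp_sel P542u 5 4 2 5 99 99 3427 4 g5 g4 g5 12 0 3 (by norm_num)
        (tab542e1 12 (by simp) 0 (by simp)))
      (tabp_sel P542v 5 4 2 5 99 99 3427 4 g5 g4 g5 12 0 3 (by norm_num)
        (tab542e3 12 (by simp) 0 (by simp)))
  · exact tabn_two P542u P542v 5 4 2 5 99 99 g5 g4 g5 12 4 pa542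
      (tabp_sel P542u 5 4 2 5 99 99 3427 4 g5 g4 g5 12 1 4 (by norm_num)
        (tab542e1 12 (by simp) 1 (by simp)))
      (tabp_sel P542v 5 4 2 5 99 99 3427 4 g5 g4 g5 12 1 4 (by norm_num)
        (tab542e3 12 (by simp) 1 (by simp)))
  · exact tabn_two P542u P542v 5 4 2 5 99 99 g5 g4 g5 12 5 pa542
      (tabp_sel P542u 5 4 2 5 99 99 3427 4 g5 g4 g5 12 2 5 (by norm_num)
        (tab542e1 12 (by simp) 2 (by simp)))
      (tabp_sel P542v 5 4 2 5 99 99 3427 4 g5 g4 g5 12 2 5 (by norm_num)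
        (tab542e3 12 (by simp) 2 (by simp)))
  · exact tabn_two P542u P542v 5 4 2 5 99 99 g5 g4 g5 12 6 pa542
      (tabp_sel P542u 5 4 2 5 99 99 3427 4 g5 g4 g5 12 3 6 (by norm_num)
        (tab542e1 12 (by simp) 3 (by simp)))
      (tabp_sel P542v 5 4 2 5 99 99 3427 4 g5 g4 g5 12 3 6 (by norm_num)
        (tab542e3 12 (by simp) 3 (by simp)))
  · exact tabn_two P542u P542v 5 4 2 5 99 99 g5 g4 g5 22 1 pa542
      (tabp_sel P542u 5 4 2 5 99 99 17 2 g5 g4 g5 22 0 1 (by norm_num)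
        (tab542g1 22 (by simp) 0 (by simp)))
      (tabp_sel P542v 5 4 2 5 99 99 17 2 g5 g4 g5 22 0 1 (by norm_num)
        (tab542h1 22 (by simp) 0 (by simp)))
  · exact tabn_two P542u P542v 5 4 2 5 99 99 g5 g4 g5 22 2 pa542
      (tabp_sel P542u 5 4 2 5 99 99 17 2 g5 g4 g5 22 1 2 (by norm_num)
        (tab542g1 22 (by simp) 1 (by simp)))
      (tabp_sel P542v 5 4 2 5 99 99 17 2 g5 g4 g5 22 1 2 (by norm_num)
        (tab542h1 22 (by simp) 1 (by simp)))
  · exact tabn_two P542u P542v 5 4 2 5 99 99 g5 g4 g5 22 4 pa542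
      (tabp_sel P542u 5 4 2 5 99 99 52 2 g5 g4 g5 22 0 4 (by norm_num)
        (tab542f2 22 (by simp) 0 (by simp)))
      (tabp_sel P542v 5 4 2 5 99 99 52 2 g5 g4 g5 22 0 4 (by norm_num)
        (tab542g2 22 (by simp) 0 (by simp)))
  · exact tabn_two P542u P542v 5 4 2 5 99 99 g5 g4 g5 22 6 pa542
      (tabp_sel P542u 5 4 2 5 99 99 52 2 g5 g4 g5 22 1 6 (by norm_num)
        (tab542f2 22 (by simp) 1 (by simp)))
      (tabp_sel P542v 5 4 2 5 99 99 52 2 g5 g4 g5 22 1 6 (by norm_num)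
        (tab542g2 22 (by simp) 1 (by simp)))

theorem bit_of (m g : ℕ) (h : Nat.beq (Nat.mod (Nat.shiftRight m g) 2) 1 = true) :
    m.testBit g = true := by
  have h1 : (m >>> g) % 2 = 1 := Nat.eq_of_beq_eq_true h
  rw [Nat.testBit_eq_decide_div_mod_eq, decide_eq_true_iff, ← Nat.shiftRight_eq_div_pow]
  exact h1

theorem okE_facts (e : ℕ) (h : okE e = true) : (e / 256 % 32, e / 8192 % 8) ∈ DL542 ∧
    e % 32 < fc 4 ∧ e / 256 % 32 < fc 4 ∧ e / 65536 < fc 4 ∧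
    (∀ i < 4, PM 4 (e / 65536) (PM 4 (e / 256 % 32) i) = PM 4 (e % 32) i) ∧
    (aL (fun y => fr (ad 4 (e / 65536) y) g4) g4 127 4 (e / 8192 % 8)
    (HL 4)).testBit (e / 32 % 8) = true := by
  unfold okE at h
  obtain ⟨h, h9⟩ := (Bool.and_eq_true _ _).mp h
  obtain ⟨h, h8⟩ := (Bool.and_eq_true _ _).mp h
  obtain ⟨h, h7⟩ := (Bool.and_eq_true _ _).mp h
  obtain ⟨h, h6⟩ := (Bool.and_eq_true _ _).mp h
  obtain ⟨h, h5⟩ := (Bool.and_eq_true _ _).mp h
  rw [Nat.ble_eq] at h5 h6 h7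
  have hf : fc 4 = 24 := rfl
  rw [hf]
  refine ⟨by simpa using h, by omega, by omega, by omega, fun i hi => ?_, bit_of _ _ h9⟩
  exact Nat.eq_of_beq_eq_true ((List.all_eq_true.1 h8) i (List.mem_range.2 hi))

theorem tab542 : TabOK 5 4 2 5 99 7 99 g5 g4 g5 := by
  intro ρ' hρ' g2 hg2
  have h1 := (List.all_eq_true.1 ((List.all_eq_true.1 cov542) ρ' hρ')) g2 (List.mem_range.2 hg2)
  obtain ⟨e, he, h2⟩ := List.any_eq_true.1 h1
  rw [Bool.and_eq_true, Nat.beq_eq, Nat.beq_eq] at h2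
  obtain ⟨h4, h5, h6, h7, h8, h9⟩ := okE_facts e ((List.all_eq_true.1 okE_all) e he)
  rw [h2.1] at h5 h8
  rw [h2.2] at h9
  have h11 := done542 _ h4
  clear h1 h2 he
  generalize e / 256 % 32 = ρ at *
  generalize e / 8192 % 8 = g2' at *
  generalize e / 65536 = κ at *
  refine tabn_move 5 4 2 5 99 99 g5 g4 g5 (by norm_num) (by norm_num) ρ κ
    ρ' g2 g2' h6 h7 h5 h8 ?_ h11
  refine sub_of 4 7 7 g4 g4 fam4 fam4 _ h7 _ _ ?_
  intro h hh x hx hb
  have h10 : (fr (ad 4 κ x) g4).testBit g2 = true := aL_bit _ _ _ _ _ _ _ h9 h hh x hx hb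
  rw [fr_eq] at h10
  exact h10

end Pool.Agent.TH505.HF
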