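import Pool.Agent.TH505.HF.C553a
import Pool.Agent.TH505.HF.C553b
import Pool.Agent.TH505.HF.C553c
import Pool.Agent.TH505.HF.C553d

/-! Gluing of 5 ends and 5 ends along 3 of them: all cases. -/

set_option autoImplicit false
set_option maxRecDepth 100000

namespace Pool.Agent.TH505.HF

open Pool.Agent.TH505.OW (PM fc pa pb)

/-- The permutations of the ends of the second piece. -/
def PBL553 : List ℕ :=
  [0, 2, 4, 6, 8] ++ ([10, 12, 14, 16, 18] ++ ([20, 22, 24, 26, 28] ++ ([30, 32, 34, 36, 38] ++ ([40, 42, 44, 46, 48] ++ ([50, 52, 54, 56, 58] ++ ([60, 62, 64, 66, 68] ++ ([70, 72, 74, 76, 78] ++ ([80, 82, 84, 86, 88] ++ ([90, 92, 94, 96, 98] ++ ([100, 102, 104, 106, 108] ++ ([110, 112, 114, 116, 118])))))))))))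

theorem ok553 : TabOK 5 5 3 4 30 30 7 gc gc g4 := by
  intro ρ hρ g2 hg2
  have hP : pb 5 3 = PBL553 := by decide +kernel
  rw [hP] at hρ
  have hg := List.mem_range.2 hg2
  unfold PBL553 at hρ
  rcases List.mem_append.1 hρ with hρ | hρ
  · exact tab553_0 ρ hρ g2 hg
  rcases List.mem_append.1 hρ with hρ | hρ
  · exact tab553_1 ρ hρ g2 hg
  rcases List.mem_append.1 hρ with hρ | hρ
  · exact tab553_2 ρ hρ g2 hg
  rcases List.mem_append.1 hρ with hρ | hρ
  · exact tab553_3 ρ hρ g2 hg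
  rcases List.mem_append.1 hρ with hρ | hρ
  · exact tab553_4 ρ hρ g2 hg
  rcases List.mem_append.1 hρ with hρ | hρ
  · exact tab553_5 ρ hρ g2 hg
  rcases List.mem_append.1 hρ with hρ | hρ
  · exact tab553_6 ρ hρ g2 hg
  rcases List.mem_append.1 hρ with hρ | hρ
  · exact tab553_7 ρ hρ g2 hg
  rcases List.mem_append.1 hρ with hρ | hρ
  · exact tab553_8 ρ hρ g2 hg
  rcases List.mem_append.1 hρ with hρ | hρ
  · exact tab553_9 ρ hρ g2 hg
  rcases List.mem_append.1 hρ with hρ | hρ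
  · exact tab553_10 ρ hρ g2 hg
  exact tab553_11 ρ hρ g2 hg

end Pool.Agent.TH505.HF
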