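import Pool.Agent.TH505.HF.Main
import Pool.Agent.H160R2.HF.Defs
import Pool.Agent.H160R2.HF.Hoffman

/-! From flows by letters to `1/2`-flow-pairs. -/

set_option autoImplicit false

open Finset

namespace Pool.Agent.TH505.HF

open Pool.Agent.TH505.OW (cut bd mem_cut Tr)
open Pool.Agent.H160R2.HF (OrGraph eulerian net)

variable {V E : Type} [Fintype V] [Fintype E] [DecidableEq V] [DecidableEq E]

omit [Fintype V] [DecidableEq V] in
theorem cross {G : SimpleGraph V} (Z : Set V) : ∀ {a b : V} (_ : G.Walk a b), a ∈ Z → b ∉ Z →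
    ∃ x y, G.Adj x y ∧ x ∈ Z ∧ y ∉ Z := by
  intro a b p
  induction p with
  | nil => intro h1 h2; exact absurd h1 h2
  | @cons a c b h p ih =>
    intro h1 h2
    by_cases hc : c ∈ Z
    · exact ih hc h2
    · exact ⟨a, c, h, h1, hc⟩

theorem no_one (G : OrGraph V E) (hG : G.Bridgeless) (Z : Set V) :
    (cut G.t G.h Z).card ≠ 1 := by
  intro h1
  obtain ⟨e, he⟩ := Finset.card_eq_one.1 h1
  have hmem : ∀ e', e' ∈ cut G.t G.h Z ↔ e' = e := fun e' => by rw [he, mem_singleton]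
  have h2 : ¬ (G.t e ∈ Z ↔ G.h e ∈ Z) := (mem_cut _ _ Z e).1 ((hmem e).2 rfl)
  have key : ∀ (W : Set V), (∀ a, a ∈ W ↔ a ∈ Z) ∨ (∀ a, a ∈ W ↔ a ∉ Z) → ∀ a b,
      (G.sub (univ.erase e)).Reachable a b → a ∈ W → b ∉ W → False := by
    intro W hW a b hr ha hb
    obtain ⟨p⟩ := hr
    obtain ⟨x, y, hxy, hx, hy⟩ := cross W p ha hb
    unfold OrGraph.sub at hxy
    rw [SimpleGraph.fromRel_adj] at hxy
    have h4 : ∀ e' ∈ univ.erase e, ¬ (G.t e' ∈ W ↔ G.h e' ∈ W) → False := by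
      intro e' he' h5
      have h6 : e' ∈ cut G.t G.h Z := by
        rw [mem_cut]
        rcases hW with hW | hW
        · rw [hW, hW] at h5; exact h5
        · rw [hW, hW] at h5; tauto
      exact (Finset.ne_of_mem_erase he') ((hmem e').1 h6)
    rcases hxy.2 with ⟨e', he', h5, h6⟩ | ⟨e', he', h5, h6⟩
    · exact h4 e' he' (by rw [h5, h6]; exact fun h => hy (h.1 hx))
    · exact h4 e' he' (by rw [h5, h6]; exact fun h => hy (h.2 hx))
  by_cases hs : G.t e ∈ Z
  · exact key Z (Or.inl fun _ => Iff.rfl) _ _ (hG e) hs (fun h => h2 ⟨fun _ => h, fun _ => hs⟩)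
  · have ht : G.h e ∈ Z := by
      by_contra h
      exact h2 ⟨fun h' => absurd h' hs, fun h' => absurd h' h⟩
    exact key Zᶜ (Or.inr fun _ => Iff.rfl) _ _ (hG e) hs (fun h => h ht)

omit [Fintype V] [DecidableEq E] in
theorem bd_sum (s t : E → V) (φ : E → ℤ) (v : V) :
    bd s t φ v = (∑ e with s e = v, φ e) - ∑ e with t e = v, φ e := by
  classical
  unfold Pool.Agent.TH505.OW.bd
  rw [Finset.sum_filter, Finset.sum_filter, ← Finset.sum_sub_distrib]
  refine Finset.sum_congr rfl fun e _ => ?_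
  by_cases h1 : s e = v <;> by_cases h2 : t e = v <;> simp [h1, h2]

theorem letters : ((List.range 11).all fun c => decide (|lv c| ≤ 3) &&
    (if c < 7 then decide (cc c = 1) else decide (cc c = 0) && decide (2 ≤ |lv c|))) = true := by
  decide +kernel

theorem letter_facts (c : ℕ) (hc : c < 11) : |lv c| ≤ 3 ∧ (c < 7 → cc c = 1) ∧
    (¬ c < 7 → cc c = 0 ∧ 2 ≤ |lv c|) := by
  have h := (List.all_eq_true.1 letters) c (List.mem_range.2 hc)
  rw [Bool.and_eq_true, decide_eq_true_iff] at h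
  refine ⟨h.1, fun h1 => ?_, fun h1 => ?_⟩
  · have h2 := h.2
    rw [if_pos h1, decide_eq_true_iff] at h2
    exact h2
  · have h2 := h.2
    rw [if_neg h1, Bool.and_eq_true, decide_eq_true_iff, decide_eq_true_iff] at h2
    exact h2

/-- The letter of a pair of values. -/
theorem exists_letter (a b : ℤ) (ha : |a| ≤ 1) (hb : |b| ≤ 3) (hab : a = 0 → 2 ≤ |b|) :
    ∃ x < 11, lv x = b ∧ (x < 7 ↔ a ≠ 0) := by
  have hb1 := (abs_le.1 hb).1
  have hb2 := (abs_le.1 hb).2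
  by_cases h : a = 0
  · have h2 := hab h
    have h3 : b = -3 ∨ b = -2 ∨ b = 2 ∨ b = 3 := by
      rcases le_abs.1 h2 with h4 | h4 <;> omega
    rcases h3 with rfl | rfl | rfl | rfl
    · exact ⟨7, by norm_num, by decide +kernel, by simp [h]⟩
    · exact ⟨8, by norm_num, by decide +kernel, by simp [h]⟩
    · exact ⟨9, by norm_num, by decide +kernel, by simp [h]⟩
    · exact ⟨10, by norm_num, by decide +kernel, by simp [h]⟩
  · have h3 : b = -3 ∨ b = -2 ∨ b = -1 ∨ b = 0 ∨ b = 1 ∨ b = 2 ∨ b = 3 := by omega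
    rcases h3 with rfl | rfl | rfl | rfl | rfl | rfl | rfl
    · exact ⟨0, by norm_num, by decide +kernel, by simp [h]⟩
    · exact ⟨1, by norm_num, by decide +kernel, by simp [h]⟩
    · exact ⟨2, by norm_num, by decide +kernel, by simp [h]⟩
    · exact ⟨3, by norm_num, by decide +kernel, by simp [h]⟩
    · exact ⟨4, by norm_num, by decide +kernel, by simp [h]⟩
    · exact ⟨5, by norm_num, by decide +kernel, by simp [h]⟩
    · exact ⟨6, by norm_num, by decide +kernel, by simp [h]⟩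

theorem of_good (G : OrGraph V E) (f : E → ℕ) (hf : Good G.t G.h f Set.univ) :
    ∃ ψ : E → ℤ, (∀ e, (f e < 7 → ψ e = 1 ∨ ψ e = -1) ∧ (¬ f e < 7 → ψ e = 0)) ∧
      G.IsHalfFlowPair ψ (fun e => lv (f e)) ∧
      G.IsHalfFlowPair (fun e => - ψ e) (fun e => lv (f e)) := by
  obtain ⟨F, hF⟩ : ∃ F : Finset E, F = univ.filter (fun e => f e < 7) := ⟨_, rfl⟩
  have hFm : ∀ e, e ∈ F ↔ f e < 7 := fun e => by rw [hF]; simp
  have hcc : ∀ e, cc (f e) = if e ∈ F then 1 else 0 := by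
    intro e
    have h := letter_facts (f e) (hf.1 e)
    split_ifs with h1
    · exact h.2.1 ((hFm e).1 h1)
    · exact (h.2.2 (fun h2 => h1 ((hFm e).2 h2))).1
  obtain ⟨ψ, hψ, hnet⟩ := eulerian G.t G.h F (fun v => by
    have h1 := (hf.2 v (Set.mem_univ v)).2
    rw [bd_sum] at h1
    simp only [hcc] at h1
    have h2 : ∀ (g : E → V), (∑ e with g e = v, if e ∈ F then (1 : ℤ) else 0) =
        ((F.filter (fun e => g e = v)).card : ℤ) := by
      intro g
      rw [Finset.sum_ite_mem, Finset.sum_const]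
      simp
      congr 1
      ext e; simp [and_comm]
    rw [h2, h2] at h1
    obtain ⟨c, hc⟩ := h1
    rw [Nat.even_iff]
    omega)
  have hfl : G.IsFlow ψ := by
    intro v
    have h := hnet v
    unfold net at h
    linarith
  have hfl' : G.IsFlow (fun e => - ψ e) := by
    intro v
    have h := hfl v
    rw [Finset.sum_neg_distrib, Finset.sum_neg_distrib, h]
  have h4 : G.IsKFlow 4 (fun e => lv (f e)) := by
    refine ⟨fun e => ?_, fun v => ?_⟩
    · have h := (letter_facts (f e) (hf.1 e)).1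
      norm_num
      exact h
    · have h := (hf.2 v (Set.mem_univ v)).1
      rw [bd_sum] at h
      linarith
  have habs : ∀ e, |ψ e| ≤ 1 := by
    intro e
    by_cases h : e ∈ F
    · rcases (hψ e).1 h with h1 | h1 <;> rw [h1] <;> norm_num
    · rw [(hψ e).2 h]; norm_num
  have hz : ∀ e, ψ e = 0 → 2 ≤ |lv (f e)| := by
    intro e h
    by_cases h1 : e ∈ F
    · rcases (hψ e).1 h1 with h2 | h2 <;> rw [h2] at h <;> norm_num at h
    · exact ((letter_facts (f e) (hf.1 e)).2.2 (fun h2 => h1 ((hFm e).2 h2))).2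
  refine ⟨ψ, fun e => ⟨fun h => (hψ e).1 ((hFm e).2 h), fun h => (hψ e).2
    (fun h1 => h ((hFm e).1 h1))⟩, ⟨⟨fun e => ?_, hfl⟩, h4, hz⟩, ⟨⟨fun e => ?_, hfl'⟩, h4,
    fun e h => hz e (by simpa using h)⟩⟩
  · have h := habs e
    norm_num
    exact h
  · have h := habs e
    norm_num
    exact h

/-- The theorem. -/
theorem final (G : OrGraph V E) (hG : G.Bridgeless) (T : Tr V) (hT : T.set = Set.univ)
    (hN : T.Nodup) (hW : T.Width G.t G.h 5) :
    (∃ φ₂ φ₄, G.IsHalfFlowPair φ₂ φ₄) ∧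
    ∀ (e : E) (a b : ℤ), |a| ≤ 1 → |b| ≤ 3 → (a = 0 → 2 ≤ |b|) →
      ∃ φ₂ φ₄, G.IsHalfFlowPair φ₂ φ₄ ∧ φ₂ e = a ∧ φ₄ e = b := by
  have key : ∀ (e : E) (a b : ℤ), |a| ≤ 1 → |b| ≤ 3 → (a = 0 → 2 ≤ |b|) →
      ∃ φ₂ φ₄, G.IsHalfFlowPair φ₂ φ₄ ∧ φ₂ e = a ∧ φ₄ e = b := by
    intro e a b ha hb hab
    obtain ⟨x, hx, h1, h2⟩ := exists_letter a b ha hb hab
    obtain ⟨f, hf, hfe⟩ := main G.t G.h T hT hN hW (no_one G hG) e x hx
    obtain ⟨ψ, hψ, p1, p2⟩ := of_good G f hf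
    have h3 := hψ e
    rw [hfe] at h3
    by_cases h0 : a = 0
    · refine ⟨ψ, _, p1, ?_, by rw [hfe]; exact h1⟩
      rw [h0]
      exact h3.2 (fun h => (h2.1 h) h0)
    · have h4 := h3.1 (h2.2 h0)
      have h5 : a = 1 ∨ a = -1 := by
        have := abs_le.1 ha
        omega
      by_cases h6 : ψ e = a
      · exact ⟨ψ, _, p1, h6, by rw [hfe]; exact h1⟩
      · refine ⟨_, _, p2, ?_, by rw [hfe]; exact h1⟩
        rcases h4 with h4 | h4 <;> rcases h5 with h5 | h5 <;> rw [h4, h5] at h6 ⊢ <;>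
          first | exact absurd rfl h6 | norm_num
  refine ⟨?_, key⟩
  by_cases hE : Nonempty E
  · obtain ⟨e⟩ := hE
    obtain ⟨φ₂, φ₄, h, -⟩ := key e 1 0 (by norm_num) (by norm_num) (by norm_num)
    exact ⟨φ₂, φ₄, h⟩
  · rw [not_nonempty_iff] at hE
    refine ⟨fun _ => 0, fun _ => 0, ⟨fun e => (hE.false e).elim, fun v => ?_⟩,
      ⟨fun e => (hE.false e).elim, fun v => ?_⟩, fun e => (hE.false e).elim⟩
    · simp
    · simp

end Pool.Agent.TH505.HF
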