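import Pool.Agent.TH505.HF.Tof

/-! Flows by letters and the states of a piece. -/

set_option autoImplicit false

open Finset

namespace Pool.Agent.TH505.HF

open Pool.Agent.TH505.OW (PM fc pa pb Rel pm_facts cut bd Ord mem_cut ord_card ord_perm)

/-- `f` is a flow by letters at the vertices in `X`: the values are conserved and the number of the
edges of the even subgraph is even. -/
def Good {V E : Type} [Fintype E] (s t : E → V) (f : E → ℕ) (X : Set V) : Prop :=
  (∀ e, f e < 11) ∧ ∀ v ∈ X, bd s t (fun e => lv (f e)) v = 0 ∧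
    (2 : ℤ) ∣ bd s t (fun e => cc (f e)) v

open Classical in
/-- The letter of `f` at `e` away from `X`. -/
noncomputable def ov {V E : Type} (s : E → V) (X : Set V) (f : E → ℕ) (e : E) : ℕ :=
  if s e ∈ X then f e else sw (f e)

/-- The piece `X` has the state `S`. -/
def HasSt {V E : Type} [Fintype E] (s t : E → V) (X : Set V) (k : ℕ) (o : ℕ → E) (S : ℕ) : Prop :=
  ∃ f : E → ℕ, Good s t f X ∧ ∀ i < k, ov s X f (o i) = dg S i

/-- The piece `X` with `k` ends has all states of a set of the family `get`. -/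
def HasF {V E : Type} [Fintype E] (s t : E → V) (X : Set V) (k N : ℕ) (get : ℕ → ℕ) : Prop :=
  ∃ o : ℕ → E, Ord s t X k o ∧ ∃ g < N, ∀ x, (get x).testBit g = true → HasSt s t X k o x

variable {V E : Type} [Fintype E]

theorem bd_congr (s t : E → V) (x y : E → ℤ) (v : V)
    (h : ∀ e, (s e = v ∨ t e = v) → x e = y e) : bd s t x v = bd s t y v := by
  classical
  unfold bd
  refine Finset.sum_congr rfl fun e _ => ?_
  by_cases h1 : s e = v
  · rw [h e (Or.inl h1)]
  · by_cases h2 : t e = v
    · rw [h e (Or.inr h2)]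
    · simp [h1, h2]

theorem bd_neg (s t : E → V) (x : E → ℤ) (v : V) : bd s t (fun e => - x e) v = - bd s t x v := by
  classical
  unfold bd
  simp only [neg_mul]
  rw [Finset.sum_neg_distrib]

theorem good_neg (s t : E → V) (f : E → ℕ) (X : Set V) (h : Good s t f X) :
    Good s t (fun e => sw (f e)) X := by
  refine ⟨fun e => sw_lt11 _ (h.1 e), fun v hv => ?_⟩
  obtain ⟨h1, h2⟩ := h.2 v hv
  constructor
  · have : (fun e => lv (sw (f e))) = fun e => - lv (f e) := by
      funext e; exact lv_sw _ (h.1 e)
    rw [this, bd_neg, h1, neg_zero]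
  · have : (fun e => cc (sw (f e))) = fun e => cc (f e) := by
      funext e; exact cc_sw _ (h.1 e)
    rw [this]
    exact h2

theorem st_neg (s t : E → V) (X : Set V) (k : ℕ) (o : ℕ → E) (x : ℕ)
    (h : HasSt s t X k o x) : HasSt s t X k o (ng k x) := by
  obtain ⟨f, hf, h1⟩ := h
  refine ⟨fun e => sw (f e), good_neg s t f X hf, fun i hi => ?_⟩
  rw [dg_ng k x i hi, ← h1 i hi]
  unfold ov
  split_ifs <;> rfl

theorem st_perm (s t : E → V) (X : Set V) (k : ℕ) (h3 : 3 ≤ k) (h5 : k ≤ 5) (o : ℕ → E) (r : ℕ)
    (σ : ℕ) (hσ : σ < fc k) (h : HasSt s t X k o (ad k σ r)) :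
    HasSt s t X k (fun i => o (PM k σ i)) r := by
  have hk : Rel k := by unfold Pool.Agent.TH505.OW.Rel; omega
  obtain ⟨f, hf1, hf2⟩ := h
  obtain ⟨p1, -, -⟩ := pm_facts k hk σ hσ
  refine ⟨f, hf1, fun i hi => ?_⟩
  rw [hf2 _ (p1 i hi)]
  exact (ad_facts k σ r h3 h5 hσ).2 i hi

theorem mem_cut_union (s t : E → V) (X Y : Set V) (hd : Disjoint X Y) (e : E) :
    e ∈ cut s t (X ∪ Y) ↔ (e ∈ cut s t X ∧ e ∉ cut s t Y) ∨ (e ∈ cut s t Y ∧ e ∉ cut s t X) := by
  have h : ∀ v, v ∈ X → v ∉ Y := fun v hv => Set.disjoint_left.mp hd hv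
  have h1 := h (s e)
  have h2 := h (t e)
  simp only [mem_cut, Set.mem_union]
  tauto

/-- Gluing in the standard position. -/
theorem join_std (s t : E → V) (X Y : Set V) (hd : Disjoint X Y) (a b c : ℕ) (hca : c ≤ a)
    (hcb : c ≤ b) (oX oY : ℕ → E) (hX : Ord s t X a oX) (hY : Ord s t Y b oY)
    (hsh : ∀ i < c, oX (a - c + i) = oY i) (hfX : ∀ i < a - c, oX i ∉ cut s t Y)
    (hfY : ∀ i < b - c, oY (c + i) ∉ cut s t X) (o : ℕ → E)
    (ho1 : ∀ i < a - c, o i = oX i) (ho2 : ∀ i < b - c, o (a - c + i) = oY (c + i)) :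
    Ord s t (X ∪ Y) (a + b - 2 * c) o ∧ ∀ r1 r2 r3,
      GlueP a b c r1 r2 r3 → HasSt s t X a oX r1 → HasSt s t Y b oY r2 →
      HasSt s t (X ∪ Y) (a + b - 2 * c) o r3 := by
  classical
  have hdis : ∀ v, v ∈ X → v ∉ Y := fun v hv => Set.disjoint_left.mp hd hv
  have hcase : ∀ i < a + b - 2 * c, i < a - c ∨ ∃ j < b - c, i = a - c + j := by
    intro i hi
    by_cases h : i < a - c
    · exact Or.inl h
    · exact Or.inr ⟨i - (a - c), by omega, by omega⟩
  refine ⟨⟨?_, ?_⟩, ?_⟩
  · intro i hi j hj hij
    rcases hcase i hi with h1 | ⟨i', hi', rfl⟩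
    · rcases hcase j hj with h2 | ⟨j', hj', rfl⟩
      · rw [ho1 i h1, ho1 j h2] at hij
        exact hX.1 i (by omega) j (by omega) hij
      · rw [ho1 i h1, ho2 j' hj'] at hij
        have h3 := hfX i h1
        rw [hij] at h3
        exact absurd ((hY.2 _).2 ⟨c + j', by omega, rfl⟩) h3
    · rcases hcase j hj with h2 | ⟨j', hj', rfl⟩
      · rw [ho2 i' hi', ho1 j h2] at hij
        have h3 := hfX j h2
        rw [← hij] at h3
        exact absurd ((hY.2 _).2 ⟨c + i', by omega, rfl⟩) h3
      · rw [ho2 i' hi', ho2 j' hj'] at hij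
        have := hY.1 _ (by omega) _ (by omega) hij
        omega
  · intro e
    rw [mem_cut_union s t X Y hd]
    constructor
    · rintro (⟨h1, h2⟩ | ⟨h1, h2⟩)
      · obtain ⟨i, hi, rfl⟩ := (hX.2 e).1 h1
        by_cases h : i < a - c
        · exact ⟨i, by omega, ho1 i h⟩
        · exfalso
          have h3 := hsh (i - (a - c)) (by omega)
          rw [show a - c + (i - (a - c)) = i by omega] at h3
          rw [h3] at h2
          exact h2 ((hY.2 _).2 ⟨_, by omega, rfl⟩)
      · obtain ⟨i, hi, rfl⟩ := (hY.2 e).1 h1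
        by_cases h : i < c
        · exfalso
          rw [← hsh i h] at h2
          exact h2 ((hX.2 _).2 ⟨_, by omega, rfl⟩)
        · refine ⟨a - c + (i - c), by omega, ?_⟩
          rw [ho2 _ (by omega), show c + (i - c) = i by omega]
    · rintro ⟨i, hi, rfl⟩
      rcases hcase i hi with h1 | ⟨j, hj, rfl⟩
      · left
        rw [ho1 i h1]
        exact ⟨(hX.2 _).2 ⟨i, by omega, rfl⟩, hfX i h1⟩
      · right
        rw [ho2 j hj]
        exact ⟨(hY.2 _).2 ⟨c + j, by omega, rfl⟩, hfY j hj⟩
  · rintro r1 r2 r3 ⟨g1, g2, g3⟩ ⟨fX, gX, vX⟩ ⟨fY, gY, vY⟩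
    obtain ⟨f, hf⟩ : ∃ f : E → ℕ, f = fun e => if s e ∈ X ∨ t e ∈ X then fX e
      else fY e := ⟨_, rfl⟩
    have hf1 : ∀ e, (s e ∈ X ∨ t e ∈ X) → f e = fX e := fun e he => by
      rw [hf]; simp only [if_pos he]
    have hf2 : ∀ e, ¬ (s e ∈ X ∨ t e ∈ X) → f e = fY e := fun e he => by
      rw [hf]; simp only [if_neg he]
    have hf3 : ∀ e, (s e ∈ Y ∨ t e ∈ Y) → f e = fY e := by
      intro e he
      by_cases hx : s e ∈ X ∨ t e ∈ X
      · have h1 := hdis (s e)
        have h2 := hdis (t e)
        have hcX : e ∈ cut s t X := by rw [mem_cut]; tauto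
        have hcY : e ∈ cut s t Y := by rw [mem_cut]; tauto
        rw [hf1 e hx]
        obtain ⟨x, hx', hxe⟩ := (hX.2 e).mp hcX
        have hxc : ¬ x < a - c := by
          intro h
          have := hfX x h
          rw [hxe] at this
          exact this hcY
        have h3 := hsh (x - (a - c)) (by omega)
        rw [show a - c + (x - (a - c)) = x by omega, hxe] at h3
        have h4 := g1 (x - (a - c)) (by omega)
        rw [show a - c + (x - (a - c)) = x by omega, ← vX x hx', ← vY _ (by omega), ← h3,
          hxe] at h4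
        have hvY := gY.1 e
        have hvX := gX.1 e
        by_cases hs : s e ∈ X
        · have hsY : s e ∉ Y := hdis _ hs
          unfold ov at h4
          rw [if_pos hs, if_neg hsY, (sw_sw _ (by omega)).1] at h4
          exact h4
        · have htX : t e ∈ X := hx.resolve_left hs
          have hsY : s e ∈ Y := by
            by_contra h
            rcases he with he | he
            · exact h he
            · exact h2 htX he
          unfold ov at h4
          rw [if_neg hs, if_pos hsY] at h4
          have h5 := congrArg sw h4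
          rw [(sw_sw _ (by omega)).1, (sw_sw _ (by omega)).1] at h5
          exact h5
      · exact hf2 e hx
    have hvc : ∀ e, f e < 11 := by
      intro e
      by_cases hx : s e ∈ X ∨ t e ∈ X
      · rw [hf1 e hx]; exact gX.1 e
      · rw [hf2 e hx]; exact gY.1 e
    refine ⟨f, ⟨hvc, ?_⟩, ?_⟩
    · intro v hv
      rcases hv with hv | hv
      · have hc : ∀ e, (s e = v ∨ t e = v) → f e = fX e := fun e he =>
          hf1 e (by rcases he with h | h <;> rw [h] <;> simp [hv])
        rw [bd_congr s t (fun e => lv (f e)) (fun e => lv (fX e)) v (fun e he => by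
            simp only [hc e he]),
          bd_congr s t (fun e => cc (f e)) (fun e => cc (fX e)) v (fun e he => by
            simp only [hc e he])]
        exact gX.2 v hv
      · have hc : ∀ e, (s e = v ∨ t e = v) → f e = fY e := fun e he =>
          hf3 e (by rcases he with h | h <;> rw [h] <;> simp [hv])
        rw [bd_congr s t (fun e => lv (f e)) (fun e => lv (fY e)) v (fun e he => by
            simp only [hc e he]),
          bd_congr s t (fun e => cc (f e)) (fun e => cc (fY e)) v (fun e he => by
            simp only [hc e he])]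
        exact gY.2 v hv
    · intro i hi
      rcases hcase i hi with h1 | ⟨j, hj, rfl⟩
      · rw [ho1 i h1, ← g2 i h1, ← vX i (by omega)]
        have hcX : oX i ∈ cut s t X := (hX.2 _).2 ⟨i, by omega, rfl⟩
        have hcY := hfX i h1
        rw [mem_cut] at hcX hcY
        by_cases hs : s (oX i) ∈ X
        · unfold ov
          rw [if_pos (show s (oX i) ∈ X ∪ Y from Or.inl hs), if_pos hs, hf1 _ (Or.inl hs)]
        · have ht : t (oX i) ∈ X := by
            by_contra h
            exact hcX ⟨fun h' => absurd h' hs, fun h' => absurd h' h⟩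
          have hsY : s (oX i) ∉ Y := by
            intro h
            have h5 : t (oX i) ∈ Y := by
              by_contra h6
              exact hcY (fun h' => h6 (h'.1 h))
            exact hdis _ ht h5
          unfold ov
          rw [if_neg (show s (oX i) ∉ X ∪ Y from fun h => h.elim hs hsY), if_neg hs,
            hf1 _ (Or.inr ht)]
      · rw [ho2 j hj, ← g3 j hj, ← vY _ (by omega)]
        have hcY : oY (c + j) ∈ cut s t Y := (hY.2 _).2 ⟨c + j, by omega, rfl⟩
        have hcX := hfY j hj
        rw [mem_cut] at hcX hcY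
        by_cases hs : s (oY (c + j)) ∈ Y
        · unfold ov
          rw [if_pos (show s (oY (c + j)) ∈ X ∪ Y from Or.inr hs), if_pos hs, hf3 _ (Or.inl hs)]
        · have ht : t (oY (c + j)) ∈ Y := by
            by_contra h
            exact hcY ⟨fun h' => absurd h' hs, fun h' => absurd h' h⟩
          have hsX : s (oY (c + j)) ∉ X := by
            intro h
            have h5 : t (oY (c + j)) ∈ X := by
              by_contra h6
              exact hcX (fun h' => h6 (h'.1 h))
            exact hdis _ h5 ht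
          unfold ov
          rw [if_neg (show s (oY (c + j)) ∉ X ∪ Y from fun h => h.elim hsX hs), if_neg hs,
            hf3 _ (Or.inr ht)]

end Pool.Agent.TH505.HF
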