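import Pool.Agent.TH505.HF.Ins

/-! Every set of states contains a state with a given letter at a given end. -/

set_option autoImplicit false
set_option maxRecDepth 100000

namespace Pool.Agent.TH505.HF

/-- Union of the masks of the states in `l` with the letter `y` or its negative at the end `i`. -/
def oF (get : ℕ → ℕ) (i y : ℕ) (l : List ℕ) : ℕ :=
  List.rec 0 (fun x _ ih => cond (Nat.beq (dg x i) y) (Nat.lor ih (get x))
    (cond (Nat.beq (dg x i) (sw y)) (Nat.lor ih (get x)) ih)) l

/-- The same for all states with top digits in `L`. -/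
def oG (get : ℕ → ℕ) (k i y : ℕ) (L : List ℕ) : ℕ :=
  List.rec 0 (fun h _ ih => Nat.lor ih (oF get i y (vr k h))) L

theorem oF_bit (get : ℕ → ℕ) (i y g : ℕ) (l : List ℕ) (h : (oF get i y l).testBit g = true) :
    ∃ x, (get x).testBit g = true ∧ (dg x i = y ∨ dg x i = sw y) := by
  induction l with
  | nil =>
    have h' : (0 : ℕ).testBit g = true := h
    simp at h'
  | cons x l ih =>
    have h' : (cond (Nat.beq (dg x i) y) (oF get i y l ||| get x)
      (cond (Nat.beq (dg x i) (sw y)) (oF get i y l ||| get x) (oF get i y l))).testBit g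
        = true := h
    cases h1 : Nat.beq (dg x i) y with
    | true =>
      rw [h1, cond_true, Nat.testBit_or, Bool.or_eq_true] at h'
      rcases h' with h' | h'
      · exact ih h'
      · exact ⟨x, h', Or.inl (Nat.eq_of_beq_eq_true h1)⟩
    | false =>
      rw [h1, cond_false] at h'
      cases h2 : Nat.beq (dg x i) (sw y) with
      | true =>
        rw [h2, cond_true, Nat.testBit_or, Bool.or_eq_true] at h'
        rcases h' with h' | h'
        · exact ih h'
        · exact ⟨x, h', Or.inr (Nat.eq_of_beq_eq_true h2)⟩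
      | false =>
        rw [h2, cond_false] at h'
        exact ih h'

theorem oG_bit (get : ℕ → ℕ) (k i y g : ℕ) (L : List ℕ)
    (h : (oG get k i y L).testBit g = true) :
    ∃ x, (get x).testBit g = true ∧ (dg x i = y ∨ dg x i = sw y) := by
  induction L with
  | nil =>
    have h' : (0 : ℕ).testBit g = true := h
    simp at h'
  | cons x l ih =>
    have h' : (oG get k i y l ||| oF get i y (vr k x)).testBit g = true := h
    rw [Nat.testBit_or, Bool.or_eq_true] at h'
    rcases h' with h' | h'
    · exact ih h'
    · exact oF_bit _ _ _ _ _ h'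

/-- Every set of the family contains a state with the letter `y` at the end `i`. -/
def FullF (k N : ℕ) (get : ℕ → ℕ) : Prop := ∀ g < N, ∀ i < k, ∀ y < 11,
  ∃ x, (get x).testBit g = true ∧ dg x i = y

theorem full_of (k N : ℕ) (get : ℕ → ℕ) (F : Fam k N get)
    (h : ((List.range k).all fun i => (List.range 11).all fun y =>
      Nat.beq (oG get k i y (HL k)) (2 ^ N - 1)) = true) : FullF k N get := by
  intro g hg i hi y hy
  have h1 := (List.all_eq_true.1 ((List.all_eq_true.1 h) i (List.mem_range.2 hi))) y
    (List.mem_range.2 hy)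
  have h2 := Nat.eq_of_beq_eq_true h1
  obtain ⟨x, hx, h3⟩ := oG_bit get k i y g (HL k) (by
    rw [h2, Nat.testBit_two_pow_sub_one, decide_eq_true_iff]
    exact hg)
  obtain ⟨v1, v2⟩ := F.bit x g hx
  rcases h3 with h3 | h3
  · exact ⟨x, hx, h3⟩
  · refine ⟨ng k x, ?_, ?_⟩
    · rw [F.sym x v2 v1]; exact hx
    · rw [dg_ng k x i hi, h3]
      exact (sw_sw y (by omega)).1

theorem full3 : FullF 3 1 g3 := full_of 3 1 g3 fam3 (by decide +kernel)

theorem full4 : FullF 4 7 g4 := full_of 4 7 g4 fam4 (by decide +kernel)

theorem full5 : FullF 5 99 g5 := full_of 5 99 g5 fam5 (by decide +kernel)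

end Pool.Agent.TH505.HF
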