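import Pool.Agent.TH505.HF.Flow

/-! The union of two pieces: which ends are glued, and the use of the tables. -/

set_option autoImplicit false

open Finset

namespace Pool.Agent.TH505.HF

open Pool.Agent.TH505.OW (PM fc pa pb Rel pm_facts cut bd Ord mem_cut ord_card ord_perm pats
  mem_pats okG okG33 okG43 okG44 okG53 okG54 okG55 inc)

variable {V E : Type} [Fintype E]

theorem okG_facts (a b : ℕ) (hb : 3 ≤ b) (hab : b ≤ a) (ha : a ≤ 5) (G : List ℕ)
    (hG : G ∈ pats b a) : ∃ c ≤ a, c ≤ b ∧ ∃ π ∈ pa a c, ∃ ρ ∈ pb b c,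
      (∀ i < a - c, G.getD (PM a π i) b = b) ∧ (∀ i < c, G.getD (PM a π (a - c + i)) b ≠ b) ∧
      (∀ i < c, PM b ρ i = G.getD (PM a π (a - c + i)) b) ∧
      ∀ i < b - c, PM b ρ (c + i) ∉ G := by
  have h : okG a b G = true := by
    have hc : (a = 3 ∧ b = 3) ∨ (a = 4 ∧ b = 3) ∨ (a = 4 ∧ b = 4) ∨ (a = 5 ∧ b = 3) ∨
        (a = 5 ∧ b = 4) ∨ (a = 5 ∧ b = 5) := by omega
    rcases hc with ⟨rfl, rfl⟩ | ⟨rfl, rfl⟩ | ⟨rfl, rfl⟩ | ⟨rfl, rfl⟩ | ⟨rfl, rfl⟩ | ⟨rfl, rfl⟩
    · exact (List.all_eq_true.1 okG33) G hG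
    · exact (List.all_eq_true.1 okG43) G hG
    · exact (List.all_eq_true.1 okG44) G hG
    · exact (List.all_eq_true.1 okG53) G hG
    · exact (List.all_eq_true.1 okG54) G hG
    · exact (List.all_eq_true.1 okG55) G hG
  unfold okG at h
  generalize Pool.Agent.TH505.OW.ng a b G = c at h
  simp only [Bool.and_eq_true, Nat.ble_eq, List.any_eq_true, List.all_eq_true, List.mem_range,
    Nat.beq_eq, Bool.not_eq_true', List.contains_eq_mem, decide_eq_false_iff_not] at h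
  obtain ⟨⟨h1, h2⟩, π, hπ, ⟨h3, h4⟩, ρ, hρ, h5, h6⟩ := h
  refine ⟨c, h1, h2, π, hπ, ρ, hρ, h3, fun i hi => ?_, h5, h6⟩
  have h7 := h4 i hi
  rw [← Bool.not_eq_true, Nat.beq_eq] at h7
  exact h7

theorem pa_lt {a c π : ℕ} (h : π ∈ pa a c) : π < fc a := by
  unfold Pool.Agent.TH505.OW.pa at h
  exact List.mem_range.1 (List.mem_filter.1 h).1

theorem pb_lt {b c ρ : ℕ} (h : ρ ∈ pb b c) : ρ < fc b := by
  unfold Pool.Agent.TH505.OW.pb at h
  exact List.mem_range.1 (List.mem_filter.1 h).1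

theorem geo (s t : E → V) (X Y : Set V) (a b : ℕ) (hd : Disjoint X Y)
    (hb : 3 ≤ b) (hab : b ≤ a) (ha : a ≤ 5)
    (cX : (cut s t X).card = a) (cY : (cut s t Y).card = b) :
    ∃ c ≤ b, (cut s t (X ∪ Y)).card = a + b - 2 * c ∧
      ∀ (oX oY : ℕ → E), Ord s t X a oX → Ord s t Y b oY →
      ∃ π ∈ pa a c, ∃ ρ ∈ pb b c, ∃ o, Ord s t (X ∪ Y) (a + b - 2 * c) o ∧
        ∀ r1 r2 r3, GlueP a b c r1 r2 r3 → HasSt s t X a (fun i => oX (PM a π i)) r1 →
          HasSt s t Y b (fun i => oY (PM b ρ i)) r2 → HasSt s t (X ∪ Y) (a + b - 2 * c) o r3 := by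
  classical
  have key : ∀ (oX oY : ℕ → E), Ord s t X a oX → Ord s t Y b oY →
      ∃ c ≤ b, (cut s t (X ∪ Y)).card = a + b - 2 * c ∧ ∃ π ∈ pa a c, ∃ ρ ∈ pb b c,
      ∃ o, Ord s t (X ∪ Y) (a + b - 2 * c) o ∧
        ∀ r1 r2 r3, GlueP a b c r1 r2 r3 → HasSt s t X a (fun i => oX (PM a π i)) r1 →
          HasSt s t Y b (fun i => oY (PM b ρ i)) r2 →
          HasSt s t (X ∪ Y) (a + b - 2 * c) o r3 := by
    intro oX oY ordX ordY
    have hra : Rel a := by unfold Pool.Agent.TH505.OW.Rel; omega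
    have hrb : Rel b := by unfold Pool.Agent.TH505.OW.Rel; omega
    obtain ⟨iX, mX⟩ := id ordX
    obtain ⟨iY, mY⟩ := id ordY
    obtain ⟨g, hg⟩ : ∃ g : ℕ → ℕ,
      g = fun x => if h : ∃ y < b, oY y = oX x then h.choose else b := ⟨_, rfl⟩
    have hg2 : ∀ x, g x ≠ b → g x < b ∧ oY (g x) = oX x := by
      intro x hx
      by_cases h : ∃ y < b, oY y = oX x
      · have : g x = h.choose := by rw [hg]; simp only [dif_pos h]
        rw [this]; exact h.choose_spec
      · exact absurd (by rw [hg]; simp only [dif_neg h]) hx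
    have hg1 : ∀ x, g x ≤ b := by
      intro x
      by_cases h : g x = b
      · exact h.le
      · exact (hg2 x h).1.le
    have hg3 : ∀ x y, y < b → oY y = oX x → g x = y := by
      intro x y hy hxy
      have h : ∃ y < b, oY y = oX x := ⟨y, hy, hxy⟩
      have h1 : g x = h.choose := by rw [hg]; simp only [dif_pos h]
      rw [h1]
      exact iY _ h.choose_spec.1 _ hy (h.choose_spec.2.trans hxy.symm)
    obtain ⟨G, hGd⟩ : ∃ G : List ℕ, G = (List.range a).map g := ⟨_, rfl⟩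
    have hGg : ∀ x < a, G.getD x b = g x := by
      intro x hx
      rw [hGd, List.getD_eq_getElem?_getD, List.getElem?_map, List.getElem?_range hx]
      rfl
    have hGm : ∀ y, y ∈ G ↔ ∃ x < a, g x = y := by
      intro y
      rw [hGd, List.mem_map]
      simp only [List.mem_range]
    have hGp : G ∈ pats b a := by
      refine mem_pats b a G (by rw [hGd]; simp) ?_ ?_
      · intro y hy
        obtain ⟨x, _, rfl⟩ := (hGm y).mp hy
        exact hg1 x
      · rw [hGd, List.pairwise_map]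
        refine List.Pairwise.imp_of_mem ?_ (List.nodup_range (n := a))
        intro x y hx hy hxy h
        by_contra hne
        have h1 := (hg2 x hne).2
        have h2 := (hg2 y (by rw [← h]; exact hne)).2
        rw [h] at h1
        exact hxy (iX x (List.mem_range.mp hx) y (List.mem_range.mp hy) (h1.symm.trans h2))
    obtain ⟨c, hca, hcb, π, hπ, ρ, hρ, p1, p2, p3, p4⟩ := okG_facts a b hb hab ha G hGp
    have hπ' := pa_lt hπ
    have hρ' := pb_lt hρ
    obtain ⟨πl, _, _⟩ := pm_facts a hra π hπ'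
    obtain ⟨ρl, _, _⟩ := pm_facts b hrb ρ hρ'
    have ordX' := ord_perm s t X a hra oX ordX π hπ'
    have ordY' := ord_perm s t Y b hrb oY ordY ρ hρ'
    have q1 : ∀ i < c, oX (PM a π (a - c + i)) = oY (PM b ρ i) := by
      intro i hi
      have h1 := πl (a - c + i) (by omega)
      rw [p3 i hi, hGg _ h1]
      have h2 := p2 i hi
      rw [hGg _ h1] at h2
      exact (hg2 _ h2).2.symm
    have q2 : ∀ i < a - c, oX (PM a π i) ∉ cut s t Y := by
      intro i hi h
      obtain ⟨y, hy, hyx⟩ := (mY _).1 h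
      have h1 := hg3 _ y hy hyx
      have h2 := p1 i hi
      rw [hGg _ (πl i (by omega)), h1] at h2
      omega
    have q3 : ∀ i < b - c, oY (PM b ρ (c + i)) ∉ cut s t X := by
      intro i hi h
      obtain ⟨x, hx, hxy⟩ := (mX _).1 h
      have h1 := hg3 x _ (ρl (c + i) (by omega)) hxy.symm
      exact p4 i hi ((hGm _).2 ⟨x, hx, h1⟩)
    obtain ⟨o, ho⟩ : ∃ o : ℕ → E, o = fun i => if i < a - c then oX (PM a π i)
      else oY (PM b ρ (c + (i - (a - c)))) := ⟨_, rfl⟩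
    have ho1 : ∀ i < a - c, o i = oX (PM a π i) := by
      intro i hi
      rw [ho]; simp only [if_pos hi]
    have ho2 : ∀ i < b - c, o (a - c + i) = oY (PM b ρ (c + i)) := by
      intro i hi
      rw [ho]; simp only [if_neg (by omega : ¬ a - c + i < a - c), Nat.add_sub_cancel_left]
    obtain ⟨ordU, glue⟩ := join_std s t X Y hd a b c hca hcb (fun i => oX (PM a π i))
      (fun i => oY (PM b ρ i)) ordX' ordY' q1 q2 q3 o ho1 ho2
    exact ⟨c, hcb, ord_card s t _ _ _ ordU, π, hπ, ρ, hρ, o, ordU, glue⟩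
  by_cases hex : ∃ oX oY, Ord s t X a oX ∧ Ord s t Y b oY
  · obtain ⟨oX, oY, h1, h2⟩ := hex
    obtain ⟨c, hc, hcard, -⟩ := key oX oY h1 h2
    refine ⟨c, hc, hcard, fun oX' oY' h1' h2' => ?_⟩
    obtain ⟨c', hc', hcard', h⟩ := key oX' oY' h1' h2'
    have : c' = c := by omega
    rw [this] at h
    exact h
  · exfalso
    apply hex
    have ex : ∀ (Z : Set V) (k : ℕ), (cut s t Z).card = k → 3 ≤ k → ∃ o, Ord s t Z k o := by
      intro Z k hk h3
      obtain ⟨e0, he0⟩ : (cut s t Z).Nonempty := Finset.card_pos.mp (by omega)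
      let q := (cut s t Z).equivFin
      refine ⟨fun i => if h : i < (cut s t Z).card then (q.symm ⟨i, h⟩).1 else e0, ?_, ?_⟩
      · intro i hi j hj hij
        rw [← hk] at hi hj
        simp only [dif_pos hi, dif_pos hj] at hij
        have h1 := q.symm.injective (Subtype.ext hij)
        simpa using h1
      · intro e
        constructor
        · intro he
          refine ⟨(q ⟨e, he⟩).1, by rw [← hk]; exact (q ⟨e, he⟩).2, ?_⟩
          simp only [dif_pos (q ⟨e, he⟩).2, Fin.eta, Equiv.symm_apply_apply]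
        · rintro ⟨i, hi, rfl⟩
          rw [← hk] at hi
          simp only [dif_pos hi]
          exact (q.symm ⟨i, hi⟩).2
    obtain ⟨oX, h1⟩ := ex X a cX (by omega)
    obtain ⟨oY, h2⟩ := ex Y b cY hb
    exact ⟨oX, oY, h1, h2⟩

theorem hasF_card (s t : E → V) (X : Set V) (k N : ℕ) (get : ℕ → ℕ) (h : HasF s t X k N get) :
    (cut s t X).card = k := by
  obtain ⟨o, ho, -⟩ := h
  exact ord_card s t X k o ho

/-- The use of the tables. -/
theorem use_tab (s t : E → V) (X Y : Set V) (a b c k NA NB NT : ℕ) (gA gB gT : ℕ → ℕ)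
    (FA : Fam a NA gA) (FB : Fam b NB gB) (FT : Fam k NT gT) (hk : a + b - 2 * c = k)
    (tab : TabOK a b c k NA NB NT gA gB gT)
    (hgeo : ∀ (oX oY : ℕ → E), Ord s t X a oX → Ord s t Y b oY →
      ∃ π ∈ pa a c, ∃ ρ ∈ pb b c, ∃ o, Ord s t (X ∪ Y) (a + b - 2 * c) o ∧
        ∀ r1 r2 r3, GlueP a b c r1 r2 r3 → HasSt s t X a (fun i => oX (PM a π i)) r1 →
          HasSt s t Y b (fun i => oY (PM b ρ i)) r2 → HasSt s t (X ∪ Y) (a + b - 2 * c) o r3)
    (hX : HasF s t X a NA gA) (hY : HasF s t Y b NB gB) : HasF s t (X ∪ Y) k NT gT := by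
  obtain ⟨oX, ordX, g1, hg1, sX⟩ := hX
  obtain ⟨oY, ordY, g2, hg2, sY⟩ := hY
  obtain ⟨π, hπ, ρ, hρ, o, ordU, glue⟩ := hgeo oX oY ordX ordY
  rw [hk] at ordU glue
  obtain ⟨g3, hg3, τ, hτ, hx⟩ := tab ρ hρ g2 hg2 π hπ g1 hg1
  have hrk : Rel k := by
    have := FT.h3
    have := FT.h5
    unfold Pool.Agent.TH505.OW.Rel
    omega
  refine ⟨fun i => o (PM k τ i), ord_perm s t _ k hrk o ordU τ hτ, g3, hg3, fun x hxb => ?_⟩
  obtain ⟨y, hy, r1, r2, h1, h2, hG⟩ := hx x hxb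
  have st1 := st_perm s t X a FA.h3 FA.h5 oX r1 π (pa_lt hπ) (sX _ h1)
  have st2 := st_perm s t Y b FB.h3 FB.h5 oY r2 ρ (pb_lt hρ) (sY _ h2)
  have st3 := glue _ _ _ hG st1 st2
  have st4 := st_perm s t (X ∪ Y) k FT.h3 FT.h5 o y τ hτ st3
  rcases hy with rfl | rfl
  · exact st4
  · have st5 := st_neg s t _ k _ _ st4
    rw [ng_ng k x (FT.bit x _ hxb).2] at st5
    exact st5

/-- A set of the first family contains an image of a set of the second one. -/
theorem hasF_sub (s t : E → V) (X : Set V) (k N1 N2 : ℕ) (g1 g2 : ℕ → ℕ) (F1 : Fam k N1 g1)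
    (h : ∀ g < N2, ∃ h < N1, ∃ τ < fc k, Sub k g1 g2 h τ g) (hX : HasF s t X k N2 g2) :
    HasF s t X k N1 g1 := by
  obtain ⟨o, ordX, g, hg, sX⟩ := hX
  obtain ⟨h', hh, τ, hτ, hs⟩ := h g hg
  have hrk : Rel k := by
    have := F1.h3
    have := F1.h5
    unfold Pool.Agent.TH505.OW.Rel
    omega
  exact ⟨fun i => o (PM k τ i), ord_perm s t _ k hrk o ordX τ hτ, h', hh, fun x hx =>
    st_perm s t X k F1.h3 F1.h5 o x τ hτ (sX _ (hs x hx))⟩

end Pool.Agent.TH505.HF
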