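import Pool.Agent.TH505.HF.Flow

/-! Single vertices. -/

set_option autoImplicit false

open Finset

namespace Pool.Agent.TH505.HF

open Pool.Agent.TH505.OW (PM fc pa pb Rel pm_facts cut bd Ord mem_cut ord_card ord_perm)

theorem leaf {V E : Type} [Fintype E] (s t : E → V) (v : V) (k N : ℕ) (get : ℕ → ℕ)
    (F : Fam k N get) (hN : 0 < N) (hk : (cut s t {v}).card = k) : HasF s t {v} k N get := by
  classical
  obtain ⟨C, hC⟩ : ∃ C, C = cut s t {v} := ⟨_, rfl⟩
  have h3 := F.h3
  have h5 := F.h5
  subst hk
  rw [← hC] at F h3 h5 ⊢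
  have hmem : ∀ e, e ∈ C ↔ ¬ (s e = v ↔ t e = v) := by
    intro e
    rw [hC, mem_cut]
    simp only [Set.mem_singleton_iff]
  obtain ⟨e0, he0⟩ : C.Nonempty := Finset.card_pos.mp (by omega)
  let q := C.equivFin
  let o : ℕ → E := fun i => if h : i < C.card then (q.symm ⟨i, h⟩).1 else e0
  refine ⟨o, ⟨?_, ?_⟩, 0, hN, ?_⟩
  · intro i hi j hj hij
    simp only [o, dif_pos hi, dif_pos hj] at hij
    have h1 := q.symm.injective (Subtype.ext hij)
    simpa using h1
  · intro e
    rw [← hC]
    constructor
    · intro he
      refine ⟨(q ⟨e, he⟩).1, (q ⟨e, he⟩).2, ?_⟩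
      simp only [o, dif_pos (q ⟨e, he⟩).2, Fin.eta, Equiv.symm_apply_apply]
    · rintro ⟨i, hi, rfl⟩
      simp only [o, dif_pos hi]
      exact (q.symm ⟨i, hi⟩).2
  · intro S hS
    obtain ⟨v1, v2⟩ := F.bit S _ hS
    obtain ⟨k1, -, -⟩ := vl_facts _ h3 h5 S v1
    obtain ⟨k2, k3⟩ := vl_sums _ h3 h5 S v1
    obtain ⟨f, hf⟩ : ∃ f : E → ℕ, f = fun e => if h : e ∈ C then
        (if s e = v then dg S (q ⟨e, h⟩) else sw (dg S (q ⟨e, h⟩))) else 3 := ⟨_, rfl⟩
    have hf1 : ∀ e (h : e ∈ C), f e =
        if s e = v then dg S (q ⟨e, h⟩) else sw (dg S (q ⟨e, h⟩)) := by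
      intro e h
      rw [hf]
      simp only [dif_pos h]
    have hf2 : ∀ e, e ∉ C → f e = 3 := by
      intro e h
      rw [hf]
      simp only [dif_neg h]
    have hov : ∀ e (h : e ∈ C), ov s {v} f e = dg S (q ⟨e, h⟩) := by
      intro e h
      unfold ov
      rw [hf1 e h]
      by_cases hs : s e = v
      · rw [if_pos hs, if_pos (by simpa using hs)]
      · rw [if_neg hs, if_neg (by simpa using hs)]
        exact (sw_sw _ (dg_lt _ _)).1
    have hsum : ∀ (φ : ℕ → ℤ), (∑ e, if e ∈ C then φ (ov s {v} f e) else 0) =
        ∑ i ∈ range C.card, φ (dg S i) := by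
      intro φ
      rw [Finset.sum_ite_mem, Finset.univ_inter, ← Finset.sum_coe_sort C,
        ← q.symm.sum_comp, ← Fin.sum_univ_eq_sum_range (fun i => φ (dg S i)) C.card]
      refine Finset.sum_congr rfl ?_
      intro j _
      rw [hov _ (q.symm j).2]
      simp only [Subtype.coe_eta, Equiv.apply_symm_apply]
    refine ⟨f, ⟨?_, ?_⟩, ?_⟩
    · intro e
      by_cases h : e ∈ C
      · rw [hf1 e h]
        split_ifs
        · exact k1 _ (q ⟨e, h⟩).2
        · exact sw_lt11 _ (k1 _ (q ⟨e, h⟩).2)
      · rw [hf2 e h]
        norm_num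
    · intro w hw
      rw [Set.mem_singleton_iff] at hw
      subst hw
      constructor
      · have h1 : bd s t (fun e => lv (f e)) w =
            ∑ e, if e ∈ C then lv (ov s {w} f e) else 0 := by
          unfold Pool.Agent.TH505.OW.bd
          refine Finset.sum_congr rfl ?_
          intro e _
          by_cases hm : e ∈ C
          · show lv (f e) * _ = _
            rw [if_pos hm, hov e hm, hf1 e hm]
            have h11 := k1 _ (q ⟨e, hm⟩).2
            have hm' := (hmem e).1 hm
            by_cases h2 : s e = w
            · have h3 : t e ≠ w := fun h => hm' ⟨fun _ => h, fun _ => h2⟩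
              simp only [if_pos h2, if_neg h3]
              ring
            · have h3 : t e = w := by
                by_contra h
                exact hm' ⟨fun h' => absurd h' h2, fun h' => absurd h' h⟩
              simp only [if_neg h2, if_pos h3]
              rw [lv_sw _ h11]
              ring
          · rw [if_neg hm]
            have hm' : (s e = w ↔ t e = w) := by
              by_contra h
              exact hm ((hmem e).2 h)
            by_cases h2 : s e = w
            · rw [if_pos h2, if_pos (hm'.1 h2)]; ring
            · rw [if_neg h2, if_neg (fun h => h2 (hm'.2 h))]; ring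
        rw [h1, hsum]
        exact k2
      · have h1 : (2 : ℤ) ∣ bd s t (fun e => cc (f e)) w -
            ∑ e, if e ∈ C then cc (ov s {w} f e) else 0 := by
          unfold Pool.Agent.TH505.OW.bd
          rw [← Finset.sum_sub_distrib]
          refine Finset.dvd_sum ?_
          intro e _
          by_cases hm : e ∈ C
          · show (2 : ℤ) ∣ cc (f e) * _ - _
            rw [if_pos hm, hov e hm, hf1 e hm]
            have h11 := k1 _ (q ⟨e, hm⟩).2
            have hm' := (hmem e).1 hm
            by_cases h2 : s e = w
            · have h3 : t e ≠ w := fun h => hm' ⟨fun _ => h, fun _ => h2⟩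
              simp only [if_pos h2, if_neg h3]
              exact ⟨0, by ring⟩
            · have h3 : t e = w := by
                by_contra h
                exact hm' ⟨fun h' => absurd h' h2, fun h' => absurd h' h⟩
              simp only [if_neg h2, if_pos h3]
              rw [cc_sw _ h11]
              exact ⟨- cc (dg S (q ⟨e, hm⟩)), by ring⟩
          · rw [if_neg hm]
            have hm' : (s e = w ↔ t e = w) := by
              by_contra h
              exact hm ((hmem e).2 h)
            by_cases h2 : s e = w
            · rw [if_pos h2, if_pos (hm'.1 h2)]; exact ⟨0, by ring⟩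
            · rw [if_neg h2, if_neg (fun h => h2 (hm'.2 h))]; exact ⟨0, by ring⟩
        rw [hsum] at h1
        have h2 := dvd_add h1 k3
        rw [sub_add_cancel] at h2
        exact h2
    · intro j hj
      simp only [o, dif_pos hj]
      rw [hov _ (q.symm ⟨j, hj⟩).2]
      simp only [Subtype.coe_eta, Equiv.apply_symm_apply]

end Pool.Agent.TH505.HF
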