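import Pool.Agent.TH505.HF.Ins

/-! Every set of the family for five ends contains an image of a set of the second family. -/

set_option autoImplicit false
set_option maxRecDepth 100000

namespace Pool.Agent.TH505.HF

open Pool.Agent.TH505.OW (PM fc pa pb)

/-- The sets and permutations that are used. -/
def TR5 : List ℕ := [0, 128, 256, 384, 512, 640, 656, 768, 784, 896, 912, 1024, 1054, 1152, 1168, 1216, 1280, 1304,
 1408, 1432, 1536, 1552, 1576, 1664, 1671, 1681, 1688, 1792, 1920, 1950, 2048, 2075, 2090, 2153,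
 2176, 2192, 2304, 2352, 2432, 2439, 2444, 2449, 2515, 2560, 2582, 2688, 2694, 2722, 2816, 2944,
 2953, 2956, 3072, 3120, 3200, 3224, 3328, 3347, 3352, 3359, 3365, 3400, 3422, 3456, 3584, 3600,
 3665, 3712]

theorem cR5 : ck g5 gc 633825300114114700748351602687 633825300114114700748351602687 5 TR5 = true := by decide +kernel

theorem red5 : ∀ g < 99, ∃ h < 30, ∃ τ < fc 5, Sub 5 gc g5 h τ g := by
  intro g hg
  have hn : (633825300114114700748351602687 : ℕ).testBit g = true := by
    rw [show (633825300114114700748351602687 : ℕ) = 2 ^ 99 - 1 by norm_num, Nat.testBit_two_pow_sub_one,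
      decide_eq_true_iff]
    exact hg
  obtain ⟨t, ht, h1⟩ := ck_bit _ _ _ _ _ _ cR5 g hn
  have hT : TR5.all (fun t => Nat.ble (t / 128 + 1) 30 && Nat.ble (t % 128 + 1) (fc 5)) = true := by
    decide +kernel
  have h2 := (List.all_eq_true.1 hT) t ht
  rw [Bool.and_eq_true, Nat.ble_eq, Nat.ble_eq] at h2
  exact ⟨t / 128, by omega, t % 128, by omega, sub_of 5 30 99 gc g5 famc fam5 _ (by omega) _ _ h1⟩

end Pool.Agent.TH505.HF
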