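import Pool.Agent.TH505.HF.Geo
import Pool.Agent.TH505.HF.Leaf
import Pool.Agent.TH505.HF.C331
import Pool.Agent.TH505.HF.C431
import Pool.Agent.TH505.HF.C432
import Pool.Agent.TH505.HF.C442
import Pool.Agent.TH505.HF.C532
import Pool.Agent.TH505.HF.C543
import Pool.Agent.TH505.HF.D542x
import Pool.Agent.TH505.HF.D553x
import Pool.Agent.TH505.HF.Red5

/-! The union of two pieces, all cases. -/

set_option autoImplicit false

open Finset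

namespace Pool.Agent.TH505.HF

open Pool.Agent.TH505.OW (PM fc pa pb Rel pm_facts cut bd Ord mem_cut ord_card ord_perm)

variable {V E : Type} [Fintype E]

theorem tab_all (a b c k NA NB NT : ℕ) (gA gB gT : ℕ → ℕ) (PB hs : List ℕ) (hP : pb b c = PB)
    (hh : ∀ g < NB, g ∈ hs) (h : ∀ ρ ∈ PB, ∀ g2 ∈ hs, TabN a b c k NA NT gA gB gT ρ g2) :
    TabOK a b c k NA NB NT gA gB gT := by
  intro ρ hρ g2 hg2
  rw [hP] at hρ
  exact h ρ hρ g2 (hh g2 hg2)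

theorem ok331 : TabOK 3 3 1 4 1 1 7 g3 g3 g4 :=
  tab_all 3 3 1 4 1 1 7 g3 g3 g4 _ _ (by decide +kernel) (by decide) tab331

theorem ok431 : TabOK 4 3 1 5 7 1 99 g4 g3 g5 :=
  tab_all 4 3 1 5 7 1 99 g4 g3 g5 _ _ (by decide +kernel) (by decide) tab431

theorem ok432 : TabOK 4 3 2 3 7 1 1 g4 g3 g3 :=
  tab_all 4 3 2 3 7 1 1 g4 g3 g3 _ _ (by decide +kernel) (by decide) tab432

theorem ok442 : TabOK 4 4 2 4 7 7 7 g4 g4 g4 :=
  tab_all 4 4 2 4 7 7 7 g4 g4 g4 _ _ (by decide +kernel) (by decide) tab442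

theorem ok532 : TabOK 5 3 2 4 99 1 7 g5 g3 g4 :=
  tab_all 5 3 2 4 99 1 7 g5 g3 g4 _ _ (by decide +kernel) (by decide) tab532

theorem ok543 : TabOK 5 4 3 3 30 7 1 gc g4 g3 :=
  tab_all 5 4 3 3 30 7 1 gc g4 g3 _ _ (by decide +kernel) (by decide) tab543

/-- The piece `X` with `k` ends has all states of a set of the family. -/
def HasC (s t : E → V) (X : Set V) (k : ℕ) : Prop :=
  (k = 3 ∧ HasF s t X 3 1 g3) ∨ (k = 4 ∧ HasF s t X 4 7 g4) ∨ (k = 5 ∧ HasF s t X 5 99 g5)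

theorem join_le (s t : E → V) (X Y : Set V) (a b : ℕ) (hd : Disjoint X Y)
    (hX : HasC s t X a) (hY : HasC s t Y b) (hab : b ≤ a)
    (h3 : 3 ≤ (cut s t (X ∪ Y)).card) (h5 : (cut s t (X ∪ Y)).card ≤ 5) :
    HasC s t (X ∪ Y) (cut s t (X ∪ Y)).card := by
  have cX : (cut s t X).card = a ∧ a ≤ 5 ∧ 3 ≤ a := by
    rcases hX with ⟨rfl, h⟩ | ⟨rfl, h⟩ | ⟨rfl, h⟩ <;>
      exact ⟨hasF_card s t X _ _ _ h, by norm_num, by norm_num⟩
  have cY : (cut s t Y).card = b ∧ b ≤ 5 ∧ 3 ≤ b := by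
    rcases hY with ⟨rfl, h⟩ | ⟨rfl, h⟩ | ⟨rfl, h⟩ <;>
      exact ⟨hasF_card s t Y _ _ _ h, by norm_num, by norm_num⟩
  obtain ⟨c, hcb, hcard, hgeo⟩ := geo s t X Y a b hd cY.2.2 hab cX.2.1 cX.1 cY.1
  rw [hcard] at h3 h5 ⊢
  rcases hX with ⟨rfl, hX⟩ | ⟨rfl, hX⟩ | ⟨rfl, hX⟩
  · rcases hY with ⟨rfl, hY⟩ | ⟨rfl, hY⟩ | ⟨rfl, hY⟩
    · obtain rfl : c = 1 := by omega
      exact Or.inr (Or.inl ⟨rfl, use_tab s t X Y 3 3 1 4 1 1 7 g3 g3 g4 fam3 fam3 fam4 rfl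
        ok331 hgeo hX hY⟩)
    · omega
    · omega
  · rcases hY with ⟨rfl, hY⟩ | ⟨rfl, hY⟩ | ⟨rfl, hY⟩
    · rcases (show c = 1 ∨ c = 2 by omega) with rfl | rfl
      · exact Or.inr (Or.inr ⟨rfl, use_tab s t X Y 4 3 1 5 7 1 99 g4 g3 g5 fam4 fam3 fam5 rfl
          ok431 hgeo hX hY⟩)
      · exact Or.inl ⟨rfl, use_tab s t X Y 4 3 2 3 7 1 1 g4 g3 g3 fam4 fam3 fam3 rfl
          ok432 hgeo hX hY⟩
    · obtain rfl : c = 2 := by omega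
      exact Or.inr (Or.inl ⟨rfl, use_tab s t X Y 4 4 2 4 7 7 7 g4 g4 g4 fam4 fam4 fam4 rfl
        ok442 hgeo hX hY⟩)
    · omega
  · rcases hY with ⟨rfl, hY⟩ | ⟨rfl, hY⟩ | ⟨rfl, hY⟩
    · obtain rfl : c = 2 := by omega
      exact Or.inr (Or.inl ⟨rfl, use_tab s t X Y 5 3 2 4 99 1 7 g5 g3 g4 fam5 fam3 fam4 rfl
        ok532 hgeo hX hY⟩)
    · rcases (show c = 2 ∨ c = 3 by omega) with rfl | rfl
      · exact Or.inr (Or.inr ⟨rfl, use_tab s t X Y 5 4 2 5 99 7 99 g5 g4 g5 fam5 fam4 fam5 rfl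
          tab542 hgeo hX hY⟩)
      · exact Or.inl ⟨rfl, use_tab s t X Y 5 4 3 3 30 7 1 gc g4 g3 famc fam4 fam3 rfl
          ok543 hgeo (hasF_sub s t X 5 30 99 gc g5 famc red5 hX) hY⟩
    · obtain rfl : c = 3 := by omega
      exact Or.inr (Or.inl ⟨rfl, use_tab s t X Y 5 5 3 4 30 30 7 gc gc g4 famc famc fam4 rfl
        ok553 hgeo (hasF_sub s t X 5 30 99 gc g5 famc red5 hX)
          (hasF_sub s t Y 5 30 99 gc g5 famc red5 hY)⟩)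

theorem join (s t : E → V) (X Y : Set V) (a b : ℕ) (hd : Disjoint X Y)
    (hX : HasC s t X a) (hY : HasC s t Y b)
    (h3 : 3 ≤ (cut s t (X ∪ Y)).card) (h5 : (cut s t (X ∪ Y)).card ≤ 5) :
    HasC s t (X ∪ Y) (cut s t (X ∪ Y)).card := by
  rcases le_total b a with h | h
  · exact join_le s t X Y a b hd hX hY h h3 h5
  · rw [Set.union_comm] at h3 h5 ⊢
    exact join_le s t Y X b a hd.symm hY hX h h3 h5

theorem leafC (s t : E → V) (v : V) (h3 : 3 ≤ (cut s t {v}).card)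
    (h5 : (cut s t {v}).card ≤ 5) : HasC s t {v} (cut s t {v}).card := by
  rcases (show (cut s t {v}).card = 3 ∨ (cut s t {v}).card = 4 ∨ (cut s t {v}).card = 5 by omega)
    with h | h | h
  · rw [h]; exact Or.inl ⟨rfl, leaf s t v 3 1 g3 fam3 (by norm_num) h⟩
  · rw [h]; exact Or.inr (Or.inl ⟨rfl, leaf s t v 4 7 g4 fam4 (by norm_num) h⟩)
  · rw [h]; exact Or.inr (Or.inr ⟨rfl, leaf s t v 5 99 g5 fam5 (by norm_num) h⟩)

end Pool.Agent.TH505.HF
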