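import Pool.Agent.TH505.HF.Join
import Pool.Agent.TH505.HF.Full
import Pool.Agent.TH505.OW.Red

/-! Bridgeless graphs of carving width at most five, by cuts of size zero and two. -/

set_option autoImplicit false

open Finset

namespace Pool.Agent.TH505.HF

open Pool.Agent.TH505.OW (PM fc pa pb Rel pm_facts cut bd Ord mem_cut ord_card ord_perm Tr mg mg_in
  mg_out cut_mg dl dl_ne bd_dl size_pos prune W0 W2)

variable {V E : Type} [Fintype E]

theorem set_nonempty : ∀ U : Tr V, U.set.Nonempty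
  | .leaf v => ⟨v, rfl⟩
  | .node l _ => by
      obtain ⟨v, hv⟩ := set_nonempty l
      exact ⟨v, Or.inl hv⟩

theorem width_card (s t : E → V) (w : ℕ) (U : Tr V)
    (h : U.Width s t w) : (cut s t U.set).card ≤ w := by
  cases U with
  | leaf v => exact h
  | node l r => exact h.1

theorem keyT (s t : E → V) (A : Set V)
    (hC : ∀ Z : Set V, (∃ v ∈ A, v ∈ Z) → (∃ v ∈ A, v ∉ Z) → 3 ≤ (cut s t Z).card) :
    ∀ U : Tr V, U.Nodup → U.Width s t 5 → U.set ⊆ A → (∃ v ∈ A, v ∉ U.set) →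
      HasC s t U.set (cut s t U.set).card := by
  intro U
  induction U with
  | leaf v =>
      intro _ hW hA hv
      have h3 : 3 ≤ (cut s t (Tr.leaf v).set).card := by
        obtain ⟨w, hw⟩ := set_nonempty (Tr.leaf v)
        exact hC _ ⟨w, hA hw, hw⟩ hv
      have h5 := width_card s t 5 _ hW
      exact leafC s t v h3 h5
  | node l r ihl ihr =>
      intro hN hW hA hv
      have h3 : 3 ≤ (cut s t (Tr.node l r).set).card := by
        obtain ⟨w, hw⟩ := set_nonempty (Tr.node l r)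
        exact hC _ ⟨w, hA hw, hw⟩ hv
      have h5 := width_card s t 5 _ hW
      obtain ⟨v, hvA, hvU⟩ := hv
      have hvl : v ∉ l.set := fun h => hvU (Or.inl h)
      have hvr : v ∉ r.set := fun h => hvU (Or.inr h)
      have l1 := ihl hN.2.1 hW.2.1 (fun x hx => hA (Or.inl hx)) ⟨v, hvA, hvl⟩
      have r1 := ihr hN.2.2 hW.2.2 (fun x hx => hA (Or.inr hx)) ⟨v, hvA, hvr⟩
      exact join s t l.set r.set _ _ hN.1 l1 r1 h3 h5

theorem cut_compl (s t : E → V) (A Z Z' : Set V) (hE : ∀ e, s e ∈ A ∧ t e ∈ A)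
    (h : ∀ v ∈ A, v ∈ Z' ↔ v ∉ Z) : cut s t Z' = cut s t Z := by
  ext e
  rw [mem_cut, mem_cut, h _ (hE e).1, h _ (hE e).2]
  tauto

/-- The tree with the root at the vertex `u`. -/
theorem reroot (s t : E → V) (A : Set V) (hE : ∀ e, s e ∈ A ∧ t e ∈ A) (w : ℕ) (u : V) :
    ∀ (U O : Tr V), U.Nodup → O.Nodup → U.Width s t w → O.Width s t w →
    (∀ v, v ∈ A ↔ v ∈ U.set ∨ v ∈ O.set) → Disjoint U.set O.set → u ∈ U.set →
    ∃ R : Tr V, R.set = A \ {u} ∧ R.Nodup ∧ R.Width s t w := by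
  intro U
  induction U with
  | leaf v =>
    intro O _ hO _ wO hA hd hu
    have huv : u = v := hu
    subst huv
    refine ⟨O, ?_, hO, wO⟩
    ext z
    rw [Set.mem_sdiff, hA z, Set.mem_singleton_iff]
    constructor
    · intro hz
      exact ⟨Or.inr hz, fun h => Set.disjoint_left.1 hd (show u ∈ (Tr.leaf u).set from rfl)
        (h ▸ hz)⟩
    · rintro ⟨hz | hz, h⟩
      · exact absurd (show z = u from hz) h
      · exact hz
  | node l r ihl ihr =>
    intro O hU hO wU wO hA hd hu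
    have hdl : Disjoint l.set O.set := hd.mono_left Set.subset_union_left
    have hdr : Disjoint r.set O.set := hd.mono_left Set.subset_union_right
    have hlr := hU.1
    have dj : ∀ {P Q : Set V}, Disjoint P Q → ∀ v, v ∈ P → v ∉ Q :=
      fun h v hv => Set.disjoint_left.1 h hv
    rcases hu with hu | hu
    · refine ihl (.node O r) hU.2.1 ⟨hdr.symm, hO, hU.2.2⟩ wU.2.1 ⟨?_, wO, wU.2.2⟩ ?_ ?_ hu
      · have h := cut_compl s t A l.set (O.set ∪ r.set) hE (fun v hv => by
          have h1 := (hA v).1 hv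
          constructor
          · rintro (h2 | h2) h3
            · exact dj hdl v h3 h2
            · exact dj hlr v h3 h2
          · intro h2
            rcases h1 with (h1 | h1) | h1
            · exact absurd h1 h2
            · exact Or.inr h1
            · exact Or.inl h1)
        rw [h]
        exact width_card s t w l wU.2.1
      · intro v
        rw [hA v]
        constructor
        · rintro ((h | h) | h)
          · exact Or.inl h
          · exact Or.inr (Or.inr h)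
          · exact Or.inr (Or.inl h)
        · rintro (h | (h | h))
          · exact Or.inl (Or.inl h)
          · exact Or.inr h
          · exact Or.inl (Or.inr h)
      · exact Disjoint.union_right hdl hlr
    · refine ihr (.node O l) hU.2.2 ⟨hdl.symm, hO, hU.2.1⟩ wU.2.2 ⟨?_, wO, wU.2.1⟩ ?_ ?_ hu
      · have h := cut_compl s t A r.set (O.set ∪ l.set) hE (fun v hv => by
          have h1 := (hA v).1 hv
          constructor
          · rintro (h2 | h2) h3
            · exact dj hdr v h3 h2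
            · exact dj hlr v h2 h3
          · intro h2
            rcases h1 with (h1 | h1) | h1
            · exact Or.inr h1
            · exact absurd h1 h2
            · exact Or.inl h1)
        rw [h]
        exact width_card s t w r wU.2.2
      · intro v
        rw [hA v]
        constructor
        · rintro ((h | h) | h)
          · exact Or.inr (Or.inr h)
          · exact Or.inl h
          · exact Or.inr (Or.inl h)
        · rintro (h | (h | h))
          · exact Or.inl (Or.inr h)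
          · exact Or.inr h
          · exact Or.inl (Or.inl h)
      · exact Disjoint.union_right hdr hlr.symm

theorem total (s t : E → V) (φ : E → ℤ) (S : Finset V) (hs : ∀ e, s e ∈ S) (ht : ∀ e, t e ∈ S) :
    ∑ v ∈ S, bd s t φ v = 0 := by
  classical
  simp only [bd_dl]
  rw [Finset.sum_comm]
  refine Finset.sum_eq_zero fun e _ => ?_
  rw [← Finset.mul_sum, Finset.sum_sub_distrib]
  have h1 : ∀ a ∈ S, ∑ v ∈ S, dl a v = 1 := by
    intro a ha
    unfold dl
    rw [Finset.sum_ite_eq S a (fun _ => (1 : ℤ)), if_pos ha]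
  rw [h1 _ (hs e), h1 _ (ht e), sub_self, mul_zero]

theorem bd_loop (s t : E → V) (φ ψ : E → ℤ) (e0 : E) (h0 : s e0 = t e0)
    (h : ∀ e, e ≠ e0 → φ e = ψ e) (v : V) : bd s t φ v = bd s t ψ v := by
  rw [bd_dl, bd_dl]
  refine Finset.sum_congr rfl fun e _ => ?_
  by_cases he : e = e0
  · subst he
    rw [h0, sub_self, mul_zero, mul_zero]
  · rw [h e he]

theorem good_loop (s t : E → V) (X : Set V) (f : E → ℕ) (hf : Good s t f X) (e0 : E)
    (h0 : s e0 = t e0) (x : ℕ) (hx : x < 11) : ∃ f1, Good s t f1 X ∧ f1 e0 = x := by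
  classical
  refine ⟨fun e => if e = e0 then x else f e, ⟨fun e => ?_, fun v hv => ?_⟩, if_pos rfl⟩
  · dsimp only
    split_ifs
    · exact hx
    · exact hf.1 e
  · obtain ⟨h1, h2⟩ := hf.2 v hv
    rw [bd_loop s t (fun e => lv (if e = e0 then x else f e)) (fun e => lv (f e)) e0 h0
        (fun e he => by rw [if_neg he]) v,
      bd_loop s t (fun e => cc (if e = e0 then x else f e)) (fun e => cc (f e)) e0 h0
        (fun e he => by rw [if_neg he]) v]
    exact ⟨h1, h2⟩

theorem good_const (s t : E → V) (X : Set V) (h : ∀ e, s e = t e) : Good s t (fun _ => 3) X := by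
  refine ⟨fun _ => by norm_num, fun v _ => ?_⟩
  have : ∀ φ : E → ℤ, bd s t φ v = 0 := by
    intro φ
    rw [bd_dl]
    refine Finset.sum_eq_zero fun e _ => ?_
    rw [h e, sub_self, mul_zero]
  exact ⟨this _, by rw [this]; exact dvd_zero _⟩

/-- The states of all families contain all letters at all ends. -/
theorem fullC (s t : E → V) (X : Set V) (k : ℕ) (h : HasC s t X k) (e : E) (he : e ∈ cut s t X)
    (y : ℕ) (hy : y < 11) : ∃ f : E → ℕ, Good s t f X ∧ ov s X f e = y := by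
  have key : ∀ (k N : ℕ) (get : ℕ → ℕ), FullF k N get → HasF s t X k N get →
      ∃ f : E → ℕ, Good s t f X ∧ ov s X f e = y := by
    intro k N get hF hH
    obtain ⟨o, ho, g, hg, hS⟩ := hH
    obtain ⟨i, hi, rfl⟩ := (ho.2 e).1 he
    obtain ⟨x, hx, h1⟩ := hF g hg i hi y hy
    obtain ⟨f, hf, h2⟩ := hS x hx
    exact ⟨f, hf, by rw [h2 i hi, h1]⟩
  rcases h with ⟨-, h⟩ | ⟨-, h⟩ | ⟨-, h⟩
  · exact key 3 1 g3 full3 h
  · exact key 4 7 g4 full4 h
  · exact key 5 99 g5 full5 h

/-- Graphs without cuts of size less than three, edges with different ends. -/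
theorem three_aux (s t : E → V) (T : Tr V) (hN : T.Nodup) (hW : T.Width s t 5)
    (hE : ∀ e, s e ∈ T.set ∧ t e ∈ T.set)
    (hC : ∀ Z : Set V, (∃ v ∈ T.set, v ∈ Z) → (∃ v ∈ T.set, v ∉ Z) → 3 ≤ (cut s t Z).card)
    (e : E) (he : s e ≠ t e) (x : ℕ) (hx : x < 11) : ∃ f, Good s t f T.set ∧ f e = x := by
  classical
  obtain ⟨u, hu⟩ : ∃ u, u = s e := ⟨_, rfl⟩
  have huT : u ∈ T.set := by rw [hu]; exact (hE e).1
  obtain ⟨R, hR, nR, wR⟩ : ∃ R : Tr V, R.set = T.set \ {u} ∧ R.Nodup ∧ R.Width s t 5 := by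
    cases T with
    | leaf v =>
      exfalso
      have h1 : s e = v := (hE e).1
      have h2 : t e = v := (hE e).2
      exact he (h1.trans h2.symm)
    | node l r =>
      rcases huT with huT | huT
      · exact reroot s t (l.set ∪ r.set) hE 5 u l r hN.2.1 hN.2.2 hW.2.1 hW.2.2
          (fun _ => Iff.rfl) hN.1 huT
      · exact reroot s t (l.set ∪ r.set) hE 5 u r l hN.2.2 hN.2.1 hW.2.2 hW.2.1
          (fun _ => or_comm) hN.1.symm huT
  have huR : u ∉ R.set := by rw [hR]; exact fun h => h.2 rfl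
  have htR : t e ∈ R.set := by
    rw [hR]
    exact ⟨(hE e).2, fun h => he (by rw [← hu]; exact (Set.mem_singleton_iff.1 h).symm)⟩
  have h1 := keyT s t T.set hC R nR wR (by rw [hR]; exact Set.sdiff_subset) ⟨u, huT, huR⟩
  have hcut : e ∈ cut s t R.set := by
    rw [mem_cut, ← hu]
    exact fun h => huR (h.2 htR)
  obtain ⟨f, hf, hov⟩ := fullC s t R.set _ h1 e hcut (sw x) (sw_lt11 x hx)
  have hfe : f e = x := by
    unfold ov at hov
    rw [if_neg (by rw [← hu]; exact huR)] at hov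
    have h2 := congrArg sw hov
    have h3 := hf.1 e
    rw [(sw_sw _ (by omega)).1, (sw_sw _ (by omega)).1] at h2
    exact h2
  refine ⟨f, ⟨hf.1, ?_⟩, hfe⟩
  obtain ⟨S, hS⟩ : ∃ S : Finset V, S = (univ : Finset E).image s ∪ (univ : Finset E).image t :=
    ⟨_, rfl⟩
  have hs : ∀ e, s e ∈ S := fun e => by
    rw [hS, Finset.mem_union]; exact Or.inl (Finset.mem_image_of_mem s (Finset.mem_univ e))
  have ht : ∀ e, t e ∈ S := fun e => by
    rw [hS, Finset.mem_union]; exact Or.inr (Finset.mem_image_of_mem t (Finset.mem_univ e))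
  have hST : ∀ v ∈ S, v ∈ T.set := by
    intro v hv
    rw [hS, Finset.mem_union, Finset.mem_image, Finset.mem_image] at hv
    rcases hv with ⟨e', -, rfl⟩ | ⟨e', -, rfl⟩
    · exact (hE e').1
    · exact (hE e').2
  have huS : u ∈ S := by rw [hu]; exact hs e
  have hother : ∀ v ∈ S, v ≠ u → v ∈ R.set := fun v hv hvu => by
    rw [hR]; exact ⟨hST v hv, hvu⟩
  intro v hv
  by_cases hvu : v = u
  · subst hvu
    constructor
    · have h2 := total s t (fun e => lv (f e)) S hs ht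
      rw [Finset.sum_eq_single_of_mem v huS (fun z hz hzv => (hf.2 z (hother z hz hzv)).1)] at h2
      exact h2
    · have h2 := total s t (fun e => cc (f e)) S hs ht
      rw [← Finset.add_sum_erase S _ huS] at h2
      have h3 : (2 : ℤ) ∣ ∑ z ∈ S.erase v, bd s t (fun e => cc (f e)) z :=
        Finset.dvd_sum fun z hz =>
          (hf.2 z (hother z (Finset.mem_of_mem_erase hz) (Finset.ne_of_mem_erase hz))).2
      have h4 : bd s t (fun e => cc (f e)) v = - ∑ z ∈ S.erase v, bd s t (fun e => cc (f e)) z := by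
        linarith
      rw [h4]
      exact (dvd_neg).2 h3
  · exact hf.2 v (by rw [hR]; exact ⟨hv, hvu⟩)

theorem three (s t : E → V) (T : Tr V) (hN : T.Nodup) (hW : T.Width s t 5)
    (hE : ∀ e, s e ∈ T.set ∧ t e ∈ T.set)
    (hC : ∀ Z : Set V, (∃ v ∈ T.set, v ∈ Z) → (∃ v ∈ T.set, v ∉ Z) → 3 ≤ (cut s t Z).card)
    (e : E) (x : ℕ) (hx : x < 11) : ∃ f, Good s t f T.set ∧ f e = x := by
  by_cases he : s e = t e
  · obtain ⟨f, hf⟩ : ∃ f, Good s t f T.set := by
      by_cases hex : ∃ e', s e' ≠ t e'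
      · obtain ⟨e', he'⟩ := hex
        obtain ⟨f, hf, -⟩ := three_aux s t T hN hW hE hC e' he' 0 (by norm_num)
        exact ⟨f, hf⟩
      · push Not at hex
        exact ⟨_, good_const s t _ hex⟩
    exact good_loop s t _ f hf e he x hx
  · exact three_aux s t T hN hW hE hC e he x hx

/-! cuts of size zero and two -/

theorem bd0 (s t : E → V) (X : Set V) (u : V) (h0 : ∀ e, s e ∈ X ↔ t e ∈ X) (φ ψ : E → ℤ)
    (hf : ∀ e, s e ∈ X → φ e = ψ e) (v : V) (hv : v ∈ X) :
    bd s t φ v = bd (mg X u ∘ s) (mg X u ∘ t) ψ v := by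
  rw [bd_dl, bd_dl]
  refine Finset.sum_congr rfl fun e _ => ?_
  simp only [Function.comp_apply]
  by_cases hs : s e ∈ X
  · have ht := (h0 e).1 hs
    rw [mg_in hs, mg_in ht, hf e hs]
  · have ht : t e ∉ X := fun h => hs ((h0 e).2 h)
    rw [mg_out hs, mg_out ht, dl_ne (fun h : s e = v => hs (h ▸ hv)),
      dl_ne (fun h : t e = v => ht (h ▸ hv)), sub_self, sub_self, mul_zero, mul_zero]

open Classical in
theorem bd2 (s t : E → V) (X : Set V) (e0 f0 : E) (u w u' w' : V) (hne : e0 ≠ f0)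
    (hu : u ∈ X) (hw : w ∉ X) (hu' : u' ∈ X) (hw' : w' ∉ X)
    (he0 : (s e0 = u ∧ t e0 = w) ∨ (s e0 = w ∧ t e0 = u))
    (hf0 : (s f0 = u' ∧ t f0 = w') ∨ (s f0 = w' ∧ t f0 = u'))
    (hoth : ∀ e, e ≠ e0 → e ≠ f0 → (s e ∈ X ↔ t e ∈ X)) (φ ψ : E → ℤ)
    (hf : ∀ e, e ≠ e0 → e ≠ f0 → s e ∈ X → φ e = ψ e)
    (hfe : φ e0 = if (s e0 ∈ X ↔ s f0 ∈ X) then - ψ f0 else ψ f0)
    (hff : φ f0 = ψ f0) (v : V) (hv : v ∈ X) :
    bd s t φ v = bd (mg X u ∘ s) (mg X u ∘ t) ψ v := by
  rw [← sub_eq_zero, bd_dl, bd_dl, ← Finset.sum_sub_distrib, Fintype.sum_eq_add e0 f0 hne]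
  · have hwv : w ≠ v := fun h => hw (h ▸ hv)
    have hwv' : w' ≠ v := fun h => hw' (h ▸ hv)
    simp only [Function.comp_apply, hfe, hff]
    rcases he0 with ⟨h2, h3⟩ | ⟨h2, h3⟩ <;> rcases hf0 with ⟨h4, h5⟩ | ⟨h4, h5⟩ <;>
      rw [h2, h3, h4, h5, mg_in hu, mg_out hw, mg_in hu', mg_out hw', dl_ne hwv, dl_ne hwv']
    · rw [if_pos (iff_of_true hu hu')]; ring
    · rw [if_neg (fun h => hw' (h.1 hu))]; ring
    · rw [if_neg (fun h => hw (h.2 hu'))]; ring
    · rw [if_pos (iff_of_false hw hw')]; ring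
  · rintro e ⟨h1, h2⟩
    rw [sub_eq_zero]
    simp only [Function.comp_apply]
    by_cases hs : s e ∈ X
    · have ht := (hoth e h1 h2).1 hs
      rw [mg_in hs, mg_in ht, hf e h1 h2 hs]
    · have ht : t e ∉ X := fun h => hs ((hoth e h1 h2).2 h)
      rw [mg_out hs, mg_out ht, dl_ne (fun h : s e = v => hs (h ▸ hv)),
        dl_ne (fun h : t e = v => ht (h ▸ hv)), sub_self, sub_self, mul_zero, mul_zero]

theorem bd_change (s t : E → V) (φ ψ : E → ℤ) (e0 : E) (h : ∀ e, e ≠ e0 → φ e = ψ e)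
    (h0 : (2 : ℤ) ∣ φ e0 - ψ e0) (v : V) : (2 : ℤ) ∣ bd s t φ v - bd s t ψ v := by
  rw [bd_dl, bd_dl, ← Finset.sum_sub_distrib]
  refine Finset.dvd_sum fun e _ => ?_
  rw [← sub_mul]
  by_cases he : e = e0
  · subst he
    exact dvd_mul_of_dvd_left h0 _
  · rw [h e he, sub_self, zero_mul]
    exact dvd_zero _

open Classical in
/-- The flow on the side `X` of a cut of size two. -/
theorem side (s t : E → V) (X : Set V) (e0 f0 : E) (u w u' w' : V) (hne : e0 ≠ f0)
    (hu : u ∈ X) (hw : w ∉ X) (hu' : u' ∈ X) (hw' : w' ∉ X)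
    (he0 : (s e0 = u ∧ t e0 = w) ∨ (s e0 = w ∧ t e0 = u))
    (hf0 : (s f0 = u' ∧ t f0 = w') ∨ (s f0 = w' ∧ t f0 = u'))
    (hoth : ∀ e, e ≠ e0 → e ≠ f0 → (s e ∈ X ↔ t e ∈ X)) (f f1 : E → ℕ)
    (hf : ∀ e, e ≠ e0 → e ≠ f0 → s e ∈ X → f e = f1 e) (hf11 : f1 f0 < 11)
    (hfe : f e0 = if (s e0 ∈ X ↔ s f0 ∈ X) then sw (f1 f0) else f1 f0)
    (hff : f f0 = f1 f0) (v : V) (hv : v ∈ X)
    (h1 : bd (mg X u ∘ s) (mg X u ∘ t) (fun e => lv (f1 e)) v = 0 ∧
      (2 : ℤ) ∣ bd (mg X u ∘ s) (mg X u ∘ t) (fun e => cc (f1 e)) v) :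
    bd s t (fun e => lv (f e)) v = 0 ∧ (2 : ℤ) ∣ bd s t (fun e => cc (f e)) v := by
  constructor
  · rw [bd2 s t X e0 f0 u w u' w' hne hu hw hu' hw' he0 hf0 hoth (fun e => lv (f e))
      (fun e => lv (f1 e)) (fun e h2 h3 h4 => by rw [hf e h2 h3 h4]) ?_ (by rw [hff]) v hv]
    · exact h1.1
    · rw [hfe]
      split_ifs
      · exact lv_sw _ hf11
      · rfl
  · obtain ⟨φ, hφ⟩ : ∃ φ : E → ℤ, φ = fun e => if e = e0 then
        (if (s e0 ∈ X ↔ s f0 ∈ X) then - cc (f1 f0) else cc (f1 f0)) else cc (f e) := ⟨_, rfl⟩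
    have h2 : bd s t φ v = bd (mg X u ∘ s) (mg X u ∘ t) (fun e => cc (f1 e)) v :=
      bd2 s t X e0 f0 u w u' w' hne hu hw hu' hw' he0 hf0 hoth φ
        (fun e => cc (f1 e)) (fun e h2 h3 h4 => by
          rw [hφ]; dsimp only; rw [if_neg h2, hf e h2 h3 h4])
        (by rw [hφ]; dsimp only; rw [if_pos rfl])
        (by rw [hφ]; dsimp only; rw [if_neg hne.symm, hff]) v hv
    have h3 := bd_change s t (fun e => cc (f e)) φ e0
      (fun e he => by rw [hφ]; dsimp only; rw [if_neg he]) (by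
        rw [hφ]
        dsimp only
        rw [if_pos rfl, hfe]
        split_ifs
        · rw [cc_sw _ hf11]; exact ⟨cc (f1 f0), by ring⟩
        · rw [sub_self]; exact dvd_zero _) v
    rw [h2] at h3
    have h4 := dvd_add h3 h1.2
    rw [sub_add_cancel] at h4
    exact h4

theorem main_ind : ∀ (m : ℕ) (s t : E → V) (T : Tr V), T.size ≤ m → T.Nodup → T.Width s t 5 →
    (∀ e, s e ∈ T.set ∧ t e ∈ T.set) → (∀ Z : Set V, (cut s t Z).card ≠ 1) →
    ∀ (e : E) (x : ℕ), x < 11 → ∃ f : E → ℕ, Good s t f T.set ∧ f e = x := by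
  classical
  intro m
  induction m with
  | zero =>
    intro s t T hT
    have := size_pos T
    omega
  | succ m ih =>
    intro s t T hT hN hW hE hbr e x hx
    by_cases hsp : ∀ Z : Set V, (∃ v ∈ T.set, v ∈ Z) → (∃ v ∈ T.set, v ∉ Z) →
        3 ≤ (cut s t Z).card
    · exact three s t T hN hW hE hsp e x hx
    push Not at hsp
    obtain ⟨X, hX1, hX2, hX3⟩ := hsp
    have half : ∀ (Y : Set V) (u : V), u ∈ Y → u ∈ T.set → (∃ v ∈ T.set, v ∉ Y) →
        (∀ B : Set V, (cut (mg Y u ∘ s) (mg Y u ∘ t) (B ∩ Y)).card ≤ (cut s t B).card) →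
        ∀ (e : E) (x : ℕ), x < 11 →
        ∃ f1 : E → ℕ, Good (mg Y u ∘ s) (mg Y u ∘ t) f1 (T.set ∩ Y) ∧ f1 e = x := by
      intro Y u hu huT hex hWY e x hx
      obtain ⟨T1, a1, a2, a3, -, a5⟩ := prune s t _ _ Y hWY 5 T hN hW ⟨u, huT, hu⟩
      have hlt := a5 hex
      obtain ⟨f1, hf1, hf2⟩ := ih (mg Y u ∘ s) (mg Y u ∘ t) T1 (by omega) a2 a3 (fun e => by
        rw [a1]
        have hm : ∀ z ∈ T.set, mg Y u z ∈ T.set ∩ Y := by
          intro z hz
          by_cases h : z ∈ Y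
          · rw [mg_in h]; exact ⟨hz, h⟩
          · rw [mg_out h]; exact ⟨huT, hu⟩
        exact ⟨hm _ (hE e).1, hm _ (hE e).2⟩) (fun Z => by
        rw [cut_mg]
        exact hbr _) e x hx
      rw [a1] at hf1
      exact ⟨f1, hf1, hf2⟩
    have h012 : (cut s t X).card = 0 ∨ (cut s t X).card = 2 := by
      have := hbr X
      omega
    rcases h012 with h0 | h2
    · rw [Finset.card_eq_zero] at h0
      have h0' : ∀ e, s e ∈ X ↔ t e ∈ X := by
        intro e
        by_contra h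
        have := (mem_cut s t X e).2 h
        rw [h0] at this
        exact Finset.notMem_empty e this
      have h0'' : ∀ e, s e ∈ Xᶜ ↔ t e ∈ Xᶜ := fun e => not_congr (h0' e)
      obtain ⟨a, haT, haX⟩ := hX1
      obtain ⟨b, hbT, hbX⟩ := hX2
      obtain ⟨f1, hf1, hx1⟩ := half X a haX haT ⟨b, hbT, hbX⟩ (W0 s t X a h0') e x hx
      obtain ⟨f2, hf2, hx2⟩ := half Xᶜ b hbX hbT ⟨a, haT, fun h => h haX⟩ (W0 s t Xᶜ b h0'') e x hx
      refine ⟨fun e => if s e ∈ X then f1 e else f2 e, ⟨fun e => ?_, fun v hv => ?_⟩, ?_⟩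
      · dsimp only
        split_ifs
        · exact hf1.1 e
        · exact hf2.1 e
      · by_cases hvX : v ∈ X
        · rw [bd0 s t X a h0' (fun e => lv (if s e ∈ X then f1 e else f2 e)) (fun e => lv (f1 e))
            (fun e he => by rw [if_pos he]) v hvX,
            bd0 s t X a h0' (fun e => cc (if s e ∈ X then f1 e else f2 e)) (fun e => cc (f1 e))
            (fun e he => by rw [if_pos he]) v hvX]
          exact hf1.2 v ⟨hv, hvX⟩
        · rw [bd0 s t Xᶜ b h0'' (fun e => lv (if s e ∈ X then f1 e else f2 e))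
            (fun e => lv (f2 e)) (fun e he => by rw [if_neg he]) v hvX,
            bd0 s t Xᶜ b h0'' (fun e => cc (if s e ∈ X then f1 e else f2 e))
            (fun e => cc (f2 e)) (fun e he => by rw [if_neg he]) v hvX]
          exact hf2.2 v ⟨hv, hvX⟩
      · dsimp only
        split_ifs
        · exact hx1
        · exact hx2
    · obtain ⟨e0, f0, hne, hcut⟩ := Finset.card_eq_two.1 h2
      have ends : ∀ e ∈ cut s t X, ∃ u w, u ∈ X ∧ w ∉ X ∧
          ((s e = u ∧ t e = w) ∨ (s e = w ∧ t e = u)) := by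
        intro e he
        rw [mem_cut] at he
        by_cases hs : s e ∈ X
        · exact ⟨s e, t e, hs, fun h => he ⟨fun _ => h, fun _ => hs⟩, Or.inl ⟨rfl, rfl⟩⟩
        · have ht : t e ∈ X := by
            by_contra h
            exact he ⟨fun h' => absurd h' hs, fun h' => absurd h' h⟩
          exact ⟨t e, s e, ht, hs, Or.inr ⟨rfl, rfl⟩⟩
      obtain ⟨u, w, hu, hw, he0⟩ := ends e0 (by rw [hcut]; simp)
      obtain ⟨u', w', hu', hw', hf0⟩ := ends f0 (by rw [hcut]; simp)
      have hoth : ∀ e, e ≠ e0 → e ≠ f0 → (s e ∈ X ↔ t e ∈ X) := by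
        intro e h1 h2'
        by_contra h
        have := (mem_cut s t X e).2 h
        rw [hcut, Finset.mem_insert, Finset.mem_singleton] at this
        exact this.elim h1 h2'
      have hoth' : ∀ e, e ≠ e0 → e ≠ f0 → (s e ∈ Xᶜ ↔ t e ∈ Xᶜ) :=
        fun e h1 h2' => not_congr (hoth e h1 h2')
      have huT : u ∈ T.set := by
        rcases he0 with ⟨h4, _⟩ | ⟨_, h4⟩ <;> rw [← h4]
        · exact (hE e0).1
        · exact (hE e0).2
      have hwT : w ∈ T.set := by
        rcases he0 with ⟨_, h4⟩ | ⟨h4, _⟩ <;> rw [← h4]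
        · exact (hE e0).2
        · exact (hE e0).1
      have half1 := half X u hu huT hX2
        (W2 s t X e0 f0 u w u' w' hu hw hu' hw' he0 hf0 hoth hbr)
      have half2 := half Xᶜ w hw hwT ⟨u, huT, fun h => h hu⟩
        (W2 s t Xᶜ e0 f0 w u w' u' hw (fun h => h hu) hw' (fun h => h hu') he0.symm hf0.symm
          hoth' hbr)
      obtain ⟨f1, f2, hf1, hf2, hff, hval⟩ : ∃ f1 f2 : E → ℕ,
          Good (mg X u ∘ s) (mg X u ∘ t) f1 (T.set ∩ X) ∧
          Good (mg Xᶜ w ∘ s) (mg Xᶜ w ∘ t) f2 (T.set ∩ Xᶜ) ∧ f2 f0 = f1 f0 ∧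
          (if e = e0 then (if (s e0 ∈ X ↔ s f0 ∈ X) then sw (f1 f0) else f1 f0)
            else if e = f0 then f1 f0 else if s e ∈ X then f1 e else f2 e) = x := by
        by_cases h1 : e = e0
        · obtain ⟨c, hc, hcx⟩ : ∃ c < 11,
              (if (s e0 ∈ X ↔ s f0 ∈ X) then sw c else c) = x := by
            split_ifs
            · exact ⟨sw x, sw_lt11 x hx, (sw_sw x (by omega)).1⟩
            · exact ⟨x, hx, rfl⟩
          obtain ⟨f1, hf1, hx1⟩ := half1 f0 c hc
          obtain ⟨f2, hf2, hx2⟩ := half2 f0 c hc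
          exact ⟨f1, f2, hf1, hf2, by rw [hx1, hx2], by rw [if_pos h1, hx1]; exact hcx⟩
        · by_cases h3 : e = f0
          · obtain ⟨f1, hf1, hx1⟩ := half1 f0 x hx
            obtain ⟨f2, hf2, hx2⟩ := half2 f0 x hx
            exact ⟨f1, f2, hf1, hf2, by rw [hx1, hx2], by rw [if_neg h1, if_pos h3, hx1]⟩
          · by_cases h4 : s e ∈ X
            · obtain ⟨f1, hf1, hx1⟩ := half1 e x hx
              obtain ⟨f2, hf2, hx2⟩ := half2 f0 (f1 f0) (hf1.1 f0)
              exact ⟨f1, f2, hf1, hf2, hx2, by rw [if_neg h1, if_neg h3, if_pos h4, hx1]⟩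
            · obtain ⟨f2, hf2, hx2⟩ := half2 e x hx
              obtain ⟨f1, hf1, hx1⟩ := half1 f0 (f2 f0) (hf2.1 f0)
              exact ⟨f1, f2, hf1, hf2, hx1.symm, by rw [if_neg h1, if_neg h3, if_neg h4, hx2]⟩
      refine ⟨fun e => if e = e0 then (if (s e0 ∈ X ↔ s f0 ∈ X) then sw (f1 f0) else f1 f0)
        else if e = f0 then f1 f0 else if s e ∈ X then f1 e else f2 e,
        ⟨fun e => ?_, fun v hv => ?_⟩, hval⟩
      · dsimp only
        split_ifs
        · exact sw_lt11 _ (hf1.1 f0)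
        · exact hf1.1 f0
        · exact hf1.1 f0
        · exact hf1.1 e
        · exact hf2.1 e
      · by_cases hvX : v ∈ X
        · exact side s t X e0 f0 u w u' w' hne hu hw hu' hw' he0 hf0 hoth _ f1
            (fun e h1 h2' hs => by rw [if_neg h1, if_neg h2', if_pos hs]) (hf1.1 f0)
            (if_pos rfl) (by rw [if_neg hne.symm, if_pos rfl]) v hvX
            (hf1.2 v ⟨hv, hvX⟩)
        · exact side s t Xᶜ e0 f0 w u w' u' hne hw (fun h => h hu) hw' (fun h => h hu') he0.symm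
            hf0.symm hoth' _ f2 (fun e h1 h2' hs => by
            rw [if_neg h1, if_neg h2', if_neg hs]) (hf2.1 f0) (by
            rw [if_pos rfl, hff]
            simp only [Set.mem_compl_iff, not_iff_not]) (by
            rw [if_neg hne.symm, if_pos rfl, hff]) v hvX (hf2.2 v ⟨hv, hvX⟩)

/-- A bridgeless graph of carving width at most five has a flow by letters with a given letter at a
given edge. -/
theorem main (s t : E → V) (T : Tr V) (hT : T.set = Set.univ)
    (hN : T.Nodup) (hW : T.Width s t 5) (hbr : ∀ Z : Set V, (cut s t Z).card ≠ 1) (e : E) (x : ℕ)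
    (hx : x < 11) : ∃ f : E → ℕ, Good s t f Set.univ ∧ f e = x := by
  have h := main_ind T.size s t T le_rfl hN hW
    (fun e => by rw [hT]; exact ⟨Set.mem_univ _, Set.mem_univ _⟩) hbr e x hx
  rw [hT] at h
  exact h

end Pool.Agent.TH505.HF
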