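import Pool.Agent.TH505.HF.Bas

/-! Digits, weights and permutations of codes. -/

set_option autoImplicit false

open Finset

namespace Pool.Agent.TH505.HF

open Pool.Agent.TH505.OW (PM fc pa pb Rel pm_facts)

theorem fr_eq (n : ℕ) (f : ℕ → ℕ) : fr n f = f n := by cases n <;> rfl

theorem frL_eq (n : ℕ) (f : ℕ → List ℕ) : frL n f = f n := by cases n <;> rfl

theorem dg_eq (n i : ℕ) : dg n i = n / 16 ^ i % 16 := by
  show (n >>> (4 * i)) % 16 = _
  rw [Nat.shiftRight_eq_div_pow, pow_mul]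
  norm_num

theorem dg_lt (n i : ℕ) : dg n i < 16 := by
  rw [dg_eq]
  exact Nat.mod_lt _ (by norm_num)

theorem p3_eq (f g h : ℕ → ℕ) (r : ℕ) :
    p3 f g h r = f (r % 256) + g (r / 256 % 16) + h (r / 4096) := by
  unfold p3
  rw [fr_eq, fr_eq, fr_eq]
  rfl

theorem ws_eq (n t : ℕ) : ws n t = ∑ i ∈ range n, wl (dg t i) := by
  induction n with
  | zero => rfl
  | succ n ih =>
    rw [Finset.sum_range_succ, ← ih]
    rfl

theorem dg_lo (r i : ℕ) (hi : i < 2) : dg (r % 256) i = dg r i := by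
  rw [dg_eq, dg_eq]
  interval_cases i
  · omega
  · omega

theorem dg_hi (r i : ℕ) : dg (r / 4096) i = dg r (3 + i) := by
  rw [dg_eq, dg_eq, pow_add, Nat.div_div_eq_div_mul]
  norm_num

theorem dg_mid (r : ℕ) : r / 256 % 16 = dg r 2 := by
  rw [dg_eq]
  norm_num

theorem dg_zero' (r : ℕ) (h : r < 16) : dg r 0 = r := by
  rw [dg_eq]
  omega

theorem wk_eq (k : ℕ) (hk : 3 ≤ k) (r : ℕ) : wk k r = ∑ i ∈ range k, wl (dg r i) := by
  unfold wk
  rw [p3_eq, ws_eq, ws_eq, dg_mid]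
  obtain ⟨j, rfl⟩ : ∃ j, k = 3 + j := ⟨k - 3, by omega⟩
  have h1 : Nat.sub (3 + j) 3 = j := by
    show 3 + j - 3 = j
    omega
  rw [h1, Finset.sum_range_add (fun i => wl (dg r i)) 3 j]
  simp only [dg_hi]
  congr 1
  rw [Finset.sum_range_succ, Finset.sum_range_succ, Finset.sum_range_zero,
    Finset.sum_range_succ, Finset.sum_range_succ, Finset.sum_range_succ, Finset.sum_range_zero,
    dg_lo r 0 (by norm_num), dg_lo r 1 (by norm_num)]

theorem ap_eq (k τ j n t : ℕ) :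
    ap k τ j n t = ∑ i ∈ range n, dg t i * 16 ^ PM k τ (j + i) := by
  induction n with
  | zero => rfl
  | succ n ih =>
    rw [Finset.sum_range_succ, ← ih]
    show ap k τ j n t + (dg t n) <<< (4 * PM k τ (j + n)) = _
    rw [Nat.shiftLeft_eq, pow_mul]
    norm_num

theorem ad_eq (k τ r : ℕ) (hk : 3 ≤ k) :
    ad k τ r = ∑ i ∈ range k, dg r i * 16 ^ PM k τ i := by
  unfold ad
  rw [p3_eq, ap_eq, ap_eq, ap_eq]
  obtain ⟨j, rfl⟩ : ∃ j, k = 3 + j := ⟨k - 3, by omega⟩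
  have h1 : Nat.sub (3 + j) 3 = j := by
    show 3 + j - 3 = j
    omega
  rw [h1, Finset.sum_range_add (fun i => dg r i * 16 ^ PM (3 + j) τ i) 3 j]
  simp only [dg_hi]
  congr 1
  have h2 : r / 256 % 16 < 16 := Nat.mod_lt _ (by norm_num)
  rw [Finset.sum_range_succ, Finset.sum_range_succ, Finset.sum_range_zero,
    Finset.sum_range_succ, Finset.sum_range_zero,
    Finset.sum_range_succ, Finset.sum_range_succ, Finset.sum_range_succ, Finset.sum_range_zero,
    dg_lo r 0 (by norm_num), dg_lo r 1 (by norm_num), dg_zero' _ h2, dg_mid]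
  simp only [zero_add, add_zero]

theorem ng_eq (k r : ℕ) : ng k r = ∑ i ∈ range k, sw (dg r i) * 16 ^ i := by
  induction k with
  | zero => rfl
  | succ n ih =>
    rw [Finset.sum_range_succ, ← ih]
    show ng n r + (sw (dg r n)) <<< (4 * n) = _
    rw [Nat.shiftLeft_eq, pow_mul]
    norm_num

theorem sum_lt (n : ℕ) (e : ℕ → ℕ) (he : ∀ i < n, e i < 16) :
    ∑ j ∈ range n, e j * 16 ^ j < 16 ^ n := by
  induction n with
  | zero => simp
  | succ n ih =>
    rw [Finset.sum_range_succ, pow_succ]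
    have h1 := ih (fun i hi => he i (by omega))
    have h2 := he n (by omega)
    have h3 : e n * 16 ^ n ≤ 15 * 16 ^ n := Nat.mul_le_mul_right _ (by omega)
    omega

theorem dg_sum (n : ℕ) (e : ℕ → ℕ) (he : ∀ i < n, e i < 16) (i : ℕ) (hi : i < n) :
    dg (∑ j ∈ range n, e j * 16 ^ j) i = e i := by
  rw [dg_eq]
  induction n with
  | zero => omega
  | succ n ih =>
    rw [Finset.sum_range_succ]
    have h1 := sum_lt n e (fun i hi => he i (by omega))
    by_cases h : i = n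
    · subst h
      rw [Nat.add_mul_div_right _ _ (by positivity), Nat.div_eq_of_lt h1, zero_add]
      exact Nat.mod_eq_of_lt (he i hi)
    · have h2 := ih (fun i hi => he i (by omega)) (by omega)
      obtain ⟨j, rfl⟩ : ∃ j, n = i + 1 + j := ⟨n - i - 1, by omega⟩
      have h3 : e (i + 1 + j) * 16 ^ (i + 1 + j) = 16 ^ i * (16 * (e (i + 1 + j) * 16 ^ j)) := by
        rw [pow_add, pow_add]; ring
      rw [h3, Nat.add_mul_div_left _ _ (by positivity), Nat.add_mul_mod_self_left, h2]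

theorem dg_ext (k r r' : ℕ) (h1 : r < 16 ^ k) (h2 : r' < 16 ^ k)
    (h : ∀ i < k, dg r i = dg r' i) : r = r' := by
  induction k generalizing r r' with
  | zero => omega
  | succ n ih =>
    have h0 := h 0 (by omega)
    rw [dg_eq, dg_eq] at h0
    have h3 : r / 16 = r' / 16 := by
      refine ih _ _ ?_ ?_ ?_
      · rw [Nat.div_lt_iff_lt_mul (by norm_num)]; rwa [pow_succ] at h1
      · rw [Nat.div_lt_iff_lt_mul (by norm_num)]; rwa [pow_succ] at h2
      · intro i hi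
        have h4 := h (i + 1) (by omega)
        rw [dg_eq, dg_eq, pow_succ', ← Nat.div_div_eq_div_mul, ← Nat.div_div_eq_div_mul] at h4
        rw [dg_eq, dg_eq]
        exact h4
    omega

theorem sw_all : ((List.range 16).all fun c => Nat.beq (sw (sw c)) c && Nat.ble (sw c + 1) 16) =
    true := by decide +kernel

theorem sw_sw (c : ℕ) (hc : c < 16) : sw (sw c) = c ∧ sw c < 16 := by
  have h := (List.all_eq_true.1 sw_all) c (List.mem_range.2 hc)
  rw [Bool.and_eq_true, Nat.ble_eq] at h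
  exact ⟨Nat.eq_of_beq_eq_true h.1, by omega⟩

theorem dg_ng (k r i : ℕ) (hi : i < k) : dg (ng k r) i = sw (dg r i) := by
  rw [ng_eq]
  exact dg_sum k _ (fun j _ => (sw_sw _ (dg_lt r j)).2) i hi

theorem ng_lt (k r : ℕ) : ng k r < 16 ^ k := by
  rw [ng_eq]
  exact sum_lt k _ (fun j _ => (sw_sw _ (dg_lt r j)).2)

theorem ng_ng (k r : ℕ) (h : r < 16 ^ k) : ng k (ng k r) = r := by
  refine dg_ext k _ _ (ng_lt _ _) h fun i hi => ?_
  rw [dg_ng k _ i hi, dg_ng k _ i hi, (sw_sw _ (dg_lt r i)).1]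

theorem ad_facts (k τ r : ℕ) (h3 : 3 ≤ k) (h5 : k ≤ 5) (hτ : τ < fc k) :
    ad k τ r < 16 ^ k ∧ ∀ i < k, dg (ad k τ r) (PM k τ i) = dg r i := by
  have hk : Rel k := by unfold Pool.Agent.TH505.OW.Rel; omega
  obtain ⟨p1, p2, p3⟩ := pm_facts k hk τ hτ
  choose! q hq1 hq2 using p3
  have hqp : ∀ i < k, q (PM k τ i) = i := fun i hi =>
    p2 _ (hq1 _ (p1 i hi)) _ hi (hq2 _ (p1 i hi))
  have h : ad k τ r = ∑ i ∈ range k, dg r (q i) * 16 ^ i := by
    rw [ad_eq k τ r h3]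
    refine Finset.sum_nbij' (PM k τ) q ?_ ?_ ?_ ?_ ?_
    · intro i hi; rw [mem_range] at hi ⊢; exact p1 i hi
    · intro i hi; rw [mem_range] at hi ⊢; exact hq1 i hi
    · intro i hi; rw [mem_range] at hi; exact hqp i hi
    · intro i hi; rw [mem_range] at hi; exact hq2 i hi
    · intro i hi; rw [mem_range] at hi; rw [hqp i hi]
  rw [h]
  refine ⟨sum_lt k _ (fun j _ => dg_lt r _), fun i hi => ?_⟩
  rw [dg_sum k _ (fun j _ => dg_lt r _) _ (p1 i hi), hqp i hi]

theorem ad_ng (k τ r : ℕ) (h3 : 3 ≤ k) (h5 : k ≤ 5) (hτ : τ < fc k) :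
    ad k τ (ng k r) = ng k (ad k τ r) := by
  have hk : Rel k := by unfold Pool.Agent.TH505.OW.Rel; omega
  obtain ⟨p1, p2, p3⟩ := pm_facts k hk τ hτ
  obtain ⟨a1, a2⟩ := ad_facts k τ r h3 h5 hτ
  obtain ⟨b1, b2⟩ := ad_facts k τ (ng k r) h3 h5 hτ
  refine dg_ext k _ _ b1 (ng_lt _ _) fun i hi => ?_
  obtain ⟨j, hj, rfl⟩ := p3 i hi
  rw [b2 j hj, dg_ng k _ _ hi, a2 j hj, dg_ng k _ _ hj]

end Pool.Agent.TH505.HF
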