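import Pool.Agent.TH505.HF.Val

/-! Soundness of the check of the gluings. -/

set_option autoImplicit false

open Finset

namespace Pool.Agent.TH505.HF

open Pool.Agent.TH505.OW (PM fc pa pb Rel pm_facts)

theorem mem_fl (get : ℕ → ℕ) (g : ℕ) (l : List ℕ) (x : ℕ) (hx : x ∈ l)
    (h : (get x).testBit g = true) : x ∈ fl get g l := by
  induction l with
  | nil => simp at hx
  | cons y l ih =>
    show x ∈ cond (Nat.beq ((get y >>> g) % 2) 1) (y :: fl get g l) (fl get g l)
    rcases List.mem_cons.1 hx with rfl | hx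
    · have h1 : Nat.beq ((get x >>> g) % 2) 1 = true := by
        rw [Nat.testBit_eq_decide_div_mod_eq, decide_eq_true_iff] at h
        rw [Nat.beq_eq, Nat.shiftRight_eq_div_pow]
        exact h
      rw [h1, cond_true]
      exact List.mem_cons_self
    · have h2 := ih hx
      cases Nat.beq ((get y >>> g) % 2) 1
      · exact h2
      · exact List.mem_cons_of_mem _ h2

theorem an_bit (G : ℕ → ℕ) (FU : ℕ) (l : List ℕ) (p : ℕ) (h : (an G FU l).testBit p = true) :
    ∀ x ∈ l, (G x).testBit p = true := by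
  induction l with
  | nil => intro x hx; simp at hx
  | cons y l ih =>
    have h' : (an G FU l &&& G y).testBit p = true := h
    rw [Nat.testBit_and, Bool.and_eq_true] at h'
    intro x hx
    rcases List.mem_cons.1 hx with rfl | hx
    · exact h'.2
    · exact ih h'.1 x hx

theorem aL_bit (G get : ℕ → ℕ) (FU k g : ℕ) (L : List ℕ) (p : ℕ)
    (h : (aL G get FU k g L).testBit p = true) : ∀ t ∈ L, ∀ x ∈ vr k t,
      (get x).testBit g = true → (G x).testBit p = true := by
  induction L with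
  | nil => intro t ht; simp at ht
  | cons y L ih =>
    have h' : (aL G get FU k g L &&& an G FU (fl get g (vr k y))).testBit p = true := h
    rw [Nat.testBit_and, Bool.and_eq_true] at h'
    intro t ht x hx hg
    rcases List.mem_cons.1 ht with rfl | ht
    · exact an_bit _ _ _ _ h'.2 x (mem_fl get g _ x hx hg)
    · exact ih h'.1 t ht x hx hg

theorem oT_bit (R get : ℕ → ℕ) (FU k : ℕ) (L T : List ℕ) (p : ℕ)
    (h : (oT R get FU k L T).testBit p = true) : ∃ t ∈ T, ∀ y ∈ L, ∀ x ∈ vr k y,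
      (get x).testBit (t / 128) = true → (R (ad k (t % 128) x)).testBit p = true := by
  induction T with
  | nil =>
    have h' : (0 : ℕ).testBit p = true := h
    simp at h'
  | cons t T ih =>
    have h' : (oT R get FU k L T ||| (fr (t % 128) (fun τ => fr (t / 128) (fun g =>
      aL (fun x => fr (ad k τ x) R) get FU k g L)))).testBit p = true := h
    rw [Nat.testBit_or, Bool.or_eq_true, fr_eq, fr_eq] at h'
    rcases h' with h' | h'
    · obtain ⟨t', ht', h2⟩ := ih h'
      exact ⟨t', List.mem_cons_of_mem _ ht', h2⟩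
    · refine ⟨t, List.mem_cons_self, fun y hy x hx hg => ?_⟩
      have h2 := aL_bit _ _ _ _ _ _ _ h' y hy x hx hg
      simp only [fr_eq] at h2
      exact h2

theorem cA_bit (a NA : ℕ) (get : ℕ → ℕ) (hget : ∀ r, get r < 2 ^ NA) (r : ℕ) :
    ∀ (P : List ℕ), cA a NA get P r < 2 ^ (NA * P.length) ∧ ∀ (j g : ℕ) (hj : j < P.length),
      g < NA → ((cA a NA get P r).testBit (NA * j + g) = true ↔
        (get (ad a P[j] r)).testBit g = true) := by
  intro P
  induction P with
  | nil => exact ⟨by show 0 < _; positivity, fun j g hj => by simp at hj⟩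
  | cons π P ih =>
    have h' : cA a NA get (π :: P) r = (cA a NA get P r) <<< NA ||| get (ad a π r) := by
      show _ ||| fr _ _ = _
      rw [fr_eq]
      rfl
    rw [h']
    have h0 := hget (ad a π r)
    refine ⟨?_, fun j g hj hg => ?_⟩
    · refine Nat.or_lt_two_pow ?_ ?_
      · rw [Nat.shiftLeft_eq, List.length_cons, Nat.mul_add, mul_one, pow_add]
        exact Nat.mul_lt_mul_of_pos_right ih.1 (by positivity)
      · refine h0.trans_le (Nat.pow_le_pow_right (by norm_num) ?_)
        rw [List.length_cons]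
        exact Nat.le_mul_of_pos_right _ (by omega)
    · rw [Nat.testBit_or, Nat.testBit_shiftLeft]
      cases j with
      | zero =>
        have : decide (NA * 0 + g ≥ NA) = false := by
          rw [decide_eq_false_iff_not]; omega
        rw [this, Bool.false_and, Bool.false_or, mul_zero, zero_add]
        rfl
      | succ j =>
        have h1 : NA ≤ NA * (j + 1) + g := by rw [Nat.mul_add]; omega
        have h2 : (get (ad a π r)).testBit (NA * (j + 1) + g) = false :=
          Nat.testBit_lt_two_pow (h0.trans_le (Nat.pow_le_pow_right (by norm_num) h1))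
        have h3 : decide (NA * (j + 1) + g ≥ NA) = true := decide_eq_true h1
        rw [h2, Bool.or_false, h3, Bool.true_and,
          show NA * (j + 1) + g - NA = NA * j + g by rw [Nat.mul_add]; omega]
        exact ih.2 j g (by simpa using hj) hg

theorem sp_bit (S : ℕ) (x : ℕ) (hx : x < 2 ^ S) : ∀ (n m h p : ℕ), p < S →
    (x * sp S n m).testBit (S * h + p) = true → h < n ∧ m.testBit h = true ∧
      x.testBit p = true := by
  intro n
  induction n with
  | zero =>
    intro m h p _ hb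
    have h' : (x * 0).testBit (S * h + p) = true := hb
    simp at h'
  | succ n ih =>
    intro m h p hp hb
    have h' : (x * (m % 2 + (sp S n (m / 2)) <<< S)).testBit (S * h + p) = true := hb
    rw [Nat.shiftLeft_eq, Nat.mul_add, ← mul_assoc, mul_comm (x * sp S n (m / 2)),
      add_comm] at h'
    have hlt : x * (m % 2) < 2 ^ S := by
      have : m % 2 < 2 := Nat.mod_lt _ (by norm_num)
      interval_cases hm : m % 2
      · simp
      · simpa using hx
    rw [Nat.testBit_two_pow_mul_add _ hlt] at h'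
    cases h with
    | zero =>
      rw [mul_zero, zero_add, if_pos hp] at h'
      have h2 : m % 2 < 2 := Nat.mod_lt _ (by norm_num)
      rcases Nat.mod_two_eq_zero_or_one m with h3 | h3
      · rw [h3] at h'; simp at h'
      · rw [h3, mul_one] at h'
        refine ⟨by omega, ?_, h'⟩
        rw [Nat.testBit_zero, decide_eq_true_iff]
        exact h3
    | succ h =>
      rw [if_neg (by rw [Nat.mul_add]; omega),
        show S * (h + 1) + p - S = S * h + p by rw [Nat.mul_add]; omega] at h'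
      obtain ⟨q1, q2, q3⟩ := ih (m / 2) h p hp h'
      refine ⟨by omega, ?_, q3⟩
      rw [Nat.testBit_succ]
      exact q2

theorem zf_bit (f g : ℕ → ℕ) (l : List ℕ) (n : ℕ)
    (h : (zf (mp f l) (mp g l)).testBit n = true) : ∃ i ∈ l, (f i * g i).testBit n = true := by
  induction l with
  | nil =>
    have h' : (0 : ℕ).testBit n = true := h
    simp at h'
  | cons x l ih =>
    have h' : (zf (mp f l) (mp g l) ||| (f x * g x)).testBit n = true := h
    rw [Nat.testBit_or, Bool.or_eq_true] at h'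
    rcases h' with h' | h'
    · obtain ⟨i, hi, h2⟩ := ih h'
      exact ⟨i, List.mem_cons_of_mem _ hi, h2⟩
    · exact ⟨x, List.mem_cons_self, h'⟩

theorem gl_bit (s c : ℕ) (A B : ℕ → ℕ) (I : List (List ℕ)) (z n : ℕ)
    (h : (gl s (rA A s I) (rB B c I) z).testBit n = true) :
    ∃ i, (A (z % 16 ^ s + i * 16 ^ s) * B (ng c i + z / 16 ^ s * 16 ^ c)).testBit n = true := by
  unfold gl at h
  rw [fr_eq, fr_eq, fr_eq] at h
  unfold rA rB at h
  obtain ⟨i, -, h2⟩ := zf_bit _ _ _ _ h
  rw [fr_eq, fr_eq] at h2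
  exact ⟨i, h2⟩

/-- Glued states. -/
def GlueP (a b c r1 r2 r3 : ℕ) : Prop :=
  (∀ i < c, dg r1 (a - c + i) = sw (dg r2 i)) ∧
  (∀ i < a - c, dg r1 i = dg r3 i) ∧
  (∀ i < b - c, dg r2 (c + i) = dg r3 (a - c + i))

theorem dg_add_lo (s X Y i : ℕ) (hX : X < 16 ^ s) (hi : i < s) :
    dg (X + Y * 16 ^ s) i = dg X i := by
  rw [dg_eq, dg_eq]
  obtain ⟨j, rfl⟩ : ∃ j, s = i + 1 + j := ⟨s - i - 1, by omega⟩
  have h3 : Y * 16 ^ (i + 1 + j) = 16 ^ i * (16 * (Y * 16 ^ j)) := by
    rw [pow_add, pow_add]; ring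
  rw [h3, Nat.add_mul_div_left _ _ (by positivity), Nat.add_mul_mod_self_left]

theorem dg_add_hi (s X Y i : ℕ) (hX : X < 16 ^ s) :
    dg (X + Y * 16 ^ s) (s + i) = dg Y i := by
  rw [dg_eq, dg_eq, pow_add, ← Nat.div_div_eq_div_mul, Nat.add_mul_div_right _ _ (by positivity),
    Nat.div_eq_of_lt hX, zero_add]

theorem dg_mod (s z i : ℕ) (hi : i < s) : dg (z % 16 ^ s) i = dg z i := by
  have h := dg_add_lo s (z % 16 ^ s) (z / 16 ^ s) i (Nat.mod_lt _ (by positivity)) hi
  rw [← h]
  congr 1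
  rw [mul_comm]
  exact Nat.mod_add_div z (16 ^ s)

theorem dg_div (s z i : ℕ) : dg (z / 16 ^ s) i = dg z (s + i) := by
  rw [dg_eq, dg_eq, pow_add, ← Nat.div_div_eq_div_mul]

theorem glue_std (a b c z i : ℕ) (hi : ∀ j < c, dg i j < 16) :
    GlueP a b c (z % 16 ^ (a - c) + i * 16 ^ (a - c)) (ng c i + z / 16 ^ (a - c) * 16 ^ c) z := by
  have h0 : z % 16 ^ (a - c) < 16 ^ (a - c) := Nat.mod_lt _ (by positivity)
  refine ⟨fun j hj => ?_, fun j hj => ?_, fun j hj => ?_⟩
  · rw [dg_add_hi _ _ _ _ h0, dg_add_lo c _ _ j (ng_lt c i) hj, dg_ng c i j hj,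
      (sw_sw _ (hi j hj)).1]
  · rw [dg_add_lo _ _ _ _ h0 hj, dg_mod _ _ _ hj]
  · rw [dg_add_hi c _ _ _ (ng_lt c i), dg_div]

/-- The mask of the pairs for which the check was made. -/
def nd (S : ℕ) (hs : List ℕ) : ℕ :=
  List.rec 0 (fun h _ ih => Nat.lor ih (Nat.shiftLeft (Nat.sub (Nat.pow 2 S) 1) (Nat.mul S h))) hs

theorem nd_bit (S p : ℕ) (hp : p < S) : ∀ (hs : List ℕ), ∀ h ∈ hs,
    (nd S hs).testBit (S * h + p) = true := by
  intro hs
  induction hs with
  | nil => intro h hh; simp at hh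
  | cons y l ih =>
    intro h hh
    show (nd S l ||| ((2 ^ S - 1) <<< (S * y))).testBit (S * h + p) = true
    rw [Nat.testBit_or, Bool.or_eq_true]
    rcases List.mem_cons.1 hh with rfl | hh
    · right
      rw [Nat.testBit_shiftLeft, Bool.and_eq_true, decide_eq_true_iff,
        Nat.add_sub_cancel_left, Nat.testBit_two_pow_sub_one, decide_eq_true_iff]
      exact ⟨by omega, hp⟩
    · left
      exact ih h hh

theorem ck_bit (R get : ℕ → ℕ) (FU ND k : ℕ) (T : List ℕ) (h : ck R get FU ND k T = true)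
    (n : ℕ) (hn : ND.testBit n = true) : ∃ t ∈ T, ∀ y ∈ HL k, ∀ x ∈ vr k y,
      (get x).testBit (t / 128) = true → (R (ad k (t % 128) x)).testBit n = true := by
  have h1 := Nat.eq_of_beq_eq_true h
  have h2 : (oT R get FU k (HL k) T &&& ND).testBit n = true := by
    show (Nat.land _ _).testBit n = true
    rw [h1]
    exact hn
  rw [Nat.testBit_and, Bool.and_eq_true] at h2
  exact oT_bit _ _ _ _ _ _ _ h2.1

/-- The tables are invariant under the change of all signs. -/
def Sym (k : ℕ) (get : ℕ → ℕ) : Prop := ∀ x < 16 ^ k, vl k x = true → get (ng k x) = get x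

theorem vl_ng (k : ℕ) (h3 : 3 ≤ k) (h5 : k ≤ 5) (x : ℕ) (h : vl k x = true) :
    vl k (ng k x) = true := by
  obtain ⟨h1, h2, h4⟩ := vl_facts k h3 h5 x h
  have e0 : ∀ i ∈ range k, wl (dg (ng k x) i) + 2 * (wl (dg x i) % 32) = wl (dg x i) + 6 := by
    intro i hi
    have hi' := mem_range.1 hi
    have h6 := (wl_facts _ (dg_lt x i)).2 (wl_lt _ (h1 i hi'))
    rw [dg_ng k x i hi']
    have h7 := h6.2.2.2.2.1
    have h8 := h6.2.2.2.2.2
    omega
  have e1 := Finset.sum_congr (rfl : range k = range k) e0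
  rw [Finset.sum_add_distrib, Finset.sum_add_distrib, ← Finset.mul_sum, Finset.sum_const,
    card_range, smul_eq_mul] at e1
  have e3 : ∑ i ∈ range k, wl (dg x i) =
      (∑ i ∈ range k, wl (dg x i) % 32) + 32 * ∑ i ∈ range k, wl (dg x i) / 32 := by
    rw [Finset.mul_sum, ← Finset.sum_add_distrib]
    exact Finset.sum_congr rfl fun i _ => by omega
  have e2 : ∑ i ∈ range k, wl (dg x i) % 32 ≤ k * 6 := by
    calc ∑ i ∈ range k, wl (dg x i) % 32 ≤ ∑ _i ∈ range k, 6 :=
          Finset.sum_le_sum fun i hi =>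
            ((wl_facts _ (dg_lt x i)).2 (wl_lt _ (h1 i (mem_range.1 hi)))).2.1
      _ = k * 6 := by rw [Finset.sum_const, card_range, smul_eq_mul]
  have e4 : ∑ i ∈ range k, wl (dg (ng k x) i) = ∑ i ∈ range k, wl (dg x i) := by
    obtain ⟨A, hA⟩ : ∃ A, A = ∑ i ∈ range k, wl (dg x i) % 32 := ⟨_, rfl⟩
    obtain ⟨B, hB⟩ : ∃ B, B = ∑ i ∈ range k, wl (dg x i) / 32 := ⟨_, rfl⟩
    obtain ⟨C, hC⟩ : ∃ C, C = ∑ i ∈ range k, wl (dg x i) := ⟨_, rfl⟩
    obtain ⟨D, hD⟩ : ∃ D, D = ∑ i ∈ range k, wl (dg (ng k x) i) := ⟨_, rfl⟩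
    rw [← hA, ← hB, ← hC] at e3
    rw [← hA, ← hC, ← hD] at e1
    rw [← hA] at e2
    rw [← hC] at h2 h4
    rw [← hC, ← hD]
    clear hA hB hC hD e0 h1 h
    interval_cases k <;> omega
  unfold vl at h ⊢
  rw [wk_eq k h3] at h ⊢
  rw [e4]
  exact h

theorem sym_of (k : ℕ) (h3 : 3 ≤ k) (h5 : k ≤ 5) (get : ℕ → ℕ)
    (h : ((HL k).all fun y => (vr k y).all fun x => Nat.beq (get x) (get (ng k x))) = true) :
    Sym k get := by
  intro x hx hvx
  rcases HL_facts k h3 h5 x hx hvx with h1 | h1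
  · have h2 := (List.all_eq_true.1 ((List.all_eq_true.1 h) _ h1)) x (mem_vr k h3 h5 x hvx)
    exact (Nat.eq_of_beq_eq_true h2).symm
  · have h2 := (List.all_eq_true.1 ((List.all_eq_true.1 h) _ h1)) (ng k x)
      (mem_vr k h3 h5 _ (vl_ng k h3 h5 x hvx))
    have h4 := Nat.eq_of_beq_eq_true h2
    rw [ng_ng k x hx] at h4
    exact h4

end Pool.Agent.TH505.HF
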