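import Pool.Agent.TH505.HF.Sound

/-! From the checks to the statements about gluings. -/

set_option autoImplicit false

open Finset

namespace Pool.Agent.TH505.HF

open Pool.Agent.TH505.OW (PM fc pa pb Rel pm_facts)

/-- A family of `N` sets of states with `k` ends; `get r` is the mask of the sets that contain the
state `r`. -/
structure Fam (k N : ℕ) (get : ℕ → ℕ) : Prop where
  h3 : 3 ≤ k
  h5 : k ≤ 5
  lt : ∀ r, get r < 2 ^ N
  bit : ∀ r g, (get r).testBit g = true → vl k r = true ∧ r < 16 ^ k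
  sym : Sym k get

theorem fam_of (k N : ℕ) (h3 : 3 ≤ k) (h5 : k ≤ 5) (T : List ℕ) (get : ℕ → ℕ)
    (hg : ∀ r, get r = gt k N (2 ^ N) (fun t => nt T t) r) (hT : T.length * 4096 ≤ 16 ^ k ∨ k = 5 ∧ T.length = 176)
    (h : ((HL k).all fun y => (vr k y).all fun x => Nat.beq (get x) (get (ng k x))) = true) :
    Fam k N get := by
  refine ⟨h3, h5, fun r => ?_, fun r g hr => ?_, sym_of k h3 h5 get h⟩
  · rw [hg]; exact gt_lt _ _ _ _
  · rw [hg] at hr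
    have h1 := gt_bit _ _ _ _ _ hr
    have h2 := gt_dom _ _ _ _ _ hr
    refine ⟨h1.1, ?_⟩
    rcases hT with hT | ⟨rfl, hT⟩
    · have h6 : r < T.length * 4096 := by omega
      omega
    · rw [hT] at h2
      omega

/-- What the tables say about a gluing along `c` ends, for the permutation `ρ` of the ends of the
second piece and its set `g2`. -/
def TabN (a b c k NA NT : ℕ) (gA gB gT : ℕ → ℕ) (ρ g2 : ℕ) : Prop :=
  ∀ π ∈ pa a c, ∀ g1 < NA, ∃ g3 < NT, ∃ τ < fc k, ∀ x, (gT x).testBit g3 = true →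
    ∃ y, (y = x ∨ y = ng k x) ∧ ∃ r1 r2, (gA (ad a π r1)).testBit g1 = true ∧
      (gB (ad b ρ r2)).testBit g2 = true ∧ GlueP a b c r1 r2 (ad k τ y)

theorem tabn_of (a b c k NA NB NT S FU ND : ℕ) (gA gB gT : ℕ → ℕ) (P : List ℕ)
    (I : List (List ℕ)) (ρ : ℕ) (hs T : List ℕ) (R : ℕ → ℕ) (hP : pa a c = P)
    (hS : NA * P.length = S) (FA : Fam a NA gA) (FT : Fam k NT gT)
    (hR : R = gl (a - c) (rA (cA a NA gA P) (a - c) I)
      (rB (fun r => fr (ad b ρ r) (fun x => sp S NB (gB x))) c I))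
    (hT : T.all (fun t => Nat.ble (t / 128 + 1) NT && Nat.ble (t % 128 + 1) (fc k)) = true)
    (hND : nd S hs = ND)
    (h : ck R gT FU ND k T = true) : ∀ g2 ∈ hs, TabN a b c k NA NT gA gB gT ρ g2 := by
  intro g2 hg2 π hπ g1 hg1
  subst hP hND hR
  obtain ⟨j, hj, rfl⟩ := List.getElem_of_mem hπ
  have hp : NA * j + g1 < S := by
    rw [← hS]
    calc NA * j + g1 < NA * j + NA := by omega
      _ = NA * (j + 1) := by ring
      _ ≤ NA * (pa a c).length := Nat.mul_le_mul_left _ hj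
  obtain ⟨t, ht, h1⟩ := ck_bit _ _ _ _ _ _ h _ (nd_bit S _ hp hs g2 hg2)
  have h2 := (List.all_eq_true.1 hT) t ht
  rw [Bool.and_eq_true, Nat.ble_eq, Nat.ble_eq] at h2
  refine ⟨t / 128, by omega, t % 128, by omega, fun x hx => ?_⟩
  obtain ⟨v1, v2⟩ := FT.bit x _ hx
  obtain ⟨y, hy, hb⟩ : ∃ y, (y = x ∨ y = ng k x) ∧
      (gl (a - c) (rA (cA a NA gA (pa a c)) (a - c) I)
      (rB (fun r => fr (ad b ρ r) (fun x => sp S NB (gB x))) c I) (ad k (t % 128) y)).testBit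
        (S * g2 + (NA * j + g1)) = true := by
    rcases HL_facts k FT.h3 FT.h5 x v2 v1 with h3 | h3
    · exact ⟨x, Or.inl rfl, h1 _ h3 x (mem_vr k FT.h3 FT.h5 x v1) hx⟩
    · refine ⟨ng k x, Or.inr rfl, h1 _ h3 _
        (mem_vr k FT.h3 FT.h5 _ (vl_ng k FT.h3 FT.h5 x v1)) ?_⟩
      rw [FT.sym x v2 v1]
      exact hx
  refine ⟨y, hy, ?_⟩
  obtain ⟨i, hi⟩ := gl_bit _ _ _ _ _ _ _ hb
  simp only [fr_eq] at hi
  obtain ⟨c1, c2⟩ := cA_bit a NA gA FA.lt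
    (ad k (t % 128) y % 16 ^ (a - c) + i * 16 ^ (a - c)) (pa a c)
  rw [hS] at c1
  obtain ⟨-, s2, s3⟩ := sp_bit S _ c1 NB _ g2 _ hp hi
  exact ⟨_, _, (c2 j g1 hj hg1).1 s3, s2, glue_std a b c _ i (fun j _ => dg_lt i j)⟩

/-- Every `l` satisfies `f`. -/
def alb (l : List ℕ) (f : ℕ → Bool) : Bool := List.rec true (fun h _ ih => cond (f h) ih false) l

theorem alb_mem {l : List ℕ} {f : ℕ → Bool} (h : alb l f = true) : ∀ x ∈ l, f x = true := by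
  induction l with
  | nil => intro x hx; simp at hx
  | cons y l ih =>
    have h' : cond (f y) (alb l f) false = true := h
    intro x hx
    cases hy : f y with
    | false => rw [hy] at h'; simp at h'
    | true =>
      rw [hy] at h'
      rcases List.mem_cons.mp hx with rfl | hx
      · exact hy
      · exact ih h' x hx

theorem tabl_of (a b c k NA NB NT S FU ND : ℕ) (gA gB gT : ℕ → ℕ) (P : List ℕ)
    (I : List (List ℕ)) (PB : List ℕ) (hs T : List ℕ) (R : ℕ → ℕ → ℕ) (hP : pa a c = P)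
    (hS : NA * P.length = S) (FA : Fam a NA gA) (FT : Fam k NT gT)
    (hR : ∀ ρ, R ρ = gl (a - c) (rA (cA a NA gA P) (a - c) I)
      (rB (fun r => fr (ad b ρ r) (fun x => sp S NB (gB x))) c I))
    (hT : T.all (fun t => Nat.ble (t / 128 + 1) NT && Nat.ble (t % 128 + 1) (fc k)) = true)
    (hND : nd S hs = ND)
    (h : alb PB (fun ρ => ck (R ρ) gT FU ND k T) = true) :
    ∀ ρ ∈ PB, ∀ g2 ∈ hs, TabN a b c k NA NT gA gB gT ρ g2 :=
  fun ρ hρ => tabn_of a b c k NA NB NT S FU ND gA gB gT P I ρ hs T (R ρ) hP hS FA FT (hR ρ) hT hND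
    (alb_mem h ρ hρ)

/-- All gluings. -/
def TabOK (a b c k NA NB NT : ℕ) (gA gB gT : ℕ → ℕ) : Prop :=
  ∀ ρ ∈ pb b c, ∀ g2 < NB, TabN a b c k NA NT gA gB gT ρ g2

/-- Every state in the set `g'` of the first family is carried by the permutation `κ` to a state in
the set `g` of the second one. -/
def Sub (k : ℕ) (g1 g2 : ℕ → ℕ) (g' κ g : ℕ) : Prop :=
  ∀ y, (g1 y).testBit g' = true → (g2 (ad k κ y)).testBit g = true

theorem sub_of (k N1 N2 : ℕ) (g1 g2 : ℕ → ℕ) (F1 : Fam k N1 g1) (F2 : Fam k N2 g2) (κ : ℕ)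
    (hκ : κ < fc k) (g' g : ℕ)
    (h : ∀ h ∈ HL k, ∀ x ∈ vr k h, (g1 x).testBit g' = true → (g2 (ad k κ x)).testBit g = true) :
    Sub k g1 g2 g' κ g := by
  intro y hy
  obtain ⟨v1, v2⟩ := F1.bit y _ hy
  rcases HL_facts k F1.h3 F1.h5 y v2 v1 with h3 | h3
  · exact h _ h3 y (mem_vr k F1.h3 F1.h5 y v1) hy
  · have h4 := h _ h3 _ (mem_vr k F1.h3 F1.h5 _ (vl_ng k F1.h3 F1.h5 y v1))
      (by rw [F1.sym y v2 v1]; exact hy)
    obtain ⟨w1, w2⟩ := F2.bit _ _ h4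
    have h5 := F2.sym _ w2 w1
    rw [ad_ng k κ y F1.h3 F1.h5 hκ, ng_ng k _ (ad_facts k κ y F1.h3 F1.h5 hκ).1] at h5
    rw [h5]
    rw [ad_ng k κ y F1.h3 F1.h5 hκ] at h4
    exact h4

theorem ad_ad (k ρ κ ρ' : ℕ) (h3 : 3 ≤ k) (h5 : k ≤ 5) (hρ : ρ < fc k) (hκ : κ < fc k)
    (hρ' : ρ' < fc k) (h : ∀ i < k, PM k κ (PM k ρ i) = PM k ρ' i) (r : ℕ) :
    ad k κ (ad k ρ r) = ad k ρ' r := by
  have hk : Rel k := by unfold Pool.Agent.TH505.OW.Rel; omega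
  obtain ⟨p1, p2, p3⟩ := pm_facts k hk ρ' hρ'
  obtain ⟨q1, q2, q3⟩ := pm_facts k hk ρ hρ
  refine dg_ext k _ _ (ad_facts k κ _ h3 h5 hκ).1 (ad_facts k ρ' r h3 h5 hρ').1 fun i hi => ?_
  obtain ⟨j, hj, rfl⟩ := p3 i hi
  rw [(ad_facts k ρ' r h3 h5 hρ').2 j hj, ← h j hj,
    (ad_facts k κ _ h3 h5 hκ).2 _ (q1 j hj), (ad_facts k ρ r h3 h5 hρ).2 j hj]

theorem tabn_move (a b c k NA NT : ℕ) (gA gB gT : ℕ → ℕ) (h3 : 3 ≤ b) (h5 : b ≤ 5)
    (ρ κ ρ' g2 g2' : ℕ) (hρ : ρ < fc b) (hκ : κ < fc b)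
    (hρ' : ρ' < fc b) (h : ∀ i < b, PM b κ (PM b ρ i) = PM b ρ' i)
    (hs : Sub b gB gB g2' κ g2) (ht : TabN a b c k NA NT gA gB gT ρ g2') :
    TabN a b c k NA NT gA gB gT ρ' g2 := by
  intro π hπ g1 hg1
  obtain ⟨g3, hg3, τ, hτ, hx⟩ := ht π hπ g1 hg1
  refine ⟨g3, hg3, τ, hτ, fun x hx' => ?_⟩
  obtain ⟨y, hy, r1, r2, u1, u2, u3⟩ := hx x hx'
  refine ⟨y, hy, r1, r2, u1, ?_, u3⟩
  rw [← ad_ad b ρ κ ρ' h3 h5 hρ hκ hρ' h]
  exact hs _ u2

end Pool.Agent.TH505.HF
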