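import Pool.Agent.TH505.HF.Tof

/-! Checks for a part of the sets and permutations. -/

set_option autoImplicit false

namespace Pool.Agent.TH505.HF

open Pool.Agent.TH505.OW (PM fc pa pb)

/-- What the tables say about a gluing along `c` ends, for the permutations in `P` of the ends of the
first piece, the permutation `ρ` of the ends of the second piece and its set `g2`. -/
def TabP (P : List ℕ) (a b c k NA NT : ℕ) (gA gB gT : ℕ → ℕ) (ρ g2 : ℕ) : Prop :=
  ∀ π ∈ P, ∀ g1 < NA, ∃ g3 < NT, ∃ τ < fc k, ∀ x, (gT x).testBit g3 = true →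
    ∃ y, (y = x ∨ y = ng k x) ∧ ∃ r1 r2, (gA (ad a π r1)).testBit g1 = true ∧
      (gB (ad b ρ r2)).testBit g2 = true ∧ GlueP a b c r1 r2 (ad k τ y)

theorem tabp_of (P : List ℕ) (a b c k NA NB NT S FU ND : ℕ) (gA gB gT : ℕ → ℕ)
    (I : List (List ℕ)) (PB : List ℕ) (hs T : List ℕ) (R : ℕ → ℕ → ℕ)
    (hS : NA * P.length = S) (FA : Fam a NA gA) (FT : Fam k NT gT)
    (hR : ∀ ρ, R ρ = gl (a - c) (rA (cA a NA gA P) (a - c) I)
      (rB (fun r => fr (ad b ρ r) (fun x => sp S NB (gB x))) c I))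
    (hT : T.all (fun t => Nat.ble (t / 128 + 1) NT && Nat.ble (t % 128 + 1) (fc k)) = true)
    (hND : nd S hs = ND)
    (h : alb PB (fun ρ => ck (R ρ) gT FU ND k T) = true) :
    ∀ ρ ∈ PB, ∀ g2 ∈ hs, TabP P a b c k NA NT gA gB gT ρ g2 := by
  intro ρ hρ g2 hg2 π hπ g1 hg1
  have h := alb_mem h ρ hρ
  subst hND
  rw [hR] at h
  obtain ⟨j, hj, rfl⟩ := List.getElem_of_mem hπ
  have hp : NA * j + g1 < S := by
    rw [← hS]
    calc NA * j + g1 < NA * j + NA := by omega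
      _ = NA * (j + 1) := by ring
      _ ≤ NA * P.length := Nat.mul_le_mul_left _ hj
  obtain ⟨t, ht, h1⟩ := ck_bit _ _ _ _ _ _ h _ (nd_bit S _ hp hs g2 hg2)
  have h2 := (List.all_eq_true.1 hT) t ht
  rw [Bool.and_eq_true, Nat.ble_eq, Nat.ble_eq] at h2
  refine ⟨t / 128, by omega, t % 128, by omega, fun x hx => ?_⟩
  obtain ⟨v1, v2⟩ := FT.bit x _ hx
  obtain ⟨y, hy, hb⟩ : ∃ y, (y = x ∨ y = ng k x) ∧
      (gl (a - c) (rA (cA a NA gA P) (a - c) I)
      (rB (fun r => fr (ad b ρ r) (fun x => sp S NB (gB x))) c I) (ad k (t % 128) y)).testBit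
        (S * g2 + (NA * j + g1)) = true := by
    rcases HL_facts k FT.h3 FT.h5 x v2 v1 with h3 | h3
    · exact ⟨x, Or.inl rfl, h1 _ h3 x (mem_vr k FT.h3 FT.h5 x v1) hx⟩
    · refine ⟨ng k x, Or.inr rfl, h1 _ h3 _
        (mem_vr k FT.h3 FT.h5 _ (vl_ng k FT.h3 FT.h5 x v1)) ?_⟩
      rw [FT.sym x v2 v1]
      exact hx
  refine ⟨y, hy, ?_⟩
  obtain ⟨i, hi⟩ := gl_bit _ _ _ _ _ _ _ hb
  simp only [fr_eq] at hi
  obtain ⟨c1, c2⟩ := cA_bit a NA gA FA.lt
    (ad k (t % 128) y % 16 ^ (a - c) + i * 16 ^ (a - c)) P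
  rw [hS] at c1
  obtain ⟨-, s2, s3⟩ := sp_bit S _ c1 NB _ g2 _ hp hi
  exact ⟨_, _, (c2 j g1 hj hg1).1 s3, s2, glue_std a b c _ i (fun j _ => dg_lt i j)⟩

/-- Some of the lowest four bits: the numbers of the bits are the base-8 digits of `s`. -/
def sb (s n m : ℕ) : ℕ := Nat.rec (fun _ => 0)
  (fun _ ih s => Nat.add (Nat.mod (Nat.shiftRight m (Nat.mod s 8)) 2)
    (Nat.mul 2 (ih (Nat.div s 8)))) n s

theorem sb_bit (m : ℕ) : ∀ (n s i : ℕ), (sb s n m).testBit i = true →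
    i < n ∧ m.testBit (s / 8 ^ i % 8) = true := by
  intro n
  induction n with
  | zero => intro s i h; simp [sb] at h
  | succ n ih =>
    intro s i h
    have h0 : sb s (n + 1) m = (m >>> (s % 8)) % 2 + 2 * sb (s / 8) n m := rfl
    rw [h0] at h
    cases i with
    | zero =>
      refine ⟨by omega, ?_⟩
      rw [Nat.testBit_zero, decide_eq_true_iff] at h
      rw [pow_zero, Nat.div_one, Nat.testBit_eq_decide_div_mod_eq, decide_eq_true_iff,
        ← Nat.shiftRight_eq_div_pow]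
      omega
    | succ i =>
      rw [Nat.testBit_succ] at h
      have h1 : ((m >>> (s % 8)) % 2 + 2 * sb (s / 8) n m) / 2 = sb (s / 8) n m := by omega
      rw [h1] at h
      obtain ⟨h2, h3⟩ := ih _ _ h
      refine ⟨by omega, ?_⟩
      rw [Nat.div_div_eq_div_mul, ← pow_succ'] at h3
      exact h3

/-- From the chosen sets of the second family to the whole family. -/
theorem tabp_sel (P : List ℕ) (a b c k NA NT s n : ℕ) (gA gB gT : ℕ → ℕ) (ρ i g2 : ℕ)
    (hi : s / 8 ^ i % 8 = g2)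
    (h : TabP P a b c k NA NT gA (fun r => fr (gB r) (sb s n)) gT ρ i) :
    TabP P a b c k NA NT gA gB gT ρ g2 := by
  intro π hπ g1 hg1
  obtain ⟨g3, hg3, τ, hτ, hx⟩ := h π hπ g1 hg1
  refine ⟨g3, hg3, τ, hτ, fun x hx' => ?_⟩
  obtain ⟨y, hy, r1, r2, u1, u2, u3⟩ := hx x hx'
  refine ⟨y, hy, r1, r2, u1, ?_, u3⟩
  have u4 : (sb s n (gB (ad b ρ r2))).testBit i = true := by
    have u5 : fr (gB (ad b ρ r2)) (sb s n) = sb s n (gB (ad b ρ r2)) := fr_eq _ _
    rw [← u5]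
    exact u2
  have := (sb_bit _ _ _ _ u4).2
  rw [hi] at this
  exact this

/-- All permutations of the ends of the first piece, in two parts. -/
theorem tabn_two (P1 P2 : List ℕ) (a b c k NA NT : ℕ) (gA gB gT : ℕ → ℕ) (ρ g2 : ℕ)
    (hP : pa a c = P1 ++ P2) (h1 : TabP P1 a b c k NA NT gA gB gT ρ g2)
    (h2 : TabP P2 a b c k NA NT gA gB gT ρ g2) : TabN a b c k NA NT gA gB gT ρ g2 := by
  intro π hπ
  rw [hP] at hπ
  rcases List.mem_append.1 hπ with h | h
  · exact h1 π h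
  · exact h2 π h

end Pool.Agent.TH505.HF
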