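import Pool.Agent.TH505.HF.Num

/-! Valid states, and the lists of all valid states. -/

set_option autoImplicit false

open Finset

namespace Pool.Agent.TH505.HF

open Pool.Agent.TH505.OW (PM fc pa pb Rel pm_facts)

/-- The value of a letter. -/
def lv (c : ℕ) : ℤ := ((wl c % 32 : ℕ) : ℤ) - 3

/-- One if the letter is one of an edge of the even subgraph. -/
def cc (c : ℕ) : ℤ := ((wl c / 32 : ℕ) : ℤ)

theorem wl_all : ((List.range 16).all fun c => Nat.ble (wl c) 256 &&
    (Nat.ble 256 (wl c) || (Nat.ble (c + 1) 11 && Nat.ble (wl c % 32) 6 && Nat.ble (wl c / 32) 1 &&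
      Nat.beq (Nat.mod (Nat.shiftRight DTT (Nat.mul 4 (wl c % 64))) 16) c &&
      Nat.beq (wl (sw c) % 32 + wl c % 32) 6 && Nat.beq (wl (sw c) / 32) (wl c / 32)))) = true := by
  decide +kernel

theorem wl_facts (c : ℕ) (hc : c < 16) : wl c ≤ 256 ∧ (wl c < 256 → c < 11 ∧ wl c % 32 ≤ 6 ∧
    wl c / 32 ≤ 1 ∧ Nat.mod (Nat.shiftRight DTT (Nat.mul 4 (wl c % 64))) 16 = c ∧
    wl (sw c) % 32 + wl c % 32 = 6 ∧ wl (sw c) / 32 = wl c / 32) := by
  have h := (List.all_eq_true.1 wl_all) c (List.mem_range.2 hc)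
  rw [Bool.and_eq_true, Nat.ble_eq] at h
  refine ⟨h.1, fun h2 => ?_⟩
  have h3 := h.2
  simp only [Bool.or_eq_true, Bool.and_eq_true, Nat.ble_eq, Nat.beq_eq] at h3
  rcases h3 with h3 | ⟨⟨⟨⟨⟨h4, h5⟩, h6⟩, h7⟩, h8⟩, h9⟩
  · omega
  · exact ⟨by omega, h5, h6, h7, h8, h9⟩

theorem wl11 : ((List.range 11).all fun c => Nat.ble (wl c + 1) 256) = true := by decide +kernel

theorem wl_lt (c : ℕ) (hc : c < 11) : wl c < 256 := by
  have h := (List.all_eq_true.1 wl11) c (List.mem_range.2 hc)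
  rw [Nat.ble_eq] at h
  omega

theorem sw_lt11 (c : ℕ) (hc : c < 11) : sw c < 11 := by
  have h : ((List.range 11).all fun c => Nat.ble (sw c + 1) 11) = true := by decide +kernel
  have h1 := (List.all_eq_true.1 h) c (List.mem_range.2 hc)
  rw [Nat.ble_eq] at h1
  omega

theorem lv_sw (c : ℕ) (hc : c < 11) : lv (sw c) = - lv c := by
  have h := ((wl_facts c (by omega)).2 (wl_lt c hc)).2.2.2.2.1
  unfold lv
  omega

theorem cc_sw (c : ℕ) (hc : c < 11) : cc (sw c) = cc c := by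
  have h := ((wl_facts c (by omega)).2 (wl_lt c hc)).2.2.2.2.2
  unfold cc
  omega

theorem land_all : ((List.range 2048).all fun T => (List.range 6).all fun k =>
    !(Nat.beq (Nat.land T 65343) (Nat.mul 3 k)) || (Nat.ble (T + 1) 256 && Nat.beq (T % 64) (3 * k))) =
    true := by decide +kernel

/-- Valid states. -/
theorem vl_facts (k : ℕ) (h3 : 3 ≤ k) (h5 : k ≤ 5) (r : ℕ) (h : vl k r = true) :
    (∀ i < k, dg r i < 11) ∧ (∑ i ∈ range k, wl (dg r i)) % 64 = 3 * k ∧
      (∑ i ∈ range k, wl (dg r i)) < 256 := by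
  unfold vl at h
  rw [wk_eq k h3] at h
  obtain ⟨T, hT⟩ : ∃ T, T = ∑ i ∈ range k, wl (dg r i) := ⟨_, rfl⟩
  rw [← hT] at h ⊢
  have hle : T ≤ k * 256 := by
    rw [hT]
    calc ∑ i ∈ range k, wl (dg r i) ≤ ∑ _i ∈ range k, 256 :=
          Finset.sum_le_sum fun i _ => (wl_facts _ (dg_lt r i)).1
      _ = k * 256 := by rw [Finset.sum_const, card_range, smul_eq_mul]
  have h1 := (List.all_eq_true.1 land_all) T (List.mem_range.2 (by omega))
  have h2 := (List.all_eq_true.1 h1) k (List.mem_range.2 (by omega))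
  rw [h] at h2
  simp only [Bool.not_true, Bool.false_or, Bool.and_eq_true, Nat.ble_eq, Nat.beq_eq] at h2
  refine ⟨fun i hi => ?_, h2.2, by omega⟩
  have h4 : wl (dg r i) ≤ T := by
    rw [hT]
    exact Finset.single_le_sum (f := fun i => wl (dg r i)) (fun _ _ => Nat.zero_le _)
      (mem_range.2 hi)
  exact ((wl_facts _ (dg_lt r i)).2 (by omega)).1

theorem vl_sums (k : ℕ) (h3 : 3 ≤ k) (h5 : k ≤ 5) (r : ℕ) (h : vl k r = true) :
    (∑ i ∈ range k, lv (dg r i)) = 0 ∧ (2 : ℤ) ∣ ∑ i ∈ range k, cc (dg r i) := by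
  obtain ⟨h1, h2, h4⟩ := vl_facts k h3 h5 r h
  have e1 : ∑ i ∈ range k, wl (dg r i) =
      (∑ i ∈ range k, wl (dg r i) % 32) + 32 * ∑ i ∈ range k, wl (dg r i) / 32 := by
    rw [Finset.mul_sum, ← Finset.sum_add_distrib]
    exact Finset.sum_congr rfl fun i _ => by omega
  have e2 : ∑ i ∈ range k, wl (dg r i) % 32 ≤ k * 6 := by
    calc ∑ i ∈ range k, wl (dg r i) % 32 ≤ ∑ _i ∈ range k, 6 :=
          Finset.sum_le_sum fun i hi =>
            ((wl_facts _ (dg_lt r i)).2 (wl_lt _ (h1 i (mem_range.1 hi)))).2.1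
      _ = k * 6 := by rw [Finset.sum_const, card_range, smul_eq_mul]
  rw [e1] at h2
  obtain ⟨A, hA⟩ : ∃ A, A = ∑ i ∈ range k, wl (dg r i) % 32 := ⟨_, rfl⟩
  obtain ⟨B, hB⟩ : ∃ B, B = ∑ i ∈ range k, wl (dg r i) / 32 := ⟨_, rfl⟩
  rw [← hA, ← hB] at h2
  rw [← hA] at e2
  have h6 : A = 3 * k ∧ B % 2 = 0 := by
    clear hA hB h4 e1 h1 h
    interval_cases k <;> omega
  constructor
  · unfold lv
    rw [Finset.sum_sub_distrib, ← Nat.cast_sum, ← hA, Finset.sum_const, card_range, h6.1]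
    simp
    ring
  · unfold cc
    rw [← Nat.cast_sum, ← hB]
    omega

theorem nt_zero (l : List ℕ) (n : ℕ) (h : l.length ≤ n) : nt l n = 0 := by
  induction l generalizing n with
  | nil => rfl
  | cons x l ih =>
    cases n with
    | zero => simp at h
    | succ m =>
      show nt l m = 0
      exact ih m (by simpa using h)

theorem gt_eq (k N : ℕ) (rw' : ℕ → ℕ) (r : ℕ) : gt k N (2 ^ N) rw' r =
    if vl k r = true then (rw' (r / 4096) >>> (N * (r % 256))) % 2 ^ N else 0 := by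
  unfold gt
  rw [fr_eq]
  cases vl k r <;> rfl

theorem gt_lt (k N : ℕ) (rw' : ℕ → ℕ) (r : ℕ) : gt k N (2 ^ N) rw' r < 2 ^ N := by
  rw [gt_eq]
  split_ifs
  · exact Nat.mod_lt _ (by positivity)
  · positivity

theorem gt_bit (k N : ℕ) (rw' : ℕ → ℕ) (r g : ℕ)
    (h : (gt k N (2 ^ N) rw' r).testBit g = true) : vl k r = true ∧ g < N := by
  rw [gt_eq] at h
  split_ifs at h with h1
  · rw [Nat.testBit_mod_two_pow, Bool.and_eq_true, decide_eq_true_iff] at h
    exact ⟨h1, h.1⟩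
  · simp at h

theorem gt_dom (k N : ℕ) (T : List ℕ) (r g : ℕ)
    (h : (gt k N (2 ^ N) (fun t => nt T t) r).testBit g = true) : r / 4096 < T.length := by
  by_contra h2
  rw [gt_eq] at h
  split_ifs at h with h1
  · rw [nt_zero T _ (by omega)] at h
    simp at h
  · simp at h

theorem P2_all : ((List.range 11).all fun x => (List.range 11).all fun y =>
    P2.contains (x + 16 * y)) = true := by decide +kernel

theorem vr_aux (k h x : ℕ) : ∀ (l : List ℕ) (m : ℕ), m ∈ l → lt k h m ≤ 10 →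
    lt k h m + (4096 * h + 16 * m) = x →
    x ∈ (List.rec [] (fun m _ ih => cond (Nat.ble (lt k h m) 10)
    (frL (Nat.add (lt k h m) (Nat.add (Nat.mul 4096 h) (Nat.mul 16 m))) (fun x => x :: ih)) ih) l :
      List ℕ) := by
  intro l
  induction l with
  | nil => intro m hm; simp at hm
  | cons y l ih =>
    intro m hm h1 h2
    show x ∈ cond (Nat.ble (lt k h y) 10)
      (frL (Nat.add (lt k h y) (Nat.add (Nat.mul 4096 h) (Nat.mul 16 y))) (fun x => x :: _)) _
    rcases List.mem_cons.1 hm with rfl | hm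
    · have h3 : Nat.ble (lt k h m) 10 = true := by rw [Nat.ble_eq]; exact h1
      rw [h3, frL_eq, cond_true, List.mem_cons]
      left
      exact h2.symm
    · have h4 := ih m hm h1 h2
      cases Nat.ble (lt k h y) 10
      · rw [cond_false]
        exact h4
      · rw [cond_true, frL_eq]
        exact List.mem_cons_of_mem _ h4

/-- The list of the valid states with given top digits is complete. -/
theorem mem_vr (k : ℕ) (h3 : 3 ≤ k) (h5 : k ≤ 5) (x : ℕ) (h : vl k x = true) :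
    x ∈ vr k (x / 4096) := by
  obtain ⟨h1, h2, h4⟩ := vl_facts k h3 h5 x h
  obtain ⟨j, rfl⟩ : ∃ j, k = 3 + j := ⟨k - 3, by omega⟩
  have hsub : Nat.sub (3 + j) 3 = j := by
    show 3 + j - 3 = j
    omega
  have e0 := h1 0 (by omega)
  have e1 := h1 1 (by omega)
  have e2 := h1 2 (by omega)
  have hm : x / 16 % 256 = dg x 1 + 16 * dg x 2 := by
    rw [dg_eq, dg_eq]
    omega
  have hP : (x / 16 % 256) ∈ P2 := by
    have h6 := (List.all_eq_true.1 ((List.all_eq_true.1 P2_all) (dg x 1) (List.mem_range.2 e1)))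
      (dg x 2) (List.mem_range.2 e2)
    rw [hm]
    simpa using h6
  have hw : ws 2 (x / 16 % 256) = wl (dg x 1) + wl (dg x 2) := by
    rw [ws_eq, Finset.sum_range_succ, Finset.sum_range_succ, Finset.sum_range_zero, zero_add]
    have q1 : dg (x / 16 % 256) 0 = dg x 1 := by rw [dg_eq, dg_eq]; omega
    have q2 : dg (x / 16 % 256) 1 = dg x 2 := by rw [dg_eq, dg_eq]; omega
    rw [q1, q2]
  have hT : ∑ i ∈ range (3 + j), wl (dg x i) =
      wl (dg x 0) + (ws j (x / 4096) + ws 2 (x / 16 % 256)) := by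
    rw [hw, ws_eq, Finset.sum_range_add (fun i => wl (dg x i)) 3 j]
    simp only [dg_hi]
    rw [Finset.sum_range_succ, Finset.sum_range_succ, Finset.sum_range_succ,
      Finset.sum_range_zero]
    ring
  have hlt : lt (3 + j) (x / 4096) (x / 16 % 256) = dg x 0 := by
    have h6 := ((wl_facts (dg x 0) (dg_lt x 0)).2 (wl_lt _ e0)).2.2.2.1
    unfold lt
    rw [fr_eq, fr_eq, hsub]
    have h7 : Nat.mod (Nat.sub (Nat.add 1024 (Nat.mul 3 (3 + j)))
        (Nat.add (ws j (x / 4096)) (ws 2 (x / 16 % 256)))) 64 = wl (dg x 0) % 64 := by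
      show (1024 + 3 * (3 + j) - (ws j (x / 4096) + ws 2 (x / 16 % 256))) % 64 = _
      omega
    rw [h7]
    exact h6
  unfold vr
  refine vr_aux (3 + j) (x / 4096) x P2 (x / 16 % 256) hP (by omega) ?_
  rw [hlt, dg_eq]
  norm_num
  omega

theorem HL_all : ((List.range 11).all fun x => ((HL 4).contains x || (HL 4).contains (sw x)) &&
    (List.range 11).all fun y => ((HL 5).contains (x + 16 * y) ||
      (HL 5).contains (sw x + 16 * sw y))) = true := by decide +kernel

theorem HL_facts (k : ℕ) (h3 : 3 ≤ k) (h5 : k ≤ 5) (x : ℕ) (hx : x < 16 ^ k)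
    (h : vl k x = true) : x / 4096 ∈ HL k ∨ ng k x / 4096 ∈ HL k := by
  obtain ⟨h1, -, -⟩ := vl_facts k h3 h5 x h
  interval_cases k
  · left
    have : x / 4096 = 0 := by omega
    rw [this]
    decide
  · have e3 := h1 3 (by omega)
    have f3 := dg_ng 4 x 3 (by omega)
    have f4 := ng_lt 4 x
    have g1 : x / 4096 = dg x 3 := by rw [dg_eq]; norm_num; omega
    have g2 : ng 4 x / 4096 = sw (dg x 3) := by rw [← f3, dg_eq]; norm_num; omega
    have h6 := (List.all_eq_true.1 HL_all) (dg x 3) (List.mem_range.2 e3)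
    rw [g1, g2]
    simp only [Bool.and_eq_true, Bool.or_eq_true, List.contains_eq_mem, decide_eq_true_iff] at h6
    exact h6.1
  · have e3 := h1 3 (by omega)
    have e4 := h1 4 (by omega)
    have f3 := dg_ng 5 x 3 (by omega)
    have f4 := dg_ng 5 x 4 (by omega)
    have f5 := ng_lt 5 x
    have g1 : x / 4096 = dg x 3 + 16 * dg x 4 := by rw [dg_eq, dg_eq]; norm_num; omega
    have g2 : ng 5 x / 4096 = sw (dg x 3) + 16 * sw (dg x 4) := by
      rw [← f3, ← f4, dg_eq, dg_eq]; norm_num; omega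
    have h6 := (List.all_eq_true.1 HL_all) (dg x 3) (List.mem_range.2 e3)
    rw [Bool.and_eq_true] at h6
    have h7 := (List.all_eq_true.1 h6.2) (dg x 4) (List.mem_range.2 e4)
    rw [g1, g2]
    simp only [Bool.or_eq_true, List.contains_eq_mem, decide_eq_true_iff] at h7
    exact h7

end Pool.Agent.TH505.HF
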